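import Pool.Agent.U776.PL.Joint

set_option autoImplicit false

/-!
# Poisson law for rare events with the pair bound `C w p w q`: the deterministic error
-/

namespace Pool.Agent.U776.PG

open MeasureTheory Finset Filter Topology
open Pool.Agent.U776.PL

lemma errd_zero (C κ : ℝ) (m : ℕ) (T : Finset ℕ) : errd C 0 κ m T =
    ∑ q ∈ T, (C * (1 + κ) * wt q * (∑ p ∈ T.filter (fun p => yy q m < p ∧ p < q), wt p) +
      (κ * wt q) ^ 2) := by
  unfold errd
  refine sum_congr rfl fun q _ => ?_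
  rw [mul_sum]
  congr 1
  refine sum_congr rfl fun p hp => ?_
  rw [mem_filter] at hp
  rw [zero_pow (by omega)]
  ring

/-- the deterministic part of the error is small -/
theorem errd_small0 {C κ : ℝ} (hκ : 0 ≤ κ) (hC : 0 ≤ C) (m : ℕ)
    {V ε : ℝ} (hV : 0 ≤ V) (hε : 0 < ε) :
    ∃ δ : ℝ, 0 < δ ∧ ∃ P0 : ℕ, ∀ T : Finset ℕ, (∀ p ∈ T, P0 ≤ p) →
      (∀ x : ℕ, ∑ p ∈ T.filter (fun p => x < p ∧ p ≤ 2 * x), wt p ≤ δ) → ∑ p ∈ T, wt p ≤ V →
      errd C 0 κ m T ≤ ε ∧ ∀ p ∈ T, κ * wt p ≤ 1 := by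
  classical
  set δ := ε / (4 * (C * (1 + κ) * (V + 1) * (m + 1) + 1)) with hδ
  have hδ0 : 0 < δ := by positivity
  set τ := ε / (4 * (κ ^ 2 * (V + 1) + 1)) with hτ
  have hτ0 : 0 < τ := by positivity
  have hkw : Tendsto (fun p => κ * wt p) atTop (𝓝 0) := by
    simpa using wt_tendsto.const_mul κ
  obtain ⟨P1, hP1⟩ := ((hkw.eventually_lt_const one_pos).and
    (wt_tendsto.eventually_lt_const hτ0)).exists_forall_of_atTop
  refine ⟨δ, hδ0, P1, fun T hTP hblk hsum => ⟨?_, fun p hp => (hP1 p (hTP p hp)).1.le⟩⟩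
  rw [errd_zero, Finset.sum_add_distrib]
  have hw0 : 0 ≤ ∑ p ∈ T, wt p := Finset.sum_nonneg fun p _ => wt_nonneg p
  -- the squares
  have hsq : ∑ q ∈ T, (κ * wt q) ^ 2 ≤ ε / 4 := by
    calc _ ≤ ∑ q ∈ T, κ ^ 2 * τ * wt q := by
          refine Finset.sum_le_sum fun q hq => ?_
          have h1 := (hP1 q (hTP q hq)).2.le
          have h2 := wt_nonneg q
          calc (κ * wt q) ^ 2 = κ ^ 2 * (wt q * wt q) := by ring
            _ ≤ κ ^ 2 * (τ * wt q) := by gcongr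
            _ = _ := by ring
      _ = κ ^ 2 * τ * ∑ q ∈ T, wt q := by rw [Finset.mul_sum]
      _ ≤ κ ^ 2 * τ * (V + 1) := by gcongr; linarith
      _ ≤ ε / 4 := by
          have e : κ ^ 2 * τ * (V + 1) = (ε / 4) * ((κ ^ 2 * (V + 1)) / (κ ^ 2 * (V + 1) + 1)) := by
            rw [hτ]; field_simp
          rw [e]
          have : (κ ^ 2 * (V + 1)) / (κ ^ 2 * (V + 1) + 1) ≤ 1 := by
            rw [div_le_one (by positivity)]; linarith
          have h4 : 0 ≤ ε / 4 := by positivity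
          nlinarith
  have e1 : ∀ q ∈ T, C * (1 + κ) * wt q *
      (∑ p ∈ T.filter (fun p => yy q m < p ∧ p < q), wt p) ≤ (C * (1 + κ) * (m * δ)) * wt q := by
    intro q hq
    have e3 : ∑ p ∈ T.filter (fun p => yy q m < p ∧ p < q), wt p ≤ m * δ := by
      refine le_trans ?_ (block_sum hblk q m)
      refine Finset.sum_le_sum_of_subset_of_nonneg ?_ fun p _ _ => wt_nonneg p
      intro p hp
      rw [mem_filter] at hp ⊢
      exact ⟨hp.1, hp.2.1, hp.2.2.le⟩
    have h5 : C * (1 + κ) * wt q * ∑ p ∈ T.filter (fun p => yy q m < p ∧ p < q), wt p ≤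
        C * (1 + κ) * wt q * (m * δ) := by
      have := wt_nonneg q
      gcongr
    linarith
  have h6 := sum_le_sum e1
  rw [← mul_sum] at h6
  have hδ2 : (C * (1 + κ) * (m * δ)) * (V + 1) ≤ ε / 4 := by
    have e : (C * (1 + κ) * (m * δ)) * (V + 1) =
      (ε / 4) * ((C * (1 + κ) * (V + 1) * m) / (C * (1 + κ) * (V + 1) * (m + 1) + 1)) := by
      rw [hδ]; field_simp
    rw [e]
    have h3 : 0 ≤ C * (1 + κ) * (V + 1) := by positivity
    have : (C * (1 + κ) * (V + 1) * m) / (C * (1 + κ) * (V + 1) * (m + 1) + 1) ≤ 1 := by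
      rw [div_le_one (by positivity)]; nlinarith
    have h4 : 0 ≤ ε / 4 := by positivity
    nlinarith
  have h7 : (C * (1 + κ) * (m * δ)) * ∑ q ∈ T, wt q ≤ (C * (1 + κ) * (m * δ)) * (V + 1) := by
    have : 0 ≤ C * (1 + κ) * (m * δ) := by positivity
    gcongr
    linarith
  linarith

lemma errd_nonneg0 {C κ : ℝ} (hκ : 0 ≤ κ) (hC : 0 ≤ C) (m : ℕ) (T : Finset ℕ) :
    0 ≤ errd C 0 κ m T := by
  rw [errd_zero]
  refine sum_nonneg fun q _ => add_nonneg ?_ (sq_nonneg _)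
  have h1 := wt_nonneg q
  have h2 : 0 ≤ ∑ p ∈ T.filter (fun p => yy q m < p ∧ p < q), wt p :=
    sum_nonneg fun p _ => wt_nonneg p
  positivity

end Pool.Agent.U776.PG
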