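import Mathlib
import Pool.Agent.U776.PL.Tup
import Pool.Agent.U776.PG.Err

set_option autoImplicit false

/-!
# Events which are determined by the first digits up to small probability
-/

namespace Pool.Agent.U776.PG

open MeasureTheory Finset Filter Topology
open Pool.Agent.N176.GP (NB NB_spec NB_div sum_cells)
open Pool.Agent.U776.PL

/-- left end point of the cell of level `t` -/
noncomputable def rd (b t : ℕ) (β : ℝ) : ℝ := (NB b β t : ℝ) / (b : ℝ) ^ t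

/-- the set where the event changes in the cell -/
def Ch (b : ℕ) (E : ℕ → Set ℝ) (p t : ℕ) : Set ℝ := {β | ¬ (β ∈ E p ↔ rd b t β ∈ E p)}

/-- the mean deviation of the density of the event `q` in the cells of level `c0 q` -/
noncomputable def dv (b : ℕ) (E : ℕ → Set ℝ) (κ c0 : ℝ) (q m A0 B0 : ℕ) : ℝ :=
  ∑ n ∈ Ico (A0 * b ^ (zl c0 q - m)) (B0 * b ^ (zl c0 q - m)),
    |(mu b (zl c0 q) n (n + 1)).real (E q) - κ * wt q / (b : ℝ) ^ zl c0 q|

/-- the axioms of the model -/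
structure QM (b : ℕ) (E : ℕ → Set ℝ) (κ : ℝ) (Λ A P : ℕ) (C c0 : ℝ) : Prop where
  hb : 2 ≤ b
  hκ : 0 < κ
  hΛ : 1 ≤ Λ
  hA : 1 ≤ A
  hC : 0 ≤ C
  hc0 : 0 < c0
  hcA : c0 * A ≤ 1
  meas : ∀ p, MeasurableSet (E p)
  one : ∀ m A0 B0 : ℕ, 1 ≤ A0 → A0 < B0 → B0 ≤ b ^ (2 * m) → ∀ p ≥ P, A * (m + 1) ≤ p →
    (mu b m A0 B0).real (E p) ≤ (mu b m A0 B0).real Set.univ * (C * wt p)
  pair : ∀ m A0 B0 : ℕ, 1 ≤ A0 → A0 < B0 → B0 ≤ b ^ (2 * m) → ∀ p ≥ P, A * (m + 1) ≤ p →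
    ∀ q > p, (mu b m A0 B0).real (E p ∩ E q) ≤
      (mu b m A0 B0).real Set.univ * (C * (wt p * wt q))
  loc : ∀ m A0 B0 : ℕ, A0 < B0 → ∀ p t : ℕ, m ≤ t →
    (mu b m A0 B0).real (Ch b E p t) ≤ (mu b m A0 B0).real Set.univ *
      (C * ((b : ℝ) ^ (Λ * p) + (b : ℝ) ^ m) / (b : ℝ) ^ t)
  mix : ∀ m A0 B0 : ℕ, 1 ≤ A0 → A0 < B0 → B0 ≤ b ^ (2 * m) → ∃ K : ℝ, 0 < K ∧ ∃ Q : ℕ,
    ∀ q ≥ Q, dv b E κ c0 q m A0 B0 ≤ K / q

lemma rd_measurable (b t : ℕ) : Measurable (rd b t) :=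
  (measurable_from_nat (f := fun n : ℕ => (n : ℝ) / (b : ℝ) ^ t)).comp (NB_measurable b t)

lemma Ch_measurable (b : ℕ) {E : ℕ → Set ℝ} (hE : ∀ p, MeasurableSet (E p)) (p t : ℕ) :
    MeasurableSet (Ch b E p t) := by
  have h1 : MeasurableSet (rd b t ⁻¹' (E p)) := rd_measurable b t (hE p)
  have e : Ch b E p t = (E p \ rd b t ⁻¹' (E p)) ∪ (rd b t ⁻¹' (E p) \ E p) := by
    ext β
    unfold Ch
    simp only [Set.mem_union, Set.mem_sdiff, Set.mem_preimage]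
    constructor
    · intro h
      by_cases h2 : β ∈ E p
      · exact Or.inl ⟨h2, fun h3 => h ⟨fun _ => h3, fun _ => h2⟩⟩
      · right
        refine ⟨?_, h2⟩
        by_contra h3
        exact h ⟨fun h4 => absurd h4 h2, fun h4 => absurd h4 h3⟩
    · rintro (⟨h1, h2⟩ | ⟨h1, h2⟩) h3
      · exact h2 (h3.1 h1)
      · exact h2 (h3.2 h1)
  rw [e]
  exact ((hE p).diff h1).union (h1.diff (hE p))

/-- the integral over an interval is the sum over the cells -/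
lemma int_split {b : ℕ} (hb : 2 ≤ b) {m z A0 B0 : ℕ} (hmz : m ≤ z) (hAB : A0 ≤ B0) {h : ℝ → ℝ}
    (hm : Measurable h) {M : ℝ} (hM : ∀ x, |h x| ≤ M) :
    ∫ x, h x ∂(mu b m A0 B0) =
      ∑ n ∈ Ico (A0 * b ^ (z - m)) (B0 * b ^ (z - m)), ∫ x, h x ∂(mu b z n (n + 1)) := by
  have hb0 : (0 : ℝ) < (b : ℝ) ^ z := by positivity
  have key : ∀ A B : ℕ, A ≤ B → ∫ x, h x ∂(mu b z A B) =
      ∑ n ∈ Ico A B, ∫ x, h x ∂(mu b z n (n + 1)) := by
    intro A B hAB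
    induction B, hAB using Nat.le_induction with
    | base => simp [mu]
    | succ B hAB ih =>
      rw [Finset.sum_Ico_succ_top hAB, ← ih]
      unfold mu
      have h1 : Set.Ioc ((A : ℝ) / (b : ℝ) ^ z) (((B + 1 : ℕ) : ℝ) / (b : ℝ) ^ z) =
         Set.Ioc ((A : ℝ) / (b : ℝ) ^ z) ((B : ℝ) / (b : ℝ) ^ z) ∪
           Set.Ioc ((B : ℝ) / (b : ℝ) ^ z) (((B + 1 : ℕ) : ℝ) / (b : ℝ) ^ z) := by
        rw [Set.Ioc_union_Ioc_eq_Ioc]
        · gcongr
        · gcongr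
          omega
      have i1 : Integrable h (volume.restrict (Set.Ioc ((A : ℝ) / (b : ℝ) ^ z) ((B : ℝ) / (b : ℝ) ^ z))) :=
        integrable_bdd hm hM
      have i2 : Integrable h (volume.restrict (Set.Ioc ((B : ℝ) / (b : ℝ) ^ z)
          (((B + 1 : ℕ) : ℝ) / (b : ℝ) ^ z))) := integrable_bdd hm hM
      rw [h1, setIntegral_union (Set.Ioc_disjoint_Ioc_of_le le_rfl) measurableSet_Ioc i1 i2]
  have e1 : mu b m A0 B0 = mu b z (A0 * b ^ (z - m)) (B0 * b ^ (z - m)) := by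
    unfold mu
    rw [scale hb hmz A0, scale hb hmz B0]
  rw [e1]
  exact key _ _ (Nat.mul_le_mul_right _ hAB)

lemma real_split {b : ℕ} (hb : 2 ≤ b) {m z A0 B0 : ℕ} (hmz : m ≤ z) (hAB : A0 ≤ B0) {S : Set ℝ}
    (hS : MeasurableSet S) : (mu b m A0 B0).real S =
      ∑ n ∈ Ico (A0 * b ^ (z - m)) (B0 * b ^ (z - m)), (mu b z n (n + 1)).real S := by
  have h1 : ∀ m A B, (mu b m A B).real S = ∫ x, S.indicator (fun _ => (1 : ℝ)) x ∂(mu b m A B) := by
    intro m A B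
    rw [integral_indicator hS, setIntegral_const, smul_eq_mul, mul_one]
  simp only [h1]
  refine int_split hb hmz hAB (measurable_const.indicator hS) (M := 1) fun x => ?_
  by_cases h : x ∈ S
  · rw [Set.indicator_of_mem h]; simp
  · rw [Set.indicator_of_notMem h]; simp

lemma abs_prod_sub {ι : Type*} (S : Finset ι) (a c : ι → ℝ) (ha : ∀ i ∈ S, 0 ≤ a i ∧ a i ≤ 1)
    (hc : ∀ i ∈ S, 0 ≤ c i ∧ c i ≤ 1) :
    |∏ i ∈ S, a i - ∏ i ∈ S, c i| ≤ ∑ i ∈ S, |a i - c i| := by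
  classical
  induction S using Finset.induction_on with
  | empty => simp
  | insert i S hi ih =>
    rw [prod_insert hi, prod_insert hi, sum_insert hi]
    have h1 := ih (fun j hj => ha j (mem_insert_of_mem hj)) (fun j hj => hc j (mem_insert_of_mem hj))
    have h2 := ha i (mem_insert_self _ _)
    have h3 := hc i (mem_insert_self _ _)
    have h4 : 0 ≤ ∏ j ∈ S, a j := prod_nonneg fun j hj => (ha j (mem_insert_of_mem hj)).1
    have h5 : ∏ j ∈ S, a j ≤ 1 := prod_le_one (fun j hj => (ha j (mem_insert_of_mem hj)).1)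
      fun j hj => (ha j (mem_insert_of_mem hj)).2
    have e : a i * ∏ j ∈ S, a j - c i * ∏ j ∈ S, c j =
        (a i - c i) * ∏ j ∈ S, a j + c i * (∏ j ∈ S, a j - ∏ j ∈ S, c j) := by ring
    rw [e]
    refine (abs_add_le _ _).trans ?_
    rw [abs_mul, abs_mul, abs_of_nonneg h4, abs_of_nonneg h3.1]
    have h6 := abs_nonneg (a i - c i)
    have h7 := abs_nonneg (∏ j ∈ S, a j - ∏ j ∈ S, c j)
    nlinarith

/-- the product is determined by the cell, up to the exceptional sets -/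
lemma G_rd {b : ℕ} {E : ℕ → Set ℝ} {θ : ℕ → ℝ} (hθ : ∀ p, 0 ≤ θ p ∧ θ p ≤ 1) (S : Finset ℕ)
    (t : ℕ) (β : ℝ) : |G E S θ β - G E S θ (rd b t β)| ≤
      ∑ p ∈ S, (Ch b E p t).indicator (fun _ => (1 : ℝ)) β := by
  classical
  unfold G
  refine (abs_prod_sub S _ _ (fun p _ => fac_bounds hθ p β) (fun p _ => fac_bounds hθ p _)).trans ?_
  refine sum_le_sum fun p _ => ?_
  by_cases h : β ∈ Ch b E p t
  · rw [Set.indicator_of_mem h]
    have h1 := fac_bounds (E := E) hθ p β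
    have h2 := fac_bounds (E := E) hθ p (rd b t β)
    rw [abs_le]
    constructor <;> linarith
  · rw [Set.indicator_of_notMem h]
    have h1 : β ∈ E p ↔ rd b t β ∈ E p := by
      by_contra h2
      exact h h2
    rw [if_congr h1 rfl rfl, sub_self, abs_zero]

lemma int_G_rd {b : ℕ} {E : ℕ → Set ℝ} (hE : ∀ p, MeasurableSet (E p)) {θ : ℕ → ℝ}
    (hθ : ∀ p, 0 ≤ θ p ∧ θ p ≤ 1) (S : Finset ℕ) (t : ℕ) (μ : Measure ℝ) [IsFiniteMeasure μ]
    (F : Set ℝ) :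
    |∫ x in F, G E S θ x ∂μ - ∫ x in F, G E S θ (rd b t x) ∂μ| ≤ ∑ p ∈ S, μ.real (Ch b E p t) := by
  have i1 : Integrable (G E S θ) (μ.restrict F) := G_integrable hE hθ S
  have m2 : Measurable fun x => G E S θ (rd b t x) := (G_measurable hE S θ).comp (rd_measurable b t)
  have i2 : Integrable (fun x => G E S θ (rd b t x)) (μ.restrict F) :=
    integrable_bdd m2 (B := 1) fun x => by
      rw [abs_of_nonneg (G_nonneg hθ S _)]
      exact G_le_one hθ S _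
  rw [← integral_sub i1 i2]
  refine (abs_integral_le_integral_abs).trans ?_
  have i3 : ∀ p ∈ S, Integrable ((Ch b E p t).indicator (fun _ => (1 : ℝ))) (μ.restrict F) :=
    fun p _ => (integrable_const _).indicator (Ch_measurable b hE p t)
  calc ∫ x in F, |G E S θ x - G E S θ (rd b t x)| ∂μ ≤
      ∫ x in F, ∑ p ∈ S, (Ch b E p t).indicator (fun _ => (1 : ℝ)) x ∂μ :=
        integral_mono (i1.sub i2).abs (integrable_finsetSum _ i3) fun x => G_rd hθ S t x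
    _ = ∑ p ∈ S, (μ.restrict F).real (Ch b E p t) := by
        rw [integral_finsetSum _ i3]
        refine sum_congr rfl fun p _ => ?_
        rw [integral_indicator (Ch_measurable b hE p t), setIntegral_const, smul_eq_mul, mul_one]
    _ ≤ _ := by
        refine sum_le_sum fun p _ => ?_
        exact ENNReal.toReal_mono (measure_ne_top _ _) (Measure.restrict_apply_le _ _)

/-- a function of the cell -/
lemma cell_val {b : ℕ} (hb : 2 ≤ b) (z n : ℕ) (f : ℝ → ℝ) (F : Set ℝ) (hF : MeasurableSet F) :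
    ∫ x in F, f (rd b z x) ∂(mu b z n (n + 1)) =
      f ((n : ℝ) / (b : ℝ) ^ z) * (mu b z n (n + 1)).real F := by
  have h1 : ∫ x in F, f (rd b z x) ∂(mu b z n (n + 1)) =
      ∫ x in F, f ((n : ℝ) / (b : ℝ) ^ z) ∂(mu b z n (n + 1)) := by
    refine integral_congr_ae ?_
    unfold mu
    have h2 : ∀ᵐ x ∂((volume.restrict (Set.Ioc ((n : ℝ) / (b : ℝ) ^ z)
        (((n + 1 : ℕ) : ℝ) / (b : ℝ) ^ z))).restrict F), x ∈ Set.Ioc ((n : ℝ) / (b : ℝ) ^ z)
        (((n + 1 : ℕ) : ℝ) / (b : ℝ) ^ z) :=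
      ae_restrict_of_ae (ae_restrict_mem measurableSet_Ioc)
    filter_upwards [h2] with x hx
    unfold rd
    rw [NB_cell hb hx.1 hx.2]
  rw [h1, setIntegral_const, smul_eq_mul, mul_comm]

/-- asymptotic independence of the event `q` and the first digits -/
lemma mixG {b : ℕ} {E : ℕ → Set ℝ} {κ : ℝ} {Λ A P : ℕ} {C c0 : ℝ} (H : QM b E κ Λ A P C c0)
    {m A0 B0 : ℕ} (hAB : A0 < B0) {q : ℕ} (hmz : m ≤ zl c0 q) (hq1 : κ * wt q ≤ 1)
    (S : Finset ℕ) {θ : ℕ → ℝ} (hθ : ∀ p, 0 ≤ θ p ∧ θ p ≤ 1) :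
    |∫ x in E q, G E S θ x ∂(mu b m A0 B0) - κ * wt q * ∫ x, G E S θ x ∂(mu b m A0 B0)| ≤
      dv b E κ c0 q m A0 B0 + 2 * ∑ p ∈ S, (mu b m A0 B0).real (Ch b E p (zl c0 q)) := by
  have hb := H.hb
  have hb0 : (0 : ℝ) < b := by positivity
  set z := zl c0 q with hz
  have hkw : 0 ≤ κ * wt q := mul_nonneg H.hκ.le (wt_nonneg q)
  have h1 := int_G_rd (b := b) H.meas hθ S z (mu b m A0 B0) (E q)
  have h2 := int_G_rd (b := b) H.meas hθ S z (mu b m A0 B0) Set.univ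
  simp only [Measure.restrict_univ] at h2
  have m2 : Measurable fun x => G E S θ (rd b z x) := (G_measurable H.meas S θ).comp (rd_measurable b z)
  have b2 : ∀ x, |G E S θ (rd b z x)| ≤ 1 := fun x => by
    rw [abs_of_nonneg (G_nonneg hθ S _)]
    exact G_le_one hθ S _
  -- the main term
  have h3 : |∫ x in E q, G E S θ (rd b z x) ∂(mu b m A0 B0) -
      κ * wt q * ∫ x, G E S θ (rd b z x) ∂(mu b m A0 B0)| ≤ dv b E κ c0 q m A0 B0 := by
    have e1 : ∫ x in E q, G E S θ (rd b z x) ∂(mu b m A0 B0) =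
        ∑ n ∈ Ico (A0 * b ^ (z - m)) (B0 * b ^ (z - m)),
          G E S θ ((n : ℝ) / (b : ℝ) ^ z) * (mu b z n (n + 1)).real (E q) := by
      rw [← integral_indicator (H.meas q), int_split hb hmz hAB.le (m2.indicator (H.meas q)) (M := 1)]
      · refine sum_congr rfl fun n _ => ?_
        rw [integral_indicator (H.meas q), cell_val hb z n (G E S θ) (E q) (H.meas q)]
      · intro x
        by_cases h : x ∈ E q
        · rw [Set.indicator_of_mem h]; exact b2 x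
        · rw [Set.indicator_of_notMem h]; simp
    have e2 : ∫ x, G E S θ (rd b z x) ∂(mu b m A0 B0) =
        ∑ n ∈ Ico (A0 * b ^ (z - m)) (B0 * b ^ (z - m)),
          G E S θ ((n : ℝ) / (b : ℝ) ^ z) * (1 / (b : ℝ) ^ z) := by
      rw [int_split hb hmz hAB.le m2 b2]
      refine sum_congr rfl fun n _ => ?_
      have h4 := cell_val hb z n (G E S θ) Set.univ MeasurableSet.univ
      rw [Measure.restrict_univ] at h4
      rw [h4, mass (Nat.le_succ n)]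
      congr 2
      have : n + 1 - n = 1 := by omega
      rw [this]
      norm_num
    rw [e1, e2, mul_sum, ← sum_sub_distrib]
    refine (abs_sum_le_sum_abs _ _).trans ?_
    unfold dv
    refine sum_le_sum fun n _ => ?_
    have e3 : G E S θ ((n : ℝ) / (b : ℝ) ^ z) * (mu b z n (n + 1)).real (E q) -
        κ * wt q * (G E S θ ((n : ℝ) / (b : ℝ) ^ z) * (1 / (b : ℝ) ^ z)) =
        G E S θ ((n : ℝ) / (b : ℝ) ^ z) * ((mu b z n (n + 1)).real (E q) -
          κ * wt q / (b : ℝ) ^ z) := by ring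
    rw [e3, abs_mul, abs_of_nonneg (G_nonneg hθ S _)]
    have h4 := G_le_one (E := E) hθ S ((n : ℝ) / (b : ℝ) ^ z)
    have h5 := abs_nonneg ((mu b z n (n + 1)).real (E q) - κ * wt q / (b : ℝ) ^ z)
    nlinarith
  set a := ∫ x in E q, G E S θ x ∂(mu b m A0 B0)
  set a' := ∫ x in E q, G E S θ (rd b z x) ∂(mu b m A0 B0)
  set c := ∫ x, G E S θ x ∂(mu b m A0 B0)
  set c' := ∫ x, G E S θ (rd b z x) ∂(mu b m A0 B0)
  have e : a - κ * wt q * c = (a - a') + (a' - κ * wt q * c') + (-(κ * wt q) * (c - c')) := by ring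
  rw [e]
  refine (abs_add_three _ _ _).trans ?_
  rw [abs_mul, abs_neg, abs_of_nonneg hkw]
  have h4 : κ * wt q * |c - c'| ≤ 1 * |c - c'| := mul_le_mul_of_nonneg_right hq1 (abs_nonneg _)
  linarith

/-- the error term -/
noncomputable def re (b : ℕ) (E : ℕ → Set ℝ) (κ c0 : ℝ) (q m A0 B0 : ℕ) : ℝ :=
  dv b E κ c0 q m A0 B0 + (mu b m A0 B0).real Set.univ * (1 / (q : ℝ) ^ 2)

lemma dv_nonneg (b : ℕ) (E : ℕ → Set ℝ) (κ c0 : ℝ) (q m A0 B0 : ℕ) : 0 ≤ dv b E κ c0 q m A0 B0 :=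
  sum_nonneg fun _ _ => abs_nonneg _

lemma re_nonneg (b : ℕ) (E : ℕ → Set ℝ) (κ c0 : ℝ) (q m A0 B0 : ℕ) : 0 ≤ re b E κ c0 q m A0 B0 := by
  unfold re
  have := dv_nonneg b E κ c0 q m A0 B0
  positivity

lemma re_sum {b : ℕ} {E : ℕ → Set ℝ} {κ c0 : ℝ} (hb : 2 ≤ b) {q m z A0 B0 : ℕ} (hAB : A0 ≤ B0)
    (hm : m ≤ z) (hz : z ≤ zl c0 q) :
    ∑ j ∈ Ico (A0 * b ^ (z - m)) (B0 * b ^ (z - m)), re b E κ c0 q z j (j + 1) =
      re b E κ c0 q m A0 B0 := by
  unfold re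
  rw [sum_add_distrib, ← sum_mul]
  congr 1
  · unfold dv
    have e1 : b ^ (zl c0 q - m) = b ^ (z - m) * b ^ (zl c0 q - z) := by
      rw [← pow_add]; congr 1; omega
    rw [e1, ← mul_assoc, ← mul_assoc, sum_blocks _ _ _ (Nat.mul_le_mul_right _ hAB)]
  · congr 1
    exact (real_split hb hm hAB MeasurableSet.univ).symm

/-- asymptotic independence, with the error term -/
lemma mix_re {b : ℕ} {E : ℕ → Set ℝ} {κ : ℝ} {Λ A P : ℕ} {C c0 : ℝ} (H : QM b E κ Λ A P C c0) :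
    ∃ Q1 : ℕ, ∀ q ≥ Q1, ∀ m A0 B0 : ℕ, A0 < B0 → 2 * m ≤ zl c0 q → ∀ S : Finset ℕ,
      (∀ p ∈ S, 2 * (Λ * p) ≤ zl c0 q) → ∀ θ : ℕ → ℝ, (∀ p, 0 ≤ θ p ∧ θ p ≤ 1) →
      |∫ x in E q, G E S θ x ∂(mu b m A0 B0) - κ * wt q * ∫ x, G E S θ x ∂(mu b m A0 B0)| ≤
        re b E κ c0 q m A0 B0 := by
  have hb := H.hb
  have hC := H.hC
  have hc0 := H.hc0
  have hb0 : (0 : ℝ) < b := by positivity
  have hb1 : (1 : ℝ) < b := by exact_mod_cast (by omega : 1 < b)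
  have hkw : Tendsto (fun p => κ * wt p) atTop (𝓝 0) := by
    simpa using wt_tendsto.const_mul κ
  have hlog2 : 0 < Real.log 2 := Real.log_pos (by norm_num)
  have ev1 := Pool.Agent.N176.GP.grow (c0 * Real.log 2 / 4) (8 * (C + 1) * (c0 + 1)) (by positivity)
  have ev2 := Pool.Agent.N176.GP.grow (c0 * Real.log 2 / 4) 2 (by positivity)
  obtain ⟨Q1, hQ1⟩ := eventually_atTop.1 ((hkw.eventually_lt_const one_pos).and (ev1.and (ev2.and
    (eventually_ge_atTop 1))))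
  refine ⟨Q1, fun q hq m A0 B0 hAB hmz S hS θ hθ => ?_⟩
  obtain ⟨h1, h2, h3, h4⟩ := hQ1 q hq
  have hq1 : (1 : ℝ) ≤ q := by exact_mod_cast h4
  have hq0 : (0 : ℝ) < q := by linarith
  refine (mixG H hAB (by omega) h1.le S hθ).trans ?_
  unfold re
  refine add_le_add le_rfl ?_
  set z := zl c0 q with hz
  set M := (mu b m A0 B0).real Set.univ with hM
  have hM0 : 0 ≤ M := measureReal_nonneg
  have hz1 : (z : ℝ) ≤ c0 * q := Nat.floor_le (by positivity)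
  have hz2 : c0 * q < z + 1 := Nat.lt_floor_add_one _
  -- each exceptional set
  have k1 : ∀ p ∈ S, (mu b m A0 B0).real (Ch b E p z) ≤ M * (2 * C * (b : ℝ) ^ (z / 2) / (b : ℝ) ^ z) := by
    intro p hp
    refine (H.loc m A0 B0 hAB p z (by omega)).trans ?_
    refine mul_le_mul_of_nonneg_left ?_ hM0
    refine div_le_div_of_nonneg_right ?_ (by positivity)
    have h5 : (b : ℝ) ^ (Λ * p) ≤ (b : ℝ) ^ (z / 2) := pow_le_pow_right₀ hb1.le (by
      have := hS p hp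
      omega)
    have h6 : (b : ℝ) ^ m ≤ (b : ℝ) ^ (z / 2) := pow_le_pow_right₀ hb1.le (by omega)
    calc C * ((b : ℝ) ^ (Λ * p) + (b : ℝ) ^ m) ≤ C * ((b : ℝ) ^ (z / 2) + (b : ℝ) ^ (z / 2)) := by
          gcongr
      _ = _ := by ring
  have k2 : (S.card : ℝ) ≤ z + 1 := by
    have h5 : S ⊆ range (z + 1) := by
      intro p hp
      rw [mem_range]
      have h6 := hS p hp
      have h7 := H.hΛ
      nlinarith
    have h6 := card_le_card h5
    rw [card_range] at h6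
    exact_mod_cast h6
  have k3 : ∑ p ∈ S, (mu b m A0 B0).real (Ch b E p z) ≤
      (z + 1) * (M * (2 * C * (b : ℝ) ^ (z / 2) / (b : ℝ) ^ z)) := by
    refine (sum_le_sum k1).trans ?_
    rw [sum_const, nsmul_eq_mul]
    exact mul_le_mul_of_nonneg_right k2 (by positivity)
  -- the size
  have k4 : Real.exp (c0 * Real.log 2 / 2 * q) ≤ 2 * (2 : ℝ) ^ (z - z / 2) := by
    have h5 : 2 * (2 : ℝ) ^ (z - z / 2) = Real.exp (((z - z / 2 + 1 : ℕ) : ℝ) * Real.log 2) := by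
      rw [Real.exp_nat_mul, Real.exp_log (by norm_num), pow_succ]
      ring
    rw [h5, Real.exp_le_exp]
    have h6 : ((z : ℝ) + 1) / 2 ≤ ((z - z / 2 + 1 : ℕ) : ℝ) := by
      have h7 : z + 1 ≤ 2 * (z - z / 2 + 1) := by omega
      have h8 : ((z + 1 : ℕ) : ℝ) ≤ ((2 * (z - z / 2 + 1) : ℕ) : ℝ) := by exact_mod_cast h7
      push_cast at h8 ⊢
      linarith
    nlinarith
  have k5 : 2 * (8 * (C + 1) * (c0 + 1)) * (q : ℝ) ^ 4 ≤ Real.exp (c0 * Real.log 2 / 2 * q) := by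
    have h5 : Real.exp (c0 * Real.log 2 / 2 * q) =
        Real.exp (c0 * Real.log 2 / 4 * q) * Real.exp (c0 * Real.log 2 / 4 * q) := by
      rw [← Real.exp_add]
      congr 1
      ring
    rw [h5]
    calc 2 * (8 * (C + 1) * (c0 + 1)) * (q : ℝ) ^ 4 =
        (8 * (C + 1) * (c0 + 1) * (q : ℝ) ^ 2) * (2 * (q : ℝ) ^ 2) := by ring
      _ ≤ _ := mul_le_mul h2 h3 (by positivity) (Real.exp_pos _).le
  have k6 : (b : ℝ) ^ (z / 2) / (b : ℝ) ^ z ≤ 1 / (2 : ℝ) ^ (z - z / 2) := by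
    have h5 : (b : ℝ) ^ z = (b : ℝ) ^ (z / 2) * (b : ℝ) ^ (z - z / 2) := by
      rw [← pow_add]; congr 1; omega
    rw [h5, div_mul_eq_div_div, div_self (by positivity)]
    refine one_div_le_one_div_of_le (by positivity) ?_
    exact pow_le_pow_left₀ (by norm_num) (by exact_mod_cast hb) _
  have k7 : ((z : ℝ) + 1) ≤ (c0 + 1) * q := by nlinarith
  have k8 : 1 / (2 : ℝ) ^ (z - z / 2) ≤ 1 / (8 * (C + 1) * (c0 + 1) * (q : ℝ) ^ 4) := by
    refine one_div_le_one_div_of_le (by positivity) ?_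
    linarith
  have k9 : (q : ℝ) ≤ (q : ℝ) ^ 2 := by nlinarith
  calc 2 * ∑ p ∈ S, (mu b m A0 B0).real (Ch b E p z)
      ≤ 2 * ((z + 1) * (M * (2 * C * (b : ℝ) ^ (z / 2) / (b : ℝ) ^ z))) := by linarith
    _ = M * (4 * C * (z + 1) * ((b : ℝ) ^ (z / 2) / (b : ℝ) ^ z)) := by ring
    _ ≤ M * (4 * (C + 1) * ((c0 + 1) * q) * (1 / (8 * (C + 1) * (c0 + 1) * (q : ℝ) ^ 4))) := by
        refine mul_le_mul_of_nonneg_left ?_ hM0
        refine mul_le_mul ?_ (k6.trans k8) (by positivity) (by positivity)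
        refine mul_le_mul (by linarith) k7 (by positivity) (by positivity)
    _ = M * (1 / (2 * (q : ℝ) ^ 3)) := by
        field_simp
        ring
    _ ≤ M * (1 / (q : ℝ) ^ 2) := by
        refine mul_le_mul_of_nonneg_left ?_ hM0
        refine one_div_le_one_div_of_le (by positivity) ?_
        have : (q : ℝ) ^ 3 = (q : ℝ) ^ 2 * q := by ring
        rw [this]
        nlinarith [sq_nonneg (q : ℝ)]

end Pool.Agent.U776.PG
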