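import Mathlib
import Pool.Agent.U776.PG.A1

set_option autoImplicit false

/-!
# Averages of the generating functions along the blocks, for almost every amplitude
-/

namespace Pool.Agent.U776.PG

open MeasureTheory Finset Filter Topology
open Pool.Agent.N176.GP (NB NB_spec NB_div sum_cells)
open Pool.Agent.U776.PL

/-- the product at the left end point of the cell -/
noncomputable def gv (b : ℕ) (E : ℕ → Set ℝ) (t : ℕ) (S : Finset ℕ) (θ : ℕ → ℝ) (n : ℕ) : ℝ :=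
  G E S θ ((n : ℝ) / (b : ℝ) ^ t)

lemma gv_01 {b : ℕ} {E : ℕ → Set ℝ} {t : ℕ} {S : Finset ℕ} {θ : ℕ → ℝ}
    (hθ : ∀ p, 0 ≤ θ p ∧ θ p ≤ 1) (n : ℕ) : 0 ≤ gv b E t S θ n ∧ gv b E t S θ n ≤ 1 :=
  ⟨G_nonneg hθ S _, G_le_one hθ S _⟩

/-- the deviation of the conditional mean of a block -/
lemma dev {b : ℕ} {E : ℕ → Set ℝ} {κ : ℝ} {Λ A P : ℕ} {C c0 : ℝ} (H : QM b E κ Λ A P C c0)
    {Q1 : ℕ} (hre : ∀ q ≥ Q1, ∀ m A0 B0 : ℕ, A0 < B0 → 2 * m ≤ zl c0 q → ∀ S : Finset ℕ,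
      (∀ p ∈ S, 2 * (Λ * p) ≤ zl c0 q) → ∀ θ : ℕ → ℝ, (∀ p, 0 ≤ θ p ∧ θ p ≤ 1) →
      |∫ x in E q, G E S θ x ∂(mu b m A0 B0) - κ * wt q * ∫ x, G E S θ x ∂(mu b m A0 B0)| ≤
        re b E κ c0 q m A0 B0)
    {m1 : ℕ} {y : ℕ} (hyP : P ≤ y) (hyQ : Q1 ≤ y) (hyy : ∀ q ≥ y, 2 * (Λ * yy q m1) ≤ zl c0 q)
    (hy1 : ∀ p ≥ y, κ * wt p ≤ 1)
    {S : Finset ℕ} (hS : ∀ p ∈ S, y ≤ p) {z : ℕ} (hAz : A * (z + 1) ≤ y) (hz0 : 2 * z ≤ zl c0 y)
    {t : ℕ} (hzt : z ≤ t) {θ : ℕ → ℝ} (hθ : ∀ p, 0 ≤ θ p ∧ θ p ≤ 1)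
    {i : ℕ} (hi1 : 1 ≤ i) (hi2 : i + 1 ≤ b ^ (2 * z)) :
    |av b z t (gv b E t S θ) i - Real.exp (-(κ * ∑ p ∈ S, (1 - θ p) * wt p))| ≤
      (b : ℝ) ^ z * ∑ q ∈ S, re b E κ c0 q z i (i + 1) + errd C 0 κ m1 S +
      ∑ p ∈ S, C * ((b : ℝ) ^ (Λ * p) + (b : ℝ) ^ z) / (b : ℝ) ^ t := by
  have hb := H.hb
  have hb0 : (0 : ℝ) < b := by positivity
  have hmass : (mu b z i (i + 1)).real Set.univ = 1 / (b : ℝ) ^ z := by
    rw [mass (Nat.le_succ i)]
    congr 1
    have : i + 1 - i = 1 := by omega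
    rw [this]
    norm_num
  have hmono : ∀ q ≥ y, zl c0 y ≤ zl c0 q := fun q hq => zl_mono H.hc0.le hq
  have h3 := gen_unif (m := m1) (μ := mu b z i (i + 1)) (E := E) (C := C) (ρ := 0) H.hκ.le
    H.meas (P := y) (fun p hp => H.one z i (i + 1) hi1 (Nat.lt_succ_self i) hi2 p (by omega)
      (by omega))
    (fun p hp q hq => (H.pair z i (i + 1) hi1 (Nat.lt_succ_self i) hi2 p (by omega) (by omega) q
      hq).trans (le_of_eq (by rw [zero_pow (by omega), mul_zero, add_zero]))) S hS hy1 hθ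
    (r := fun q => re b E κ c0 q z i (i + 1))
    (fun q hq S' hS' => hre q (by omega) z i (i + 1) (Nat.lt_succ_self i)
      (hz0.trans (hmono q hq)) S' (fun p hp => by
        have h4 := hyy q hq
        have h5 := hS' p hp
        have h6 : Λ * p ≤ Λ * yy q m1 := Nat.mul_le_mul_left _ h5
        omega) θ hθ)
  have h4 := int_G_rd (b := b) H.meas hθ S t (mu b z i (i + 1)) Set.univ
  simp only [Measure.restrict_univ] at h4
  have h5 : ∫ x, G E S θ (rd b t x) ∂(mu b z i (i + 1)) =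
      av b z t (gv b E t S θ) i / (b : ℝ) ^ z := by
    rw [← int_cell_av hb hzt]
    rfl
  have h6 : ∑ p ∈ S, (mu b z i (i + 1)).real (Ch b E p t) ≤
      1 / (b : ℝ) ^ z * ∑ p ∈ S, C * ((b : ℝ) ^ (Λ * p) + (b : ℝ) ^ z) / (b : ℝ) ^ t := by
    rw [mul_sum]
    refine sum_le_sum fun p _ => ?_
    rw [← hmass]
    exact H.loc z i (i + 1) (Nat.lt_succ_self i) p t hzt
  rw [h5] at h4
  rw [hmass] at h3
  have hbz : (0 : ℝ) < (b : ℝ) ^ z := by positivity
  set I := ∫ x, G E S θ x ∂(mu b z i (i + 1)) with hI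
  set e := Real.exp (-(κ * ∑ p ∈ S, (1 - θ p) * wt p)) with he
  set L := ∑ p ∈ S, C * ((b : ℝ) ^ (Λ * p) + (b : ℝ) ^ z) / (b : ℝ) ^ t with hL
  have h7 : av b z t (gv b E t S θ) i - e =
      (b : ℝ) ^ z * ((I - 1 / (b : ℝ) ^ z * e) - (I - av b z t (gv b E t S θ) i / (b : ℝ) ^ z)) := by
    field_simp
    ring
  rw [h7, abs_mul, abs_of_pos hbz]
  have h8 : |(I - 1 / (b : ℝ) ^ z * e) - (I - av b z t (gv b E t S θ) i / (b : ℝ) ^ z)| ≤
      (∑ q ∈ S, re b E κ c0 q z i (i + 1) + 1 / (b : ℝ) ^ z * errd C 0 κ m1 S) +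
      1 / (b : ℝ) ^ z * L := by
    refine (abs_sub _ _).trans (add_le_add h3 (h4.trans h6))
  calc (b : ℝ) ^ z * |(I - 1 / (b : ℝ) ^ z * e) - (I - av b z t (gv b E t S θ) i / (b : ℝ) ^ z)|
      ≤ (b : ℝ) ^ z * ((∑ q ∈ S, re b E κ c0 q z i (i + 1) + 1 / (b : ℝ) ^ z * errd C 0 κ m1 S) +
        1 / (b : ℝ) ^ z * L) := mul_le_mul_of_nonneg_left h8 hbz.le
    _ = _ := by
        field_simp

/-- the case where everything holds from the first block on -/
theorem quen_good {b : ℕ} {E : ℕ → Set ℝ} {κ : ℝ} {Λ A P : ℕ} {C c0 : ℝ}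
    (H : QM b E κ Λ A P C c0) {Q1 : ℕ}
    (hre : ∀ q ≥ Q1, ∀ m A0 B0 : ℕ, A0 < B0 → 2 * m ≤ zl c0 q → ∀ S : Finset ℕ,
      (∀ p ∈ S, 2 * (Λ * p) ≤ zl c0 q) → ∀ θ : ℕ → ℝ, (∀ p, 0 ≤ θ p ∧ θ p ≤ 1) →
      |∫ x in E q, G E S θ x ∂(mu b m A0 B0) - κ * wt q * ∫ x, G E S θ x ∂(mu b m A0 B0)| ≤
        re b E κ c0 q m A0 B0)
    {m1 : ℕ} {m A0 B0 : ℕ} (hA0 : 1 ≤ A0) (hAB : A0 < B0) (hB0 : B0 ≤ b ^ (2 * m))
    {K : ℝ} (hK : 0 < K)
    (S : ℕ → Finset ℕ) (θ : ℕ → ℕ → ℝ) (hθ : ∀ j p, 0 ≤ θ j p ∧ θ j p ≤ 1) (y : ℕ → ℕ)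
    (hS : ∀ j, ∀ p ∈ S j, y j ≤ p ∧ p < y (j + 1)) (hymono : ∀ j, y j ≤ y (j + 1))
    (hyz : ∀ j, 3 * (Λ * y (j + 1)) ≤ zl (c0 / 2) (y (j + 2)))
    (hyP : ∀ j, P ≤ y j) (hyQ : ∀ j, Q1 ≤ y j) (hyA : ∀ j, 2 * A ≤ y j)
    (hy2 : ∀ j, 2 ^ (j + 1) ≤ y j)
    (hyy : ∀ q ≥ y 0, 2 * (Λ * yy q m1) ≤ zl c0 q) (hy1 : ∀ p ≥ y 0, κ * wt p ≤ 1)
    (hrr : ∀ q ≥ y 0, re b E κ c0 q m A0 B0 ≤ K / q) (hmz : ∀ j, m ≤ zl (c0 / 2) (y j))
    {V : ℝ} (hV : ∀ j, ∑ p ∈ S j, wt p ≤ V)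
    (herr : Tendsto (fun j => errd C 0 κ m1 (S j)) atTop (𝓝 0)) {L : ℝ}
    (hL : Tendsto (fun j => Real.exp (-(κ * ∑ p ∈ S j, (1 - θ j p) * wt p))) atTop (𝓝 L)) :
    ∀ᵐ β ∂(mu b m A0 B0),
      Tendsto (fun J : ℕ => (∑ j ∈ range J, G E (S j) (θ j) β) / (J : ℝ)) atTop (𝓝 L) := by
  classical
  have hb := H.hb
  have hA := H.hA
  have hΛ := H.hΛ
  have hC := H.hC
  have hc0 := H.hc0
  have hb0 : (0 : ℝ) < b := by positivity
  have hb1 : (1 : ℝ) ≤ b := by exact_mod_cast (by omega : 1 ≤ b)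
  have hA' : (0 : ℝ) < A := by exact_mod_cast (by omega : 0 < A)
  have hymono' : Monotone y := monotone_nat_of_le_succ hymono
  set z : ℕ → ℕ := fun j => zl (c0 / 2) (y j) with hz
  set t : ℕ → ℕ := fun j => 3 * (Λ * y (j + 1)) with ht
  have hzle : ∀ j, (z j : ℝ) ≤ c0 / 2 * y j := fun j => Nat.floor_le (by positivity)
  have hzA : ∀ j, A * (z j + 1) ≤ y j := by
    intro j
    have hy0 : (0 : ℝ) ≤ y j := Nat.cast_nonneg _
    have h1 : (A : ℝ) * z j ≤ y j / 2 := by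
      calc (A : ℝ) * z j ≤ A * (c0 / 2 * y j) := mul_le_mul_of_nonneg_left (hzle j) hA'.le
        _ = (c0 * A) * (y j / 2) := by ring
        _ ≤ 1 * (y j / 2) := mul_le_mul_of_nonneg_right H.hcA (by positivity)
        _ = _ := one_mul _
    have h2 : (2 * A : ℝ) ≤ y j := by exact_mod_cast hyA j
    have h3 : (A : ℝ) * (z j + 1) ≤ y j := by linarith
    exact_mod_cast h3
  have hzy : ∀ j, z j ≤ y j := by
    intro j
    have := hzA j
    nlinarith
  have hz0 : ∀ j, 2 * z j ≤ zl c0 (y j) := by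
    intro j
    refine Nat.le_floor ?_
    have := hzle j
    push_cast
    linarith
  have hzt : ∀ j, z j ≤ t j := fun j => by
    have h1 := hzy j
    have h2 := hymono j
    have h3 : y (j + 1) ≤ Λ * y (j + 1) := Nat.le_mul_of_pos_left _ hΛ
    simp only [ht]
    omega
  have hzmono : Monotone z := fun i j hij => zl_mono (by positivity) (hymono' hij)
  set g : ℕ → ℕ → ℝ := fun j => gv b E (t j) (S j) (θ j) with hg
  have hg01 : ∀ j n, 0 ≤ g j n ∧ g j n ≤ 1 := fun j n => gv_01 (hθ j) n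
  have hav01 : ∀ j i, 0 ≤ av b (z j) (t j) (g j) i ∧ av b (z j) (t j) (g j) i ≤ 1 := fun j i =>
    av_01 hb (hg01 j) i
  set e : ℕ → ℝ := fun j => Real.exp (-(κ * ∑ p ∈ S j, (1 - θ j p) * wt p)) with he
  -- the orthogonal part
  set X : ℕ → ℝ → ℝ := fun j β => g j (NB b β (t j)) - av b (z j) (t j) (g j) (NB b β (z j)) with hX
  have hXm : ∀ j, Measurable (X j) := fun j =>
    ((measurable_from_nat (f := g j)).comp (NB_measurable b (t j))).sub
      ((measurable_from_nat (f := av b (z j) (t j) (g j))).comp (NB_measurable b (z j)))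
  have hX1 : ∀ j β, |X j β| ≤ 1 := by
    intro j β
    have h1 := hg01 j (NB b β (t j))
    have h2 := hav01 j (NB b β (z j))
    rw [abs_le]
    constructor
    · simp only [hX]; linarith
    · simp only [hX]; linarith
  have hX0 : ∀ j k, j + 2 ≤ k → ∫ β, X j β * X k β ∂(mu b m A0 B0) = 0 := by
    intro j k hjk
    have htz : t j ≤ z k := by
      have h1 : t j ≤ z (j + 2) := hyz j
      exact h1.trans (hzmono hjk)
    have hzz : z j ≤ z k := hzmono (by omega)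
    have h1 := orth (m := m) (z := z k) (t := t k) (A0 := A0) (B0 := B0) hb (hmz k) (hzt k) hAB.le
      (fun n => g j (n / b ^ (z k - t j)) - av b (z j) (t j) (g j) (n / b ^ (z k - z j))) (g k)
    rw [← h1]
    refine integral_congr_ae ?_
    filter_upwards [mu_pos] with β hβ
    simp only [hX]
    rw [NB_div hb hβ htz, NB_div hb hβ hzz]
  have hslln := slln_orth (μ := mu b m A0 B0) hXm hX1 hX0
  -- the exceptional sets
  set ℓ : ℕ → ℝ := fun j => ∑ p ∈ S j, C * ((b : ℝ) ^ (Λ * p) + (b : ℝ) ^ z j) / (b : ℝ) ^ t j with hℓ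
  have hpow2 : ∀ j, ((2 : ℝ) ^ (j + 1)) ≤ y j := fun j => by exact_mod_cast hy2 j
  have hℓle : ∀ j, ℓ j ≤ 2 * C / 2 ^ (j + 1) := by
    intro j
    have hY0 : 1 ≤ y (j + 1) := le_trans (Nat.one_le_two_pow) (hy2 (j + 1))
    have h1 : ∀ p ∈ S j, C * ((b : ℝ) ^ (Λ * p) + (b : ℝ) ^ z j) / (b : ℝ) ^ t j ≤
        2 * C / (b : ℝ) ^ (2 * (Λ * y (j + 1))) := by
      intro p hp
      have h2 : (b : ℝ) ^ (Λ * p) ≤ (b : ℝ) ^ (Λ * y (j + 1)) :=
        pow_le_pow_right₀ hb1 (Nat.mul_le_mul_left _ (hS j p hp).2.le)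
      have h3 : (b : ℝ) ^ z j ≤ (b : ℝ) ^ (Λ * y (j + 1)) :=
        pow_le_pow_right₀ hb1 (by
          have h4 := hzy j
          have h5 := hymono j
          have h6 : y (j + 1) ≤ Λ * y (j + 1) := Nat.le_mul_of_pos_left _ hΛ
          omega)
      have h4 : (b : ℝ) ^ t j = (b : ℝ) ^ (Λ * y (j + 1)) * (b : ℝ) ^ (2 * (Λ * y (j + 1))) := by
        rw [← pow_add]
        congr 1
        simp only [ht]
        omega
      rw [h4, div_le_div_iff₀ (by positivity) (by positivity)]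
      calc C * ((b : ℝ) ^ (Λ * p) + (b : ℝ) ^ z j) * (b : ℝ) ^ (2 * (Λ * y (j + 1)))
          ≤ C * ((b : ℝ) ^ (Λ * y (j + 1)) + (b : ℝ) ^ (Λ * y (j + 1))) *
            (b : ℝ) ^ (2 * (Λ * y (j + 1))) := by gcongr
        _ = _ := by ring
    have h2 : (S j).card ≤ y (j + 1) := by
      have h3 : S j ⊆ range (y (j + 1)) := fun p hp => mem_range.2 (hS j p hp).2
      have h4 := card_le_card h3
      rwa [card_range] at h4
    have h3 : (y (j + 1) : ℝ) ≤ (b : ℝ) ^ (Λ * y (j + 1)) := by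
      have h4 : y (j + 1) ≤ b ^ (Λ * y (j + 1)) := by
        have h5 : y (j + 1) ≤ Λ * y (j + 1) := Nat.le_mul_of_pos_left _ hΛ
        exact h5.trans (Nat.lt_pow_self (by omega)).le
      exact_mod_cast h4
    have h4 : (2 : ℝ) ^ (j + 1) ≤ (b : ℝ) ^ (Λ * y (j + 1)) := by
      refine le_trans ?_ h3
      exact (hpow2 j).trans (by exact_mod_cast hymono j)
    calc ℓ j ≤ (S j).card * (2 * C / (b : ℝ) ^ (2 * (Λ * y (j + 1)))) := by
          refine (sum_le_sum h1).trans ?_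
          rw [sum_const, nsmul_eq_mul]
      _ ≤ (b : ℝ) ^ (Λ * y (j + 1)) * (2 * C / (b : ℝ) ^ (2 * (Λ * y (j + 1)))) := by
          refine mul_le_mul_of_nonneg_right ?_ (by positivity)
          exact le_trans (by exact_mod_cast h2) h3
      _ = 2 * C / (b : ℝ) ^ (Λ * y (j + 1)) := by
          have h5 : (b : ℝ) ^ (2 * (Λ * y (j + 1))) =
              (b : ℝ) ^ (Λ * y (j + 1)) * (b : ℝ) ^ (Λ * y (j + 1)) := by
            rw [← pow_add]; congr 1; omega
          rw [h5]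
          field_simp
      _ ≤ 2 * C / 2 ^ (j + 1) := div_le_div_of_nonneg_left (by positivity) (by positivity) h4
  have hℓ0 : ∀ j, 0 ≤ ℓ j := fun j => sum_nonneg fun p _ => by positivity
  have hgeo : Summable fun j : ℕ => 2 * C / (2 : ℝ) ^ (j + 1) := by
    have h1 : Summable fun j : ℕ => (2 * C / 2) * ((1 / 2 : ℝ) ^ j) :=
      (summable_geometric_of_lt_one (by norm_num) (by norm_num)).mul_left _
    refine h1.congr fun j => ?_
    rw [pow_succ, one_div, inv_pow]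
    field_simp
  have hℓs : Summable ℓ := Summable.of_nonneg_of_le hℓ0 hℓle hgeo
  -- the difference between the product and its value at the end point
  set f : ℕ → ℝ → ℝ := fun j β => |G E (S j) (θ j) β - G E (S j) (θ j) (rd b (t j) β)| with hf
  have hfm : ∀ j, Measurable (f j) := fun j =>
    ((G_measurable H.meas (S j) (θ j)).sub
      ((G_measurable H.meas (S j) (θ j)).comp (rd_measurable b (t j)))).abs
  have hf1 : ∀ j x, |f j x| ≤ 1 := by
    intro j x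
    have h1 := G_nonneg (E := E) (hθ j) (S j) x
    have h2 := G_le_one (E := E) (hθ j) (S j) x
    have h3 := G_nonneg (E := E) (hθ j) (S j) (rd b (t j) x)
    have h4 := G_le_one (E := E) (hθ j) (S j) (rd b (t j) x)
    simp only [hf]
    rw [abs_abs, abs_le]
    constructor <;> linarith
  have hfi : ∀ j, Integrable (f j) (mu b m A0 B0) := fun j => integrable_bdd (hfm j) (hf1 j)
  have hmt : ∀ j, m ≤ t j := fun j => (hmz j).trans (hzt j)
  set M := (mu b m A0 B0).real Set.univ with hM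
  have hM0 : 0 ≤ M := measureReal_nonneg
  have hfint : ∀ j, ∫ x, f j x ∂(mu b m A0 B0) ≤ M * ℓ j := by
    intro j
    have i3 : ∀ p ∈ S j, Integrable ((Ch b E p (t j)).indicator (fun _ => (1 : ℝ))) (mu b m A0 B0) :=
      fun p _ => (integrable_const _).indicator (Ch_measurable b H.meas p (t j))
    calc ∫ x, f j x ∂(mu b m A0 B0)
        ≤ ∫ x, ∑ p ∈ S j, (Ch b E p (t j)).indicator (fun _ => (1 : ℝ)) x ∂(mu b m A0 B0) :=
          integral_mono (hfi j) (integrable_finsetSum _ i3) fun x => G_rd (hθ j) (S j) (t j) x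
      _ = ∑ p ∈ S j, (mu b m A0 B0).real (Ch b E p (t j)) := by
          rw [integral_finsetSum _ i3]
          refine sum_congr rfl fun p _ => ?_
          rw [integral_indicator (Ch_measurable b H.meas p (t j)), setIntegral_const, smul_eq_mul,
            mul_one]
      _ ≤ ∑ p ∈ S j, M * (C * ((b : ℝ) ^ (Λ * p) + (b : ℝ) ^ m) / (b : ℝ) ^ t j) :=
          sum_le_sum fun p _ => H.loc m A0 B0 hAB p (t j) (hmt j)
      _ ≤ ∑ p ∈ S j, M * (C * ((b : ℝ) ^ (Λ * p) + (b : ℝ) ^ z j) / (b : ℝ) ^ t j) := by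
          refine sum_le_sum fun p _ => mul_le_mul_of_nonneg_left ?_ hM0
          refine div_le_div_of_nonneg_right ?_ (by positivity)
          refine mul_le_mul_of_nonneg_left ?_ hC
          exact add_le_add le_rfl (pow_le_pow_right₀ hb1 (hmz j))
      _ = M * ℓ j := by rw [hℓ, mul_sum]
  have hfsum := ae_summable (μ := mu b m A0 B0) (f := f) hfm (fun j x => abs_nonneg _) hfi
    (Summable.of_nonneg_of_le (fun j => integral_nonneg fun x => abs_nonneg _) hfint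
      (hℓs.mul_left M))
  -- the deviation
  set R : ℕ → ℝ → ℝ := fun j β => (b : ℝ) ^ z j *
    ∑ q ∈ S j, re b E κ c0 q (z j) (NB b β (z j)) (NB b β (z j) + 1) with hR
  have hR0 : ∀ j β, 0 ≤ R j β := fun j β =>
    mul_nonneg (by positivity) (sum_nonneg fun q _ => re_nonneg b E κ c0 q _ _ _)
  have hRm : ∀ j, Measurable (R j) := fun j =>
    (measurable_from_nat (f := fun i => (b : ℝ) ^ z j *
      ∑ q ∈ S j, re b E κ c0 q (z j) i (i + 1))).comp (NB_measurable b (z j))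
  have hRi : ∀ j, Integrable (R j) (mu b m A0 B0) := fun j =>
    integrable_mu hb (hmz j) hAB.le (fun i => (b : ℝ) ^ z j *
      ∑ q ∈ S j, re b E κ c0 q (z j) i (i + 1))
  have hV0 : 0 ≤ V := (sum_nonneg fun p _ => wt_nonneg p).trans (hV 0)
  have hlog2 : 0 < Real.log 2 := Real.log_pos (by norm_num)
  have hRint : ∀ j, ∫ β, R j β ∂(mu b m A0 B0) ≤ K * V / Real.log 2 / ((j : ℝ) + 1) := by
    intro j
    have h1 : ∫ β, R j β ∂(mu b m A0 B0) = ∑ q ∈ S j, re b E κ c0 q m A0 B0 := by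
      have h2 := int_mu (m := m) (t := z j) (A0 := A0) (B0 := B0) hb (hmz j) hAB.le
        (fun i => (b : ℝ) ^ z j * ∑ q ∈ S j, re b E κ c0 q (z j) i (i + 1))
      have h3 : ∫ β, R j β ∂(mu b m A0 B0) = ∫ β, (fun i => (b : ℝ) ^ z j *
        ∑ q ∈ S j, re b E κ c0 q (z j) i (i + 1)) (NB b β (z j)) ∂(mu b m A0 B0) := rfl
      rw [h3, h2, ← mul_sum, mul_div_cancel_left₀ _ (by positivity), sum_comm]
      refine sum_congr rfl fun q hq => ?_
      refine re_sum hb hAB.le (hmz j) ?_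
      have h4 := hz0 j
      have h5 := zl_mono hc0.le (hS j q hq).1
      omega
    rw [h1]
    have h2 : ∀ q ∈ S j, re b E κ c0 q m A0 B0 ≤ K / Real.log 2 / ((j : ℝ) + 1) * wt q := by
      intro q hq
      have hq1 := (hS j q hq).1
      have hq2 : 2 ^ (j + 1) ≤ q := (hy2 j).trans hq1
      have hq0 : (0 : ℝ) < q := by
        have : 0 < 2 ^ (j + 1) := by positivity
        exact_mod_cast lt_of_lt_of_le this hq2
      refine (hrr q ((hymono' (Nat.zero_le j)).trans hq1)).trans ?_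
      have h3 : ((j : ℝ) + 1) * Real.log 2 ≤ Real.log q := by
        have h4 : ((2 ^ (j + 1) : ℕ) : ℝ) ≤ q := by exact_mod_cast hq2
        have h5 := Real.log_le_log (by positivity) h4
        push_cast at h5
        rw [Real.log_pow] at h5
        push_cast at h5
        exact h5
      have h4 : 1 ≤ Real.log q / (((j : ℝ) + 1) * Real.log 2) := by
        rw [one_le_div (by positivity)]
        exact h3
      calc K / (q : ℝ) = K / q * 1 := (mul_one _).symm
        _ ≤ K / q * (Real.log q / (((j : ℝ) + 1) * Real.log 2)) :=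
          mul_le_mul_of_nonneg_left h4 (by positivity)
        _ = K / Real.log 2 / ((j : ℝ) + 1) * wt q := by
          unfold wt
          field_simp
    refine (sum_le_sum h2).trans ?_
    rw [← mul_sum]
    calc K / Real.log 2 / ((j : ℝ) + 1) * ∑ i ∈ S j, wt i
        ≤ K / Real.log 2 / ((j : ℝ) + 1) * V := mul_le_mul_of_nonneg_left (hV j) (by positivity)
      _ = _ := by ring
  have hsum := ae_summable (μ := mu b m A0 B0) (f := fun j β => R j β / ((j : ℝ) + 1))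
    (fun j => (hRm j).div_const _) (fun j β => div_nonneg (hR0 j β) (by positivity))
    (fun j => (hRi j).div_const _)
    (by
      have hs : Summable fun j : ℕ => K * V / Real.log 2 * (1 / ((j + 1 : ℕ) : ℝ) ^ 2) :=
        ((summable_nat_add_iff 1).2
          (Real.summable_one_div_nat_pow.2 (show 1 < 2 by norm_num))).mul_left _
      refine Summable.of_nonneg_of_le (fun j => integral_nonneg fun β =>
        div_nonneg (hR0 j β) (by positivity)) (fun j => ?_) hs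
      rw [integral_div]
      have h1 := hRint j
      have hj : (0 : ℝ) < (j : ℝ) + 1 := by positivity
      rw [div_le_iff₀ hj]
      refine h1.trans (le_of_eq ?_)
      push_cast
      field_simp)
  -- the conditional means
  have hdev : ∀ j, ∀ i ∈ Ico (A0 * b ^ (z j - m)) (B0 * b ^ (z j - m)),
      |av b (z j) (t j) (g j) i - e j| ≤
        (b : ℝ) ^ z j * ∑ q ∈ S j, re b E κ c0 q (z j) i (i + 1) + (errd C 0 κ m1 (S j) + ℓ j) := by
    intro j i hi
    rw [mem_Ico] at hi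
    have hi1 : 1 ≤ i := by
      have : 1 ≤ A0 * b ^ (z j - m) := Nat.mul_pos hA0 (by positivity)
      omega
    have hi2 : i + 1 ≤ b ^ (2 * z j) := by
      have h1 : B0 * b ^ (z j - m) ≤ b ^ (2 * z j) := by
        refine (Nat.mul_le_mul_right _ hB0).trans ?_
        rw [← pow_add]
        have := hmz j
        refine Nat.pow_le_pow_right (by omega) ?_
        have h2 : m ≤ z j := hmz j
        omega
      omega
    rw [← add_assoc]
    exact dev H hre (hyP j) (hyQ j) (fun q hq => hyy q ((hymono' (Nat.zero_le j)).trans hq))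
      (fun q hq => hy1 q ((hymono' (Nat.zero_le j)).trans hq)) (fun p hp => (hS j p hp).1) (hzA j)
      (hz0 j) (hzt j) (hθ j) hi1 hi2
  have hNBmem : ∀ j, ∀ᵐ β ∂(mu b m A0 B0), NB b β (z j) ∈
      Ico (A0 * b ^ (z j - m)) (B0 * b ^ (z j - m)) := by
    intro j
    unfold mu
    filter_upwards [ae_restrict_mem measurableSet_Ioc] with β hβ
    rw [scale hb (hmz j) A0, scale hb (hmz j) B0] at hβ
    have hbz : (0 : ℝ) < (b : ℝ) ^ z j := by positivity
    have hβ0 : 0 < β := lt_of_le_of_lt (by positivity) hβ.1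
    obtain ⟨h3, h4⟩ := NB_spec hb hβ0 (z j)
    obtain ⟨h5, h6⟩ := hβ
    rw [div_lt_iff₀ hbz] at h5
    rw [le_div_iff₀ hbz] at h6
    have h7 : ((A0 * b ^ (z j - m) : ℕ) : ℝ) < ((NB b β (z j) + 1 : ℕ) : ℝ) := by
      push_cast at h5 ⊢
      linarith
    have h8 : ((NB b β (z j) : ℕ) : ℝ) < ((B0 * b ^ (z j - m) : ℕ) : ℝ) := by
      push_cast at h6 ⊢
      linarith
    have h9 : A0 * b ^ (z j - m) < NB b β (z j) + 1 := by exact_mod_cast h7
    have h10 : NB b β (z j) < B0 * b ^ (z j - m) := by exact_mod_cast h8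
    rw [mem_Ico]
    omega
  have hNBall := ae_all_iff.2 hNBmem
  filter_upwards [hslln, hsum, hNBall, hfsum] with β h1 h2 h3 h4
  have h5 := kron (R := fun j => R j β) (fun j => hR0 j β) h2
  have h6 := (herr.add hℓs.tendsto_atTop_zero).cesaro
  rw [add_zero] at h6
  have h7 := hL.cesaro
  have h8 : Tendsto (fun J : ℕ => (∑ j ∈ range J, (av b (z j) (t j) (g j) (NB b β (z j)) - e j)) /
      (J : ℝ)) atTop (𝓝 0) := by
    have h9 := h5.add h6
    rw [add_zero] at h9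
    refine squeeze_zero_norm (fun J => ?_) h9
    rw [Real.norm_eq_abs, abs_div, Nat.abs_cast, ← div_eq_inv_mul, ← add_div, ← sum_add_distrib]
    refine div_le_div_of_nonneg_right ?_ (Nat.cast_nonneg J)
    exact (abs_sum_le_sum_abs _ _).trans (sum_le_sum fun j _ => hdev j _ (h3 j))
  have h10 : Tendsto (fun J : ℕ => (∑ j ∈ range J, (G E (S j) (θ j) β -
      G E (S j) (θ j) (rd b (t j) β))) / (J : ℝ)) atTop (𝓝 0) := by
    have h11 := h4.tendsto_atTop_zero.cesaro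
    refine squeeze_zero_norm (fun J => ?_) h11
    rw [Real.norm_eq_abs, abs_div, Nat.abs_cast, ← div_eq_inv_mul]
    refine div_le_div_of_nonneg_right ?_ (Nat.cast_nonneg J)
    exact abs_sum_le_sum_abs _ _
  have h9 := ((h1.add h8).add h7).add h10
  rw [zero_add, zero_add, add_zero] at h9
  refine h9.congr fun J => ?_
  rw [← div_eq_inv_mul, ← add_div, ← add_div, ← add_div, ← sum_add_distrib, ← sum_add_distrib,
    ← sum_add_distrib]
  congr 1
  refine sum_congr rfl fun j _ => ?_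
  have h12 : g j (NB b β (t j)) = G E (S j) (θ j) (rd b (t j) β) := rfl
  simp only [hX]
  rw [h12]
  ring

end Pool.Agent.U776.PG
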