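import Mathlib
import Pool.Agent.U776.PG.A2

set_option autoImplicit false

/-!
# The quenched law: asymptotic hypotheses
-/

namespace Pool.Agent.U776.PG

open MeasureTheory Finset Filter Topology
open Pool.Agent.N176.GP (NB NB_spec NB_div sum_cells)
open Pool.Agent.U776.PL

theorem quen_gen {b : ℕ} {E : ℕ → Set ℝ} {κ : ℝ} {Λ A P : ℕ} {C c0 : ℝ}
    (H : QM b E κ Λ A P C c0)
    {m A0 B0 : ℕ} (hA0 : 1 ≤ A0) (hAB : A0 < B0) (hB0 : B0 ≤ b ^ (2 * m))
    (S : ℕ → Finset ℕ) (θ : ℕ → ℕ → ℝ) (hθ : ∀ j p, 0 ≤ θ j p ∧ θ j p ≤ 1) (y : ℕ → ℕ)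
    (hS : ∀ j, ∀ p ∈ S j, y j ≤ p ∧ p < y (j + 1))
    {V : ℝ} (hV : ∀ᶠ j in atTop, ∑ p ∈ S j, wt p ≤ V)
    (hthin : ∀ δ : ℝ, 0 < δ → ∀ᶠ j in atTop, ∀ x : ℕ,
      ∑ p ∈ (S j).filter (fun p => x < p ∧ p ≤ 2 * x), wt p ≤ δ)
    {v0 : ℝ} (hv0 : 0 < v0) (hlow : ∀ᶠ j in atTop, v0 ≤ ∑ p ∈ S j, wt p) {L : ℝ}
    (hL : Tendsto (fun j => Real.exp (-(κ * ∑ p ∈ S j, (1 - θ j p) * wt p))) atTop (𝓝 L)) :
    ∀ᵐ β ∂(mu b m A0 B0),
      Tendsto (fun J : ℕ => (∑ j ∈ range J, G E (S j) (θ j) β) / (J : ℝ)) atTop (𝓝 L) := by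
  classical
  have hb := H.hb
  have hA := H.hA
  have hΛ := H.hΛ
  have hC := H.hC
  have hc0 := H.hc0
  have hb0 : (0 : ℝ) < b := by positivity
  have hA' : (1 : ℝ) ≤ A := by exact_mod_cast hA
  have hΛ' : (1 : ℝ) ≤ Λ := by exact_mod_cast hΛ
  obtain ⟨Q1, hre⟩ := mix_re H
  obtain ⟨K0, hK0, Q, hQ⟩ := H.mix m A0 B0 hA0 hAB hB0
  set M := (mu b m A0 B0).real Set.univ with hM
  have hM0 : 0 ≤ M := measureReal_nonneg
  obtain ⟨m1, P1, hyy⟩ := yy_small (c := c0 / (4 * Λ)) (by positivity)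
  obtain ⟨m2, P2, hyy2⟩ := yy_small (c := c0 / (12 * Λ)) (by positivity)
  have hc01 : c0 ≤ 1 := by
    have := H.hcA
    nlinarith
  have hkw : Tendsto (fun p => κ * wt p) atTop (𝓝 0) := by
    simpa using wt_tendsto.const_mul κ
  obtain ⟨P3, hP3⟩ := (hkw.eventually_lt_const one_pos).exists_forall_of_atTop
  obtain ⟨P4, hP4⟩ := ((tendsto_natCast_atTop_atTop (R := ℝ)).eventually_ge_atTop
    (4 / c0)).exists_forall_of_atTop
  -- `y` tends to infinity
  have hyinc : ∀ᶠ j in atTop, y j < y (j + 1) := by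
    filter_upwards [hlow] with j hj
    have hne : (S j).Nonempty := by
      rw [Finset.nonempty_iff_ne_empty]
      intro h
      rw [h, sum_empty] at hj
      linarith
    obtain ⟨p, hp⟩ := hne
    have := hS j p hp
    omega
  have hytop : Tendsto y atTop atTop := y_top hS hv0 hlow
  -- the blocks are long
  have hyz : ∀ᶠ j in atTop, 3 * (Λ * y (j + 1)) ≤ zl (c0 / 2) (y (j + 2)) ∧
      2 * y (j + 1) ≤ y (j + 2) := by
    have h1 := (tendsto_add_atTop_nat 1).eventually hlow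
    have h2 := (tendsto_add_atTop_nat 1).eventually (hthin (v0 / (2 * (m2 + 1))) (by positivity))
    have h3 := (tendsto_add_atTop_nat 2).eventually (hytop.eventually_ge_atTop (P2 + P4))
    filter_upwards [h1, h2, h3] with j hj1 hj2 hj3
    have h4 := hyy2 (y (j + 2)) (by omega)
    have h5 : y (j + 1) ≤ yy (y (j + 2)) m2 := by
      by_contra hcon
      have h6 := block_sum hj2 (y (j + 2)) m2
      have h7 : (S (j + 1)).filter (fun p => yy (y (j + 2)) m2 < p ∧ p ≤ y (j + 2)) = S (j + 1) := by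
        rw [Finset.filter_eq_self]
        intro p hp
        have h8 := hS (j + 1) p hp
        have h9 : y (j + 1 + 1) = y (j + 2) := rfl
        omega
      rw [h7] at h6
      have h8 : (m2 : ℝ) * (v0 / (2 * (m2 + 1))) < v0 := by
        have h9 : (m2 : ℝ) * (v0 / (2 * (m2 + 1))) = v0 / 2 * (m2 / (m2 + 1)) := by
          field_simp
        have h10 : (m2 : ℝ) / (m2 + 1) ≤ 1 := by
          rw [div_le_one (by positivity)]
          linarith
        rw [h9]
        nlinarith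
      linarith
    have h6 : (y (j + 1) : ℝ) ≤ c0 / (12 * Λ) * y (j + 2) :=
      le_trans (by exact_mod_cast h5) h4
    have h7 : (3 : ℝ) * (Λ * y (j + 1)) ≤ c0 / 4 * y (j + 2) := by
      calc (3 : ℝ) * (Λ * y (j + 1)) ≤ 3 * (Λ * (c0 / (12 * Λ) * y (j + 2))) := by gcongr
        _ = c0 / 4 * y (j + 2) := by field_simp; ring
    constructor
    · refine Nat.le_floor ?_
      push_cast
      have := Nat.cast_nonneg (α := ℝ) (y (j + 2))
      nlinarith
    · have h8 : (2 : ℝ) * y (j + 1) ≤ y (j + 2) := by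
        have h9 := Nat.cast_nonneg (α := ℝ) (y (j + 2))
        have h10 := Nat.cast_nonneg (α := ℝ) (y (j + 1))
        nlinarith
      exact_mod_cast h8
  have hmz : ∀ᶠ j in atTop, m ≤ zl (c0 / 2) (y j) := by
    have h1 : Tendsto (fun j => c0 / 2 * (y j : ℝ)) atTop atTop :=
      (tendsto_natCast_atTop_atTop.comp hytop).const_mul_atTop (by positivity)
    filter_upwards [h1.eventually_ge_atTop (m : ℝ)] with j hj
    exact Nat.le_floor hj
  have hbig := hytop.eventually_ge_atTop (P + Q1 + 2 * A + P1 + P3 + P4 + Q + 2)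
  obtain ⟨J0, hJ0⟩ := eventually_atTop.1 (hyinc.and (hyz.and (hmz.and (hbig.and hV))))
  have hkey : ∀ j, y (j + J0) < y (j + 1 + J0) ∧
      (3 * (Λ * y (j + 1 + J0)) ≤ zl (c0 / 2) (y (j + 2 + J0)) ∧
        2 * y (j + 1 + J0) ≤ y (j + 2 + J0)) ∧
      m ≤ zl (c0 / 2) (y (j + J0)) ∧ P + Q1 + 2 * A + P1 + P3 + P4 + Q + 2 ≤ y (j + J0) ∧
      ∑ p ∈ S (j + J0), wt p ≤ V := by
    intro j
    obtain ⟨h1, h2, h3, h4, h5⟩ := hJ0 (j + J0) (by omega)
    rw [show j + J0 + 1 = j + 1 + J0 by omega] at h1 h2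
    rw [show j + J0 + 2 = j + 2 + J0 by omega] at h2
    exact ⟨h1, h2, h3, h4, h5⟩
  have hdouble : ∀ j, 2 ^ (j + 1) ≤ y (j + J0) := by
    intro j
    induction j with
    | zero =>
      have := (hkey 0).2.2.2.1
      simp only [zero_add, pow_one] at this ⊢
      omega
    | succ j ih =>
      rcases Nat.eq_zero_or_pos j with h | h
      · subst h
        have h2 := (hkey 1).2.2.2.1
        simp only [zero_add] at h2 ⊢
        norm_num
        omega
      · obtain ⟨i, rfl⟩ : ∃ i, j = i + 1 := ⟨j - 1, by omega⟩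
        have h3 : i + 1 + 1 + J0 = i + 2 + J0 := by omega
        rw [h3]
        calc 2 ^ (i + 1 + 1 + 1) = 2 * 2 ^ (i + 1 + 1) := by ring
          _ ≤ 2 * y (i + 1 + J0) := Nat.mul_le_mul_left 2 ih
          _ ≤ y (i + 2 + J0) := (hkey i).2.1.2
  have herr : Tendsto (fun j => errd C 0 κ m1 (S j)) atTop (𝓝 0) := by
    rw [Metric.tendsto_atTop]
    intro ε hε
    have hV0 : 0 ≤ max V 0 := le_max_right _ _
    obtain ⟨δ, hδ, P0, hP0⟩ := errd_small0 (C := C) (κ := κ) H.hκ.le hC m1 hV0 (half_pos hε)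
    obtain ⟨N, hN⟩ := eventually_atTop.1 ((hytop.eventually_ge_atTop P0).and
      ((hthin δ hδ).and hV))
    refine ⟨N, fun j hj => ?_⟩
    obtain ⟨h1, h3, h4⟩ := hN j hj
    have h5 := (hP0 (S j) (fun p hp => h1.trans (hS j p hp).1) h3 (h4.trans (le_max_left _ _))).1
    rw [Real.dist_eq, sub_zero, abs_of_nonneg (errd_nonneg0 H.hκ.le hC _ _)]
    linarith
  have hlast := quen_good H hre (m1 := m1) hA0 hAB hB0 (K := K0 + M + 1) (by positivity)
    (fun j => S (j + J0))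
    (fun j => θ (j + J0)) (fun j => hθ (j + J0)) (fun j => y (j + J0))
    (fun j p hp => by
      have h1 := hS (j + J0) p hp
      rw [show j + J0 + 1 = j + 1 + J0 by omega] at h1
      exact h1)
    (fun j => (hkey j).1.le) (fun j => (hkey j).2.1.1)
    (fun j => by have := (hkey j).2.2.2.1; omega) (fun j => by have := (hkey j).2.2.2.1; omega)
    (fun j => by have := (hkey j).2.2.2.1; omega)
    hdouble
    (fun q hq => by
      have h0 := (hkey 0).2.2.2.1
      simp only [zero_add] at h0 hq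
      have h1 := hyy q (by omega)
      have h2 := hP4 q (by omega)
      rw [div_le_iff₀ hc0] at h2
      have h3 : (2 : ℝ) * (Λ * (yy q m1 : ℕ)) ≤ c0 / 2 * q := by
        calc (2 : ℝ) * (Λ * (yy q m1 : ℕ)) ≤ 2 * (Λ * (c0 / (4 * Λ) * q)) := by gcongr
          _ = c0 / 2 * q := by field_simp; ring
      refine Nat.le_floor ?_
      push_cast
      have := Nat.cast_nonneg (α := ℝ) q
      nlinarith)
    (fun q hq => (hP3 q (by have := (hkey 0).2.2.2.1; simp only [zero_add] at this hq; omega)).le)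
    (fun q hq => by
      have h0 := (hkey 0).2.2.2.1
      simp only [zero_add] at h0 hq
      have h1 := hQ q (by omega)
      have hq1 : (1 : ℝ) ≤ q := by exact_mod_cast (by omega : 1 ≤ q)
      unfold re
      have h2 : 1 / (q : ℝ) ^ 2 ≤ 1 / q := by
        refine one_div_le_one_div_of_le (by linarith) ?_
        nlinarith
      calc _ ≤ K0 / q + M * (1 / q) := add_le_add h1 (mul_le_mul_of_nonneg_left h2 hM0)
        _ = (K0 + M) / q := by ring
        _ ≤ (K0 + M + 1) / q := by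
          refine div_le_div_of_nonneg_right (by linarith) (by linarith))
    (fun j => (hkey j).2.2.1) (V := V) (fun j => (hkey j).2.2.2.2)
    (herr.comp (tendsto_add_atTop_nat J0)) (hL.comp (tendsto_add_atTop_nat J0))
  filter_upwards [hlast] with β hβ
  exact avg_shift (a := fun j => G E (S j) (θ j) β) J0 hβ

section

variable {ι : Type*} [Fintype ι] [DecidableEq ι]

/-- the union of thin sets is thin -/
lemma union_small0 {T : ℕ → ι → Finset ℕ} (hdisj : ∀ n i j, i ≠ j → Disjoint (T n i) (T n j))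
    (hthin : ∀ δ : ℝ, 0 < δ → ∀ᶠ n in atTop, ∀ i, ∀ x : ℕ,
      ∑ p ∈ (T n i).filter (fun p => x < p ∧ p ≤ 2 * x), wt p ≤ δ)
    {κ : ℝ} (hκ : 0 < κ) {lam : ι → ℝ}
    (hlam : ∀ i, Tendsto (fun n => κ * ∑ p ∈ T n i, wt p) atTop (𝓝 (lam i))) :
    0 ≤ ∑ i, (lam i / κ + 1) ∧ (∀ᶠ n in atTop, ∑ p ∈ Finset.univ.biUnion (T n), wt p ≤
      ∑ i, (lam i / κ + 1)) ∧
    (∀ δ : ℝ, 0 < δ → ∀ᶠ n in atTop, ∀ x : ℕ,
      ∑ p ∈ (Finset.univ.biUnion (T n)).filter (fun p => x < p ∧ p ≤ 2 * x), wt p ≤ δ) := by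
  classical
  have hlam0 : ∀ i, 0 ≤ lam i := fun i =>
    ge_of_tendsto' (hlam i) fun n => mul_nonneg hκ.le (Finset.sum_nonneg fun p _ => wt_nonneg p)
  have hcard : (0 : ℝ) < Fintype.card ι + 1 := by positivity
  have hdist : ∀ δ : ℝ, 0 < δ → ∑ _i : ι, δ / (Fintype.card ι + 1) ≤ δ := by
    intro δ hδ
    calc _ = δ * (Fintype.card ι / (Fintype.card ι + 1)) := by
          rw [Finset.sum_const, Finset.card_univ, nsmul_eq_mul]; ring
      _ ≤ δ * 1 := by
          gcongr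
          rw [div_le_one hcard]; linarith
      _ = δ := mul_one _
  refine ⟨Finset.sum_nonneg fun i _ => by have := hlam0 i; positivity, ?_, ?_⟩
  · have h1 : ∀ᶠ n in atTop, ∀ i, κ * ∑ p ∈ T n i, wt p ≤ lam i + κ := by
      rw [eventually_all]
      intro i
      exact ((hlam i).eventually_lt_const (show lam i < lam i + κ by linarith)).mono fun n h => h.le
    filter_upwards [h1] with n hn
    rw [Finset.sum_biUnion (fun i _ j _ hij => hdisj n i j hij)]
    refine Finset.sum_le_sum fun i _ => ?_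
    have := hn i
    have e : lam i / κ + 1 = (lam i + κ) / κ := by field_simp
    rw [e, le_div_iff₀ hκ]
    linarith
  · intro δ hδ
    filter_upwards [hthin (δ / (Fintype.card ι + 1)) (by positivity)] with n hn x
    rw [Finset.filter_biUnion, Finset.sum_biUnion (fun i _ j _ hij =>
      Finset.disjoint_filter_filter (hdisj n i j hij))]
    exact (Finset.sum_le_sum fun i _ => hn i x).trans (hdist δ hδ)

end

open Classical in
/-- **Quenched law**, one window of amplitudes. -/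
theorem quenched_mu {b : ℕ} {E : ℕ → Set ℝ} {κ : ℝ} {Λ A P : ℕ} {C c0 : ℝ}
    (H : QM b E κ Λ A P C c0)
    {m A0 B0 : ℕ} (hA0 : 1 ≤ A0) (hAB : A0 < B0) (hB0 : B0 ≤ b ^ (2 * m))
    {ι : Type*} [Fintype ι] (T : ℕ → ι → Finset ℕ) (y : ℕ → ℕ)
    (hy : ∀ j i, ∀ p ∈ T j i, y j ≤ p ∧ p < y (j + 1))
    (hdisj : ∀ n i j, i ≠ j → Disjoint (T n i) (T n j))
    (hthin : ∀ δ : ℝ, 0 < δ → ∀ᶠ n in atTop, ∀ i, ∀ x : ℕ,
      ∑ p ∈ (T n i).filter (fun p => x < p ∧ p ≤ 2 * x), wt p ≤ δ)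
    {lam : ι → ℝ} (hlam : ∀ i, Tendsto (fun n => κ * ∑ p ∈ T n i, wt p) atTop (𝓝 (lam i)))
    (hpos : 0 < ∑ i, lam i) :
    ∀ᵐ β ∂(mu b m A0 B0), ∀ k : ι → ℕ,
      Tendsto (fun J : ℕ => (((range J).filter
        (fun j => ∀ i, NE E (T j i) β = k i)).card : ℝ) / (J : ℝ)) atTop
        (𝓝 (∏ i, pois (lam i) (k i))) := by
  have hκ := H.hκ
  have hlam0 : ∀ i, 0 ≤ lam i := fun i =>
    ge_of_tendsto' (hlam i) fun n => mul_nonneg hκ.le (Finset.sum_nonneg fun p _ => wt_nonneg p)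
  have hSy : ∀ j, ∀ p ∈ Finset.univ.biUnion (T j), y j ≤ p ∧ p < y (j + 1) := by
    intro j p hp
    rw [mem_biUnion] at hp
    obtain ⟨i, _, hi⟩ := hp
    exact hy j i p hi
  have hsumT : Tendsto (fun n => ∑ p ∈ Finset.univ.biUnion (T n), wt p) atTop
      (𝓝 ((∑ i, lam i) / κ)) := by
    have h1 : Tendsto (fun n => (∑ i, κ * ∑ p ∈ T n i, wt p) / κ) atTop
        (𝓝 ((∑ i, lam i) / κ)) :=
      (tendsto_finsetSum _ fun i _ => hlam i).div_const _
    refine h1.congr fun n => ?_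
    rw [← mul_sum, mul_div_cancel_left₀ _ hκ.ne',
      Finset.sum_biUnion (fun i _ j _ hij => hdisj n i j hij)]
  have hlpos : 0 < (∑ i, lam i) / κ := by positivity
  have hlow : ∀ᶠ j in atTop, (∑ i, lam i) / κ / 2 ≤ ∑ p ∈ Finset.univ.biUnion (T j), wt p := by
    filter_upwards [hsumT.eventually (lt_mem_nhds (half_lt_self hlpos))] with n hn
    exact hn.le
  obtain ⟨hV0, hsumV, hth⟩ := union_small0 hdisj hthin hκ hlam
  have ht : ∀ (r : ι → ℕ) (i : ι), 0 ≤ 1 / ((r i : ℝ) + 1) ∧ 1 / ((r i : ℝ) + 1) ≤ 1 := by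
    intro r i
    have := Nat.cast_nonneg (α := ℝ) (r i)
    refine ⟨by positivity, ?_⟩
    rw [div_le_one (by positivity)]
    linarith
  have hgen : ∀ r : ι → ℕ, ∀ᵐ β ∂(mu b m A0 B0),
      Tendsto (fun J : ℕ => (∑ j ∈ range J, ∏ i, (1 / ((r i : ℝ) + 1)) ^ NE E (T j i) β) /
        (J : ℝ)) atTop (𝓝 (∏ i, Real.exp (-(lam i * (1 - 1 / ((r i : ℝ) + 1)))))) := by
    intro r
    have h1 := quen_gen H (m := m) hA0 hAB hB0 (fun j => Finset.univ.biUnion (T j))
      (fun j p => ∏ i, if p ∈ T j i then 1 / ((r i : ℝ) + 1) else 1)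
      (fun j p => theta_01 (T j) (fun i => 1 / ((r i : ℝ) + 1)) (ht r) p) y hSy hsumV hth
      (half_pos hlpos) hlow (exp_tendsto hdisj hlam fun i => 1 / ((r i : ℝ) + 1))
    filter_upwards [h1] with β hβ
    refine hβ.congr fun J => ?_
    congr 1
    refine sum_congr rfl fun j _ => ?_
    exact G_union (T j) (hdisj j) (fun i => 1 / ((r i : ℝ) + 1)) β
  filter_upwards [ae_all_iff.2 hgen] with β hβ k
  have h2 := joint_of_gen (μ := emp) (M := 1) emp_univ
    (N := fun _ i j => NE E (T j i) β) (fun _ i => measurable_of_countable _)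
    (A := 1) zero_le_one hlam0 (fun r => by
      simp only [emp_int, one_mul]
      exact hβ r) k
  rw [one_mul] at h2
  refine h2.congr fun J => ?_
  rw [emp_real]
  rfl

open Classical in
/-- **Quenched law.** -/
theorem quenched {b : ℕ} {E : ℕ → Set ℝ} {κ : ℝ} {Λ A P : ℕ} {C c0 : ℝ}
    (H : QM b E κ Λ A P C c0)
    {ι : Type*} [Fintype ι] (T : ℕ → ι → Finset ℕ) (y : ℕ → ℕ)
    (hy : ∀ j i, ∀ p ∈ T j i, y j ≤ p ∧ p < y (j + 1))
    (hdisj : ∀ n i j, i ≠ j → Disjoint (T n i) (T n j))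
    (hthin : ∀ δ : ℝ, 0 < δ → ∀ᶠ n in atTop, ∀ i, ∀ x : ℕ,
      ∑ p ∈ (T n i).filter (fun p => x < p ∧ p ≤ 2 * x), wt p ≤ δ)
    {lam : ι → ℝ} (hlam : ∀ i, Tendsto (fun n => κ * ∑ p ∈ T n i, wt p) atTop (𝓝 (lam i)))
    (hpos : 0 < ∑ i, lam i) :
    ∀ᵐ β : ℝ, 0 < β → ∀ k : ι → ℕ,
      Tendsto (fun J : ℕ => (((range J).filter
        (fun j => ∀ i, NE E (T j i) β = k i)).card : ℝ) / (J : ℝ)) atTop
        (𝓝 (∏ i, pois (lam i) (k i))) := by
  have hb := H.hb
  have hb1 : (1 : ℝ) < b := by exact_mod_cast (by omega : 1 < b)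
  have h1 : ∀ m : ℕ, ∀ᵐ β : ℝ, β ∈ Set.Ioc ((1 : ℕ) / (b : ℝ) ^ (m + 1))
      (((b ^ (2 * (m + 1)) : ℕ) : ℝ) / (b : ℝ) ^ (m + 1)) → ∀ k : ι → ℕ,
      Tendsto (fun J : ℕ => (((range J).filter
        (fun j => ∀ i, NE E (T j i) β = k i)).card : ℝ) / (J : ℝ)) atTop
        (𝓝 (∏ i, pois (lam i) (k i))) := by
    intro m
    have h2 := quenched_mu H (m := m + 1) (A0 := 1) (B0 := b ^ (2 * (m + 1))) le_rfl
      (Nat.one_lt_pow (by omega) (by omega)) le_rfl T y hy hdisj hthin hlam hpos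
    unfold mu at h2
    rw [ae_restrict_iff' measurableSet_Ioc] at h2
    exact h2
  filter_upwards [ae_all_iff.2 h1] with β hβ hβ0
  have hlim := tendsto_pow_atTop_atTop_of_one_lt hb1
  obtain ⟨m, hm1, hm2⟩ := ((hlim.eventually_gt_atTop (1 / β)).and
    (hlim.eventually_ge_atTop β)).exists
  have hm3 : (b : ℝ) ^ m ≤ (b : ℝ) ^ (m + 1) := pow_le_pow_right₀ hb1.le (Nat.le_succ m)
  refine hβ m ⟨?_, ?_⟩
  · rw [div_lt_iff₀ (by positivity)]
    rw [div_lt_iff₀ hβ0] at hm1
    push_cast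
    nlinarith
  · rw [le_div_iff₀ (by positivity)]
    push_cast
    have h2 : (b : ℝ) ^ (2 * (m + 1)) = (b : ℝ) ^ (m + 1) * (b : ℝ) ^ (m + 1) := by
      rw [← pow_add]; congr 1; omega
    rw [h2]
    have : (0 : ℝ) ≤ (b : ℝ) ^ (m + 1) := by positivity
    nlinarith

open Classical in
/-- **Quenched law** for the tuples of consecutive blocks. -/
theorem quenched_tuples {b : ℕ} {E : ℕ → Set ℝ} {κ : ℝ} {Λ A P : ℕ} {C c0 : ℝ}
    (H : QM b E κ Λ A P C c0) {ι : Type*} [Fintype ι]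
    (T : ℕ → ι → Finset ℕ) (y : ℕ → ℕ) (hmono : Monotone y)
    (hy : ∀ j i, ∀ p ∈ T j i, y j ≤ p ∧ p < y (j + 1))
    (hdisj : ∀ n i j, i ≠ j → Disjoint (T n i) (T n j))
    (hthin : ∀ δ : ℝ, 0 < δ → ∀ᶠ n in atTop, ∀ i, ∀ x : ℕ,
      ∑ p ∈ (T n i).filter (fun p => x < p ∧ p ≤ 2 * x), wt p ≤ δ)
    {v : ι → ℝ} (hv : ∀ i, Tendsto (fun n => ∑ p ∈ T n i, wt p) atTop (𝓝 (v i)))
    (hpos : 0 < ∑ i, v i) :
    ∀ᵐ β : ℝ, 0 < β → ∀ (r : ℕ) (k : Fin r → ι → ℕ),
      Tendsto (fun J : ℕ => (((range J).filter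
        (fun j => ∀ (l : Fin r) (i : ι), NE E (T (j + l) i) β = k l i)).card : ℝ) / (J : ℝ)) atTop
        (𝓝 (∏ l, ∏ i, pois (κ * v i) (k l i))) := by
  have hκ := H.hκ
  have key : ∀ r : ℕ, ∀ s : ℕ, ∀ᵐ β : ℝ, 1 ≤ r → 0 < β → ∀ k : Fin r × ι → ℕ,
      Tendsto (fun J : ℕ => (((range J).filter
        (fun j => ∀ x : Fin r × ι, NE E (T (r * j + s + x.1) x.2) β = k x)).card : ℝ) / (J : ℝ))
        atTop (𝓝 (∏ x : Fin r × ι, pois (κ * v x.2) (k x))) := by
    intro r s
    by_cases hr : 1 ≤ r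
    · have hlim : ∀ l : ℕ, Tendsto (fun j : ℕ => r * j + s + l) atTop atTop := by
        intro l
        refine tendsto_atTop.2 fun M => ?_
        filter_upwards [eventually_ge_atTop M] with j hj
        nlinarith
      have h := quenched H (fun j (x : Fin r × ι) => T (r * j + s + x.1) x.2) (fun j => y (r * j + s))
        (fun j x p hp => by
          have h1 := hy _ _ p hp
          have h2 : y (r * j + s) ≤ y (r * j + s + x.1) := hmono (by omega)
          have h3 : y (r * j + s + x.1 + 1) ≤ y (r * (j + 1) + s) := hmono (by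
            have := x.1.2
            nlinarith)
          omega)
        (fun n x x' hxx => by
          by_cases h1 : x.1 = x'.1
          · rw [h1]
            refine hdisj _ _ _ fun h2 => hxx (Prod.ext h1 h2)
          · rw [Finset.disjoint_left]
            intro p hp hp'
            have h2 := hy _ _ p hp
            have h3 := hy _ _ p hp'
            have h4 : (x.1 : ℕ) ≠ x'.1 := fun h5 => h1 (Fin.ext h5)
            rcases lt_or_gt_of_ne h4 with h5 | h5
            · have h6 : y (r * n + s + x.1 + 1) ≤ y (r * n + s + x'.1) := hmono (by omega)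
              omega
            · have h6 : y (r * n + s + x'.1 + 1) ≤ y (r * n + s + x.1) := hmono (by omega)
              omega)
        (fun δ hδ => by
          rw [eventually_all]
          intro x
          filter_upwards [(hlim x.1).eventually (hthin δ hδ)] with j hj
          exact hj x.2)
        (lam := fun x => κ * v x.2)
        (fun x => ((hv x.2).comp (hlim x.1)).const_mul κ)
        (by
          rw [← Finset.mul_sum, Fintype.sum_prod_type]
          simp only [Finset.sum_const, Finset.card_univ, Fintype.card_fin, nsmul_eq_mul]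
          have : (0 : ℝ) < r := by exact_mod_cast hr
          positivity)
      filter_upwards [h] with β hβ _ h0 k
      exact hβ h0 k
    · exact Eventually.of_forall fun β h => absurd h hr
  filter_upwards [ae_all_iff.2 fun r => ae_all_iff.2 (key r)] with β hβ h0 r k
  rcases Nat.eq_zero_or_pos r with hr | hr
  · subst hr
    have h1 : Tendsto (fun J : ℕ => (1 : ℝ)) atTop (𝓝 1) := tendsto_const_nhds
    simp only [Finset.univ_eq_empty, Finset.prod_empty, IsEmpty.forall_iff, Finset.filter_true,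
      Finset.card_range]
    refine h1.congr' ?_
    filter_upwards [eventually_ge_atTop 1] with J hJ
    have : (0 : ℝ) < J := by exact_mod_cast hJ
    rw [div_self this.ne']
  · have h1 := avg_merge (a := fun n => if ∀ (l : Fin r) (i : ι), NE E (T (n + l) i) β = k l i
        then (1 : ℝ) else 0) hr (fun n => by split_ifs <;> simp) (L := ∏ l, ∏ i, pois (κ * v i) (k l i))
      (fun s hs => by
        have h2 := hβ r s hr h0 (fun x => k x.1 x.2)
        rw [Fintype.prod_prod_type] at h2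
        refine h2.congr fun J => ?_
        rw [Finset.card_filter]
        push_cast
        congr 1
        refine sum_congr rfl fun j _ => ?_
        refine if_congr ?_ rfl rfl
        exact ⟨fun h l i => h (l, i), fun h x => h x.1 x.2⟩)
    refine h1.congr fun J => ?_
    rw [Finset.card_filter]
    push_cast
    rfl

end Pool.Agent.U776.PG
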