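import Mathlib
import Pool.Agent.U776.PG.A3

set_option autoImplicit false

/-!
# The annealed law
-/

namespace Pool.Agent.U776.PG

open MeasureTheory Finset Filter Topology
open Pool.Agent.N176.GP (NB NB_spec NB_div sum_cells)
open Pool.Agent.U776.PL

/-- the hypotheses on the families of thin sets -/
structure Thin0 {ι : Type*} (T : ℕ → ι → Finset ℕ) : Prop where
  disj : ∀ n i j, i ≠ j → Disjoint (T n i) (T n j)
  large : ∀ M : ℕ, ∀ᶠ n in atTop, ∀ i, ∀ p ∈ T n i, M ≤ p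
  thin : ∀ δ : ℝ, 0 < δ → ∀ᶠ n in atTop, ∀ i, ∀ x : ℕ,
    ∑ p ∈ (T n i).filter (fun p => x < p ∧ p ≤ 2 * x), wt p ≤ δ

section

variable {ι : Type*} [Fintype ι] [DecidableEq ι]

theorem gen_tendsto {b : ℕ} {E : ℕ → Set ℝ} {κ : ℝ} {Λ A P : ℕ} {C c0 : ℝ}
    (H : QM b E κ Λ A P C c0) {m0 A0 B0 : ℕ} (hA0 : 1 ≤ A0) (hAB : A0 < B0) (hB0 : B0 ≤ b ^ (2 * m0))
    {T : ℕ → ι → Finset ℕ} (hT : Thin0 T)
    {lam : ι → ℝ} (hlam : ∀ i, Tendsto (fun n => κ * ∑ p ∈ T n i, wt p) atTop (𝓝 (lam i)))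
    (t : ι → ℝ) (ht : ∀ i, 0 ≤ t i ∧ t i ≤ 1) :
    Tendsto (fun n => ∫ x, ∏ i, t i ^ NE E (T n i) x ∂(mu b m0 A0 B0)) atTop
      (𝓝 ((mu b m0 A0 B0).real Set.univ * ∏ i, Real.exp (-(lam i * (1 - t i))))) := by
  classical
  have hκ := H.hκ
  have hc0 := H.hc0
  have hΛ' : (1 : ℝ) ≤ Λ := by exact_mod_cast H.hΛ
  set μ := mu b m0 A0 B0 with hμ
  obtain ⟨hV0, hsumV, hthin⟩ := union_small0 hT.disj hT.thin hκ hlam
  have hlarge : ∀ M : ℕ, ∀ᶠ n in atTop, ∀ p ∈ Finset.univ.biUnion (T n), M ≤ p := by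
    intro M
    filter_upwards [hT.large M] with n hn p hp
    rw [mem_biUnion] at hp
    obtain ⟨i, _, hi⟩ := hp
    exact hn i p hi
  set V := ∑ i, (lam i / κ + 1) with hV
  have hexp := (exp_tendsto hT.disj hlam t).const_mul (μ.real Set.univ)
  have hdiff : Tendsto (fun n => ∫ x, ∏ i, t i ^ NE E (T n i) x ∂μ -
      μ.real Set.univ * Real.exp (-(κ *
      ∑ p ∈ Finset.univ.biUnion (T n), (1 - ∏ i, if p ∈ T n i then t i else 1) * wt p))) atTop
      (𝓝 0) := by
    rw [Metric.tendsto_atTop]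
    intro ε hε
    obtain ⟨Q1, hre⟩ := mix_re H
    obtain ⟨K0, hK0, Q, hQ⟩ := H.mix m0 A0 B0 hA0 hAB hB0
    obtain ⟨m, P1, hyy⟩ := yy_small (c := c0 / (4 * Λ)) (by positivity)
    set M := μ.real Set.univ with hMdef
    have hM0 : 0 ≤ M := measureReal_nonneg
    obtain ⟨δ, hδ, P0, hP0⟩ := errd_small0 (C := C) (κ := κ) hκ.le H.hC m hV0
      (show 0 < ε / (4 * (M + 1)) by positivity)
    have hkw : Tendsto (fun p => κ * wt p) atTop (𝓝 0) := by
      simpa using wt_tendsto.const_mul κ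
    obtain ⟨P2, hP2⟩ := (hkw.eventually_lt_const one_pos).exists_forall_of_atTop
    obtain ⟨P4, hP4⟩ := ((tendsto_natCast_atTop_atTop (R := ℝ)).eventually_ge_atTop
      ((4 + 4 * m0) / c0)).exists_forall_of_atTop
    have hl1 : Tendsto (fun n : ℕ => Real.log (n : ℝ)) atTop atTop :=
      Real.tendsto_log_atTop.comp tendsto_natCast_atTop_atTop
    obtain ⟨Q2, hQ2⟩ := eventually_atTop.1 (hl1.eventually_ge_atTop
      ((K0 + M) / (ε / (4 * (V + 1)))))
    set P' := P + P1 + P0 + P2 + Q + Q1 + Q2 + P4 + A * (m0 + 1) + 1 with hP'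
    obtain ⟨n0, hn0⟩ := ((hlarge P').and ((hthin δ hδ).and hsumV)).exists_forall_of_atTop
    refine ⟨n0, fun n hn => ?_⟩
    obtain ⟨hl, hth, hsV⟩ := hn0 n hn
    rw [Real.dist_eq, sub_zero]
    have e : ∫ x, ∏ i, t i ^ NE E (T n i) x ∂μ =
        ∫ x, G E (Finset.univ.biUnion (T n)) (fun p => ∏ i, if p ∈ T n i then t i else 1) x ∂μ :=
      integral_congr_ae (by
        filter_upwards with x
        exact (G_union (T n) (fun i j => hT.disj n i j) t x).symm)
    rw [e]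
    have hsm := (hP0 (Finset.univ.biUnion (T n)) (fun p hp => by have := hl p hp; omega) hth
      hsV).1
    have hg := gen_unif (m := m) (μ := μ) (C := C) (ρ := 0) hκ.le H.meas (P := P')
      (fun p hp => H.one m0 A0 B0 hA0 hAB hB0 p (by omega) (by omega))
      (fun p hp q hq => (H.pair m0 A0 B0 hA0 hAB hB0 p (by omega) (by omega) q hq).trans
        (le_of_eq (by rw [zero_pow (by omega), mul_zero, add_zero])))
      (Finset.univ.biUnion (T n)) hl (fun p hp => (hP2 p (by omega)).le)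
      (θ := fun p => ∏ i, if p ∈ T n i then t i else 1) (theta_01 (T n) t ht)
      (r := fun q => ε / (4 * (V + 1)) * wt q)
      (fun q hq S' hS' => by
        have h2 := hP4 q (by omega)
        rw [div_le_iff₀ hc0] at h2
        have h5 : (0 : ℝ) ≤ m0 := Nat.cast_nonneg _
        have h6 : c0 / 2 * (q : ℝ) ≤ zl c0 q := by
          have h7 : c0 * q < zl c0 q + 1 := Nat.lt_floor_add_one _
          nlinarith
        have h8 : 2 * m0 ≤ zl c0 q := by
          have : ((2 * m0 : ℕ) : ℝ) ≤ zl c0 q := by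
            push_cast
            nlinarith
          exact_mod_cast this
        have h3 : 2 * (Λ * yy q m) ≤ zl c0 q := by
          have h1 := hyy q (by omega)
          have h4 : (2 : ℝ) * (Λ * (yy q m : ℕ)) ≤ c0 / 2 * q := by
            calc (2 : ℝ) * (Λ * (yy q m : ℕ)) ≤ 2 * (Λ * (c0 / (4 * Λ) * q)) := by gcongr
              _ = c0 / 2 * q := by field_simp; ring
          have : ((2 * (Λ * yy q m) : ℕ) : ℝ) ≤ zl c0 q := by
            push_cast
            linarith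
          exact_mod_cast this
        refine (hre q (by omega) m0 A0 B0 hAB h8 S' (fun p hp => ?_) _ (theta_01 (T n) t ht)).trans ?_
        · have h4 : Λ * p ≤ Λ * yy q m := Nat.mul_le_mul_left _ (hS' p hp)
          omega
        · have hq1 : (1 : ℝ) ≤ q := by exact_mod_cast (by omega : 1 ≤ q)
          have hq0 : (0 : ℝ) < q := by linarith
          unfold re
          have h9 := hQ q (by omega)
          have h10 : 1 / (q : ℝ) ^ 2 ≤ 1 / q := by
            refine one_div_le_one_div_of_le hq0 ?_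
            nlinarith
          have h11 := hQ2 q (by omega)
          rw [div_le_iff₀ (by positivity)] at h11
          calc _ ≤ K0 / q + M * (1 / q) := add_le_add h9 (mul_le_mul_of_nonneg_left h10 hM0)
            _ = (K0 + M) / q := by ring
            _ ≤ (Real.log q * (ε / (4 * (V + 1)))) / q :=
              div_le_div_of_nonneg_right h11 hq0.le
            _ = _ := by unfold wt; ring)
    refine lt_of_le_of_lt hg ?_
    rw [← mul_sum]
    have h1 : ε / (4 * (V + 1)) * ∑ q ∈ Finset.univ.biUnion (T n), wt q ≤ ε / 4 := by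
      calc _ ≤ ε / (4 * (V + 1)) * (V + 1) := by gcongr; linarith
        _ = ε / 4 := by field_simp
    have h2 : M * errd C 0 κ m (Finset.univ.biUnion (T n)) ≤ ε / 4 := by
      calc _ ≤ (M + 1) * (ε / (4 * (M + 1))) := by
            have h3 : M * errd C 0 κ m (Finset.univ.biUnion (T n)) ≤ M * (ε / (4 * (M + 1))) :=
              mul_le_mul_of_nonneg_left hsm hM0
            have h4 : 0 ≤ ε / (4 * (M + 1)) := by positivity
            linarith
        _ = ε / 4 := by field_simp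
    linarith
  have := hdiff.add hexp
  rw [zero_add] at this
  refine this.congr fun n => ?_
  ring

theorem joint {b : ℕ} {E : ℕ → Set ℝ} {κ : ℝ} {Λ A P : ℕ} {C c0 : ℝ}
    (H : QM b E κ Λ A P C c0) {m A0 B0 : ℕ} (hA0 : 1 ≤ A0) (hAB : A0 < B0) (hB0 : B0 ≤ b ^ (2 * m))
    {T : ℕ → ι → Finset ℕ} (hT : Thin0 T)
    {lam : ι → ℝ} (hlam : ∀ i, Tendsto (fun n => κ * ∑ p ∈ T n i, wt p) atTop (𝓝 (lam i)))
    (k : ι → ℕ) :
    Tendsto (fun n => (mu b m A0 B0).real {x | ∀ i, NE E (T n i) x = k i}) atTop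
      (𝓝 ((mu b m A0 B0).real Set.univ * ∏ i, pois (lam i) (k i))) := by
  have hlam0 : ∀ i, 0 ≤ lam i := fun i =>
    ge_of_tendsto' (hlam i) fun n => mul_nonneg H.hκ.le (Finset.sum_nonneg fun p _ => wt_nonneg p)
  refine joint_of_gen (μ := fun _ => mu b m A0 B0) (fun _ => le_rfl) (N := fun n i => NE E (T n i))
    (fun n i => NE_measurable H.meas _) measureReal_nonneg hlam0 (fun r => ?_) k
  refine gen_tendsto H hA0 hAB hB0 hT hlam (fun i => 1 / ((r i : ℝ) + 1)) fun i => ?_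
  have := Nat.cast_nonneg (α := ℝ) (r i)
  refine ⟨by positivity, ?_⟩
  rw [div_le_one (by positivity)]
  linarith

end

variable {ι : Type*} [Fintype ι]

/-- intervals -/
theorem law_Ioc {b : ℕ} {E : ℕ → Set ℝ} {κ : ℝ} {Λ A P : ℕ} {C c0 : ℝ}
    (H : QM b E κ Λ A P C c0) {T : ℕ → ι → Finset ℕ} (hT : Thin0 T)
    {lam : ι → ℝ} (hlam : ∀ i, Tendsto (fun n => κ * ∑ p ∈ T n i, wt p) atTop (𝓝 (lam i)))
    (k : ι → ℕ) {u v : ℝ} (hu : 0 ≤ u) (huv : u < v) :
    Tendsto (fun n => volume.real (Set.Ioc u v ∩ EV E (T n) k)) atTop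
      (𝓝 ((v - u) * ∏ i, pois (lam i) (k i))) := by
  have hb := H.hb
  have hb0 : (0 : ℝ) < b := by positivity
  have hb1 : (1 : ℝ) < b := by exact_mod_cast (by omega : 1 < b)
  set π : ℝ := ∏ i, pois (lam i) (k i) with hπ
  have hlam0 : ∀ i, 0 ≤ lam i := fun i =>
    ge_of_tendsto' (hlam i) fun n => mul_nonneg H.hκ.le (sum_nonneg fun p _ => wt_nonneg p)
  rw [Metric.tendsto_atTop]
  intro ε hε
  -- choice of the level
  have hpi0 : 0 ≤ π := prod_nonneg fun i _ => pois_nonneg (hlam0 i) (k i)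
  have hlim := tendsto_pow_atTop_atTop_of_one_lt hb1
  have ev1 := hlim.eventually_ge_atTop (8 * (1 + π) / ε)
  have ev2 := hlim.eventually_ge_atTop (2 / (v - u))
  have ev3 := hlim.eventually_ge_atTop (v + 1)
  obtain ⟨m, hm1, hm2, hm3⟩ := (ev1.and (ev2.and ev3)).exists
  have hvu : 0 < v - u := by linarith
  have hbm : (0 : ℝ) < (b : ℝ) ^ m := by positivity
  have hbm1 : (1 : ℝ) ≤ (b : ℝ) ^ m := one_le_pow₀ hb1.le
  rw [div_le_iff₀ hvu] at hm2
  set A0 := ⌊u * (b : ℝ) ^ m⌋₊ + 1 with hA0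
  set B0 := ⌈v * (b : ℝ) ^ m⌉₊ with hB0
  have ha1 : (⌊u * (b : ℝ) ^ m⌋₊ : ℝ) ≤ u * (b : ℝ) ^ m := Nat.floor_le (by positivity)
  have ha2 : u * (b : ℝ) ^ m < ⌊u * (b : ℝ) ^ m⌋₊ + 1 := Nat.lt_floor_add_one _
  have hv0 : 0 < v := by linarith
  have hb2 : v * (b : ℝ) ^ m ≤ B0 := Nat.le_ceil _
  have hb3 : (B0 : ℝ) < v * (b : ℝ) ^ m + 1 := Nat.ceil_lt_add_one (by positivity)
  have hA0' : (A0 : ℝ) = ⌊u * (b : ℝ) ^ m⌋₊ + 1 := by rw [hA0]; push_cast; ring
  have hAB : A0 < B0 := by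
    have h1 : (A0 : ℝ) < B0 := by
      rw [hA0']
      nlinarith
    exact_mod_cast h1
  have hB02 : B0 ≤ b ^ (2 * m) := by
    have h1 : (B0 : ℝ) ≤ (b : ℝ) ^ (2 * m) := by
      have h2 : (b : ℝ) ^ (2 * m) = (b : ℝ) ^ m * (b : ℝ) ^ m := by rw [← pow_add]; congr 1; omega
      rw [h2]
      nlinarith
    exact_mod_cast h1
  classical
  have hj := joint H (m := m) (by omega : 1 ≤ A0) hAB hB02 hT hlam k
  set u' : ℝ := (A0 : ℝ) / (b : ℝ) ^ m with hu'
  set v' : ℝ := (B0 : ℝ) / (b : ℝ) ^ m with hv'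
  have hu1 : u ≤ u' := by
    rw [hu', le_div_iff₀ hbm, hA0']
    exact ha2.le
  have hu2 : u' ≤ u + 1 / (b : ℝ) ^ m := by
    rw [hu', div_le_iff₀ hbm, add_mul, div_mul_cancel₀ _ hbm.ne', hA0']
    linarith
  have hv1 : v ≤ v' := by
    rw [hv', le_div_iff₀ hbm]
    exact hb2
  have hv2 : v' ≤ v + 1 / (b : ℝ) ^ m := by
    rw [hv', div_le_iff₀ hbm, add_mul, div_mul_cancel₀ _ hbm.ne']
    exact hb3.le
  have huv' : u' ≤ v' := by
    rw [hu', hv']
    gcongr
  have h1m : 1 / (b : ℝ) ^ m ≤ ε / (8 * (1 + π)) := by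
    rw [div_le_div_iff₀ hbm (by positivity), one_mul]
    rw [div_le_iff₀ hε] at hm1
    linarith
  have huniv : (mu b m A0 B0).real Set.univ = v' - u' := by
    unfold mu
    rw [Measure.real, Measure.restrict_apply_univ, Real.volume_Ioc,
      ENNReal.toReal_ofReal (by linarith)]
  have hreal : ∀ n, (mu b m A0 B0).real {x | ∀ i, NE E (T n i) x = k i} =
      volume.real (Set.Ioc u' v' ∩ EV E (T n) k) := by
    intro n
    unfold mu
    rw [Measure.real, Measure.real, Measure.restrict_apply' measurableSet_Ioc, Set.inter_comm]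
    rfl
  rw [huniv] at hj
  simp only [hreal] at hj
  rw [Metric.tendsto_atTop] at hj
  obtain ⟨N, hN⟩ := hj (ε / 4) (by positivity)
  refine ⟨N, fun n hn => ?_⟩
  have h1 := hN n hn
  rw [Real.dist_eq] at h1 ⊢
  set S := EV E (T n) k with hS
  have fin : ∀ (x y : ℝ) (B : Set ℝ), volume (Set.Ioc x y ∩ B) ≠ ⊤ := fun x y B =>
    ne_top_of_le_ne_top (by rw [Real.volume_Ioc]; exact ENNReal.ofReal_ne_top)
      (measure_mono Set.inter_subset_left)
  have fin' : ∀ x y : ℝ, volume (Set.Ioc x y) ≠ ⊤ := fun x y => by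
    rw [Real.volume_Ioc]; exact ENNReal.ofReal_ne_top
  have k1 : volume.real (Set.Ioc u v ∩ S) ≤ volume.real (Set.Ioc u' v' ∩ S) + (u' - u) := by
    have h2 : Set.Ioc u v ∩ S ⊆ (Set.Ioc u' v' ∩ S) ∪ Set.Ioc u u' := by
      rintro x ⟨⟨h3, h4⟩, h5⟩
      by_cases h6 : x ≤ u'
      · exact Or.inr ⟨h3, h6⟩
      · exact Or.inl ⟨⟨not_le.1 h6, h4.trans hv1⟩, h5⟩
    have h3 := measureReal_mono h2 (by
      exact ne_top_of_le_ne_top (ENNReal.add_ne_top.2 ⟨fin _ _ _, fin' _ _⟩) (measure_union_le _ _))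
    refine h3.trans ((measureReal_union_le _ _).trans ?_)
    rw [Real.volume_real_Ioc_of_le hu1]
  have k2 : volume.real (Set.Ioc u' v' ∩ S) ≤ volume.real (Set.Ioc u v ∩ S) + (v' - v) := by
    have h2 : Set.Ioc u' v' ∩ S ⊆ (Set.Ioc u v ∩ S) ∪ Set.Ioc v v' := by
      rintro x ⟨⟨h3, h4⟩, h5⟩
      by_cases h6 : x ≤ v
      · exact Or.inl ⟨⟨hu1.trans_lt h3, h6⟩, h5⟩
      · exact Or.inr ⟨not_le.1 h6, h4⟩
    have h3 := measureReal_mono h2 (by
      exact ne_top_of_le_ne_top (ENNReal.add_ne_top.2 ⟨fin _ _ _, fin' _ _⟩) (measure_union_le _ _))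
    refine h3.trans ((measureReal_union_le _ _).trans ?_)
    rw [Real.volume_real_Ioc_of_le hv1]
  have k3 : |(v' - u') * π - (v - u) * π| ≤ ε / 4 := by
    rw [← sub_mul, abs_mul, abs_of_nonneg hpi0]
    have h2 : |v' - u' - (v - u)| ≤ 1 / (b : ℝ) ^ m := by
      rw [abs_le]
      constructor <;> linarith
    calc |v' - u' - (v - u)| * π ≤ (ε / (8 * (1 + π))) * (1 + π) :=
          mul_le_mul (h2.trans h1m) (by linarith) hpi0 (by positivity)
      _ = ε / 8 := by field_simp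
      _ ≤ ε / 4 := by linarith
  have h2m : ε / (8 * (1 + π)) ≤ ε / 8 := by
    apply div_le_div_of_nonneg_left hε.le (by norm_num)
    linarith
  rw [abs_lt] at h1 ⊢
  rw [abs_le] at k3
  constructor <;> linarith

/-- bounded measurable sets -/
theorem law_set {b : ℕ} {E : ℕ → Set ℝ} {κ : ℝ} {Λ A P : ℕ} {C c0 : ℝ}
    (H : QM b E κ Λ A P C c0) {T : ℕ → ι → Finset ℕ} (hT : Thin0 T)
    {lam : ι → ℝ} (hlam : ∀ i, Tendsto (fun n => κ * ∑ p ∈ T n i, wt p) atTop (𝓝 (lam i)))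
    (k : ι → ℕ) {B : Set ℝ} (hB : MeasurableSet B) (M : ℝ) (hM : 0 < M) :
    Tendsto (fun n => volume.real ((B ∩ Set.Ioc 0 M) ∩ EV E (T n) k)) atTop
      (𝓝 (volume.real (B ∩ Set.Ioc 0 M) * ∏ i, pois (lam i) (k i))) := by
  set π : ℝ := ∏ i, pois (lam i) (k i) with hπ
  have hmeas : ∀ n, MeasurableSet (EV E (T n) k) := fun n =>
    EV_measurable H.meas (T n) k
  have fin0 : volume (Set.Ioc 0 M) ≠ ⊤ := by rw [Real.volume_Ioc]; exact ENNReal.ofReal_ne_top
  have fin : ∀ B : Set ℝ, volume (B ∩ Set.Ioc 0 M) ≠ ⊤ := fun B =>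
    ne_top_of_le_ne_top fin0 (measure_mono Set.inter_subset_right)
  have fin2 : ∀ (B : Set ℝ) n, volume ((B ∩ Set.Ioc 0 M) ∩ EV E (T n) k) ≠ ⊤ := fun B n =>
    ne_top_of_le_ne_top (fin B) (measure_mono Set.inter_subset_left)
  have htot : Tendsto (fun n => volume.real (Set.Ioc 0 M ∩ EV E (T n) k)) atTop
      (𝓝 (volume.real (Set.Ioc 0 M) * π)) := by
    have h := law_Ioc H hT hlam k le_rfl hM
    rwa [← Real.volume_real_Ioc_of_le hM.le] at h
  induction B, hB using MeasurableSpace.induction_on_inter (borel_eq_generateFrom_Ioc ℝ)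
    (isPiSystem_Ioc (id : ℝ → ℝ) id) with
  | empty => simp
  | basic t ht =>
    obtain ⟨x, y, hxy, rfl⟩ := ht
    rw [Set.Ioc_inter_Ioc]
    rcases le_or_gt (min y M) (max x 0) with h | h
    · have e : Set.Ioc (max x 0) (min y M) = ∅ := Set.Ioc_eq_empty (not_lt.2 h)
      have e' : Set.Ioc (x ⊔ 0) (y ⊓ M) = ∅ := e
      rw [e']
      simp
    · have h1 := law_Ioc H hT hlam k (le_max_right x 0) h
      rw [← Real.volume_real_Ioc_of_le h.le] at h1
      exact h1
  | compl t ht ih =>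
    have e1 : ∀ n, volume.real ((tᶜ ∩ Set.Ioc 0 M) ∩ EV E (T n) k) =
        volume.real (Set.Ioc 0 M ∩ EV E (T n) k) -
          volume.real ((t ∩ Set.Ioc 0 M) ∩ EV E (T n) k) := by
      intro n
      have h1 : (tᶜ ∩ Set.Ioc 0 M) ∩ EV E (T n) k =
          (Set.Ioc 0 M ∩ EV E (T n) k) \ ((t ∩ Set.Ioc 0 M) ∩ EV E (T n) k) := by
        ext x
        simp only [Set.mem_inter_iff, Set.mem_compl_iff, Set.mem_sdiff]
        tauto
      have hs : (t ∩ Set.Ioc 0 M) ∩ EV E (T n) k ⊆ Set.Ioc 0 M ∩ EV E (T n) k :=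
        fun x hx => ⟨hx.1.2, hx.2⟩
      rw [h1, measureReal_sdiff hs ((ht.inter measurableSet_Ioc).inter (hmeas n))
        (ne_top_of_le_ne_top fin0 (measure_mono Set.inter_subset_left))]
    have e2 : volume.real (tᶜ ∩ Set.Ioc 0 M) =
        volume.real (Set.Ioc 0 M) - volume.real (t ∩ Set.Ioc 0 M) := by
      have h1 : tᶜ ∩ Set.Ioc 0 M = Set.Ioc 0 M \ (t ∩ Set.Ioc 0 M) := by
        ext x
        simp only [Set.mem_inter_iff, Set.mem_compl_iff, Set.mem_sdiff]
        tauto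
      rw [h1, measureReal_sdiff Set.inter_subset_right (ht.inter measurableSet_Ioc) fin0]
    simp only [e1]
    rw [e2, sub_mul]
    exact htot.sub ih
  | iUnion f hd hf ih =>
    have e1 : ∀ n, volume.real (((⋃ i, f i) ∩ Set.Ioc 0 M) ∩ EV E (T n) k) =
        ∑' i, volume.real ((f i ∩ Set.Ioc 0 M) ∩ EV E (T n) k) := by
      intro n
      rw [Set.iUnion_inter, Set.iUnion_inter, measureReal_def, measure_iUnion, ENNReal.tsum_toReal_eq]
      · rfl
      · exact fun i => fin2 (f i) n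
      · intro i j hij
        exact ((hd hij).mono Set.inter_subset_left Set.inter_subset_left).mono
          Set.inter_subset_left Set.inter_subset_left
      · exact fun i => ((hf i).inter measurableSet_Ioc).inter (hmeas n)
    have hsumm : Summable fun i => volume.real (f i ∩ Set.Ioc 0 M) := by
      refine ENNReal.summable_toReal ?_
      rw [← measure_iUnion]
      · rw [← Set.iUnion_inter]
        exact fin _
      · intro i j hij
        exact (hd hij).mono Set.inter_subset_left Set.inter_subset_left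
      · exact fun i => (hf i).inter measurableSet_Ioc
    have e2 : volume.real ((⋃ i, f i) ∩ Set.Ioc 0 M) = ∑' i, volume.real (f i ∩ Set.Ioc 0 M) := by
      rw [Set.iUnion_inter, measureReal_def, measure_iUnion, ENNReal.tsum_toReal_eq]
      · rfl
      · exact fun i => fin (f i)
      · intro i j hij
        exact (hd hij).mono Set.inter_subset_left Set.inter_subset_left
      · exact fun i => (hf i).inter measurableSet_Ioc
    simp only [e1]
    rw [e2, ← tsum_mul_right]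
    refine tendsto_tsum_of_dominated_convergence hsumm ih ?_
    refine Eventually.of_forall fun n i => ?_
    rw [Real.norm_eq_abs, abs_of_nonneg measureReal_nonneg]
    exact measureReal_mono Set.inter_subset_left (fin (f i))

/-- **Annealed law** for every absolutely continuous law of the amplitude. -/
theorem annealed {b : ℕ} {E : ℕ → Set ℝ} {κ : ℝ} {Λ A P : ℕ} {C c0 : ℝ}
    (H : QM b E κ Λ A P C c0) {T : ℕ → ι → Finset ℕ} (hT : Thin0 T)
    {lam : ι → ℝ} (hlam : ∀ i, Tendsto (fun n => κ * ∑ p ∈ T n i, wt p) atTop (𝓝 (lam i)))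
    (μ : Measure ℝ) [IsProbabilityMeasure μ] (hac : μ ≪ volume) (hpos : ∀ᵐ x ∂μ, 0 < x)
    (k : ι → ℕ) :
    Tendsto (fun n => μ.real {β | ∀ i, NE E (T n i) β = k i}) atTop
      (𝓝 (∏ i, pois (lam i) (k i))) := by
  classical
  have hlam0 : ∀ i, 0 ≤ lam i := fun i =>
    ge_of_tendsto' (hlam i) fun n => mul_nonneg H.hκ.le (sum_nonneg fun p _ => wt_nonneg p)
  have h0 : 0 ≤ ∏ i, pois (lam i) (k i) := prod_nonneg fun i _ => pois_nonneg (hlam0 i) (k i)
  have h1 : ∏ i, pois (lam i) (k i) ≤ 1 := by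
    have h2 := law_Ioc H hT hlam k le_rfl (show (0 : ℝ) < 1 by norm_num)
    rw [sub_zero, one_mul] at h2
    refine le_of_tendsto' h2 fun n => ?_
    have h3 : volume.real (Set.Ioc (0 : ℝ) 1 ∩ EV E (T n) k) ≤ volume.real (Set.Ioc (0 : ℝ) 1) :=
      measureReal_mono Set.inter_subset_left (by rw [Real.volume_Ioc]; exact ENNReal.ofReal_ne_top)
    rw [Real.volume_real_Ioc_of_le (by norm_num)] at h3
    linarith
  exact dens_ac (A := fun n => EV E (T n) k)
    (fun n => EV_measurable H.meas (T n) k) h0 h1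
    (fun B hB M hM => law_set H hT hlam k hB M hM) μ hac hpos

end Pool.Agent.U776.PG
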