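import Mathlib
import Pool.Agent.U776.PG.A1
import Pool.Agent.N176.GW.Stm

set_option autoImplicit false

/-!
# Real bases: counting and measure
-/

namespace Pool.Agent.U776.PG

open MeasureTheory Finset Filter Topology
open Pool.Agent.H305R2 (roughPart ff)
open Pool.Agent.N176.GP (NB NB_spec NB_div sum_cells)
open Pool.Agent.U776.PL

/-- the event in the real base `α` -/
def Er (α : ℝ) (p : ℕ) : Set ℝ := {β | (roughPart p ⌊β * α ^ p⌋₊).Prime}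

lemma floor_measurable (s : ℝ) : Measurable (fun β : ℝ => ⌊β * s⌋₊) :=
  Nat.measurable_floor.comp (measurable_id.mul_const _)

lemma set_measurable (s : ℝ) (Q : ℕ → Prop) : MeasurableSet {β : ℝ | Q ⌊β * s⌋₊} :=
  floor_measurable s (MeasurableSet.of_discrete (s := {n : ℕ | Q n}))

lemma Er_measurable (α : ℝ) (p : ℕ) : MeasurableSet (Er α p) :=
  set_measurable (α ^ p) fun n => (roughPart p n).Prime

lemma floor_cell {s : ℝ} (hs : 0 < s) {n : ℕ} {β : ℝ} (h1 : (n : ℝ) / s ≤ β)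
    (h2 : β < ((n : ℝ) + 1) / s) : ⌊β * s⌋₊ = n := by
  rw [div_le_iff₀ hs] at h1
  rw [lt_div_iff₀ hs] at h2
  exact (Nat.floor_eq_iff (by
    have : (0 : ℝ) ≤ n := Nat.cast_nonneg n
    linarith)).2 ⟨h1, h2⟩

/-- the measure of a set given by the integer part -/
lemma vol_count {s : ℝ} (hs : 0 < s) (Q : ℕ → Prop) [DecidablePred Q] {V0 V1 : ℕ} (h : V0 ≤ V1) :
    volume.real (Set.Ico ((V0 : ℝ) / s) ((V1 : ℝ) / s) ∩ {β | Q ⌊β * s⌋₊}) =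
      (((Ico V0 V1).filter Q).card : ℝ) / s := by
  induction V1, h using Nat.le_induction with
  | base => simp
  | succ V h ih =>
    have hle : (V0 : ℝ) / s ≤ (V : ℝ) / s := by gcongr
    have hle2 : (V : ℝ) / s ≤ ((V + 1 : ℕ) : ℝ) / s := by gcongr; omega
    have h1 : Set.Ico ((V0 : ℝ) / s) (((V + 1 : ℕ) : ℝ) / s) ∩ {β | Q ⌊β * s⌋₊} =
        (Set.Ico ((V0 : ℝ) / s) ((V : ℝ) / s) ∩ {β | Q ⌊β * s⌋₊}) ∪
        (Set.Ico ((V : ℝ) / s) (((V + 1 : ℕ) : ℝ) / s) ∩ {β | Q ⌊β * s⌋₊}) := by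
      rw [← Set.union_inter_distrib_right, Set.Ico_union_Ico_eq_Ico hle hle2]
    have hd : Disjoint (Set.Ico ((V0 : ℝ) / s) ((V : ℝ) / s) ∩ {β | Q ⌊β * s⌋₊})
        (Set.Ico ((V : ℝ) / s) (((V + 1 : ℕ) : ℝ) / s) ∩ {β | Q ⌊β * s⌋₊}) := by
      rw [Set.disjoint_left]
      rintro x ⟨⟨_, h3⟩, _⟩ ⟨⟨h4, _⟩, _⟩
      linarith
    have f1 : volume (Set.Ico ((V0 : ℝ) / s) ((V : ℝ) / s) ∩ {β | Q ⌊β * s⌋₊}) ≠ ⊤ :=
      ne_top_of_le_ne_top (by rw [Real.volume_Ico]; exact ENNReal.ofReal_ne_top)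
        (measure_mono Set.inter_subset_left)
    have f2 : volume (Set.Ico ((V : ℝ) / s) (((V + 1 : ℕ) : ℝ) / s) ∩ {β | Q ⌊β * s⌋₊}) ≠ ⊤ :=
      ne_top_of_le_ne_top (by rw [Real.volume_Ico]; exact ENNReal.ofReal_ne_top)
        (measure_mono Set.inter_subset_left)
    rw [h1, measureReal_union hd (measurableSet_Ico.inter (set_measurable s Q)) f1 f2, ih]
    have h2 : volume.real (Set.Ico ((V : ℝ) / s) (((V + 1 : ℕ) : ℝ) / s) ∩ {β | Q ⌊β * s⌋₊}) =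
        (if Q V then 1 else 0) / s := by
      by_cases hQ : Q V
      · have e : Set.Ico ((V : ℝ) / s) (((V + 1 : ℕ) : ℝ) / s) ∩ {β | Q ⌊β * s⌋₊} =
            Set.Ico ((V : ℝ) / s) (((V + 1 : ℕ) : ℝ) / s) := by
          rw [Set.inter_eq_left]
          intro x hx
          show Q ⌊x * s⌋₊
          rw [floor_cell hs hx.1 (by have := hx.2; push_cast at this; exact this)]
          exact hQ
        rw [e, if_pos hQ, measureReal_def, Real.volume_Ico, ENNReal.toReal_ofReal (by linarith),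
          ← sub_div]
        push_cast
        congr 1
        ring
      · have e : Set.Ico ((V : ℝ) / s) (((V + 1 : ℕ) : ℝ) / s) ∩ {β | Q ⌊β * s⌋₊} = ∅ := by
          rw [Set.eq_empty_iff_forall_notMem]
          rintro x ⟨hx, hx2⟩
          apply hQ
          have h3 : Q ⌊x * s⌋₊ := hx2
          rwa [floor_cell hs hx.1 (by have := hx.2; push_cast at this; exact this)] at h3
        rw [e, if_neg hQ]
        simp
    rw [h2, ← add_div, Finset.card_filter, Finset.card_filter, Finset.sum_Ico_succ_top h]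
    push_cast
    rfl

lemma vol_fin (u v : ℝ) (S : Set ℝ) : volume (Set.Icc u v ∩ S) ≠ ⊤ :=
  ne_top_of_le_ne_top (by rw [Real.volume_Icc]; exact ENNReal.ofReal_ne_top)
    (measure_mono Set.inter_subset_left)

/-- upper bound by the number of integers -/
lemma vol_le {s : ℝ} (hs : 0 < s) (Q : ℕ → Prop) [DecidablePred Q] {u v : ℝ} (hu : 0 ≤ u)
    (huv : u ≤ v) :
    volume.real (Set.Icc u v ∩ {β | Q ⌊β * s⌋₊}) ≤
      (((Ico ⌊u * s⌋₊ (⌊v * s⌋₊ + 1)).filter Q).card : ℝ) / s := by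
  have h0 : ⌊u * s⌋₊ ≤ ⌊v * s⌋₊ + 1 := by
    have : ⌊u * s⌋₊ ≤ ⌊v * s⌋₊ := Nat.floor_le_floor (by gcongr)
    omega
  rw [← vol_count hs Q h0]
  refine measureReal_mono ?_ (ne_top_of_le_ne_top (by rw [Real.volume_Ico]; exact ENNReal.ofReal_ne_top)
        (measure_mono Set.inter_subset_left))
  rintro x ⟨⟨h1, h2⟩, h3⟩
  refine ⟨⟨?_, ?_⟩, h3⟩
  · rw [div_le_iff₀ hs]
    exact (Nat.floor_le (by positivity)).trans (by gcongr)
  · rw [lt_div_iff₀ hs]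
    push_cast
    exact lt_of_le_of_lt (by gcongr) (Nat.lt_floor_add_one (v * s))

/-- approximation by the number of integers -/
lemma vol_near {s : ℝ} (hs : 0 < s) (Q : ℕ → Prop) [DecidablePred Q] {u v : ℝ} (hu : 0 ≤ u)
    (huv : u ≤ v) (h : ⌈u * s⌉₊ ≤ ⌊v * s⌋₊) :
    |volume.real (Set.Icc u v ∩ {β | Q ⌊β * s⌋₊}) -
      (((Ico ⌈u * s⌉₊ ⌊v * s⌋₊).filter Q).card : ℝ) / s| ≤ 2 / s := by
  rw [← vol_count hs Q h]
  have hv : 0 ≤ v := hu.trans huv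
  have h1 : u ≤ (⌈u * s⌉₊ : ℝ) / s := by
    rw [le_div_iff₀ hs]
    exact Nat.le_ceil _
  have h2 : (⌊v * s⌋₊ : ℝ) / s ≤ v := by
    rw [div_le_iff₀ hs]
    exact Nat.floor_le (by positivity)
  have h3 : (⌈u * s⌉₊ : ℝ) / s ≤ u + 1 / s := by
    rw [div_le_iff₀ hs, add_mul, div_mul_cancel₀ _ hs.ne']
    exact (Nat.ceil_lt_add_one (by positivity)).le
  have h4 : v - 1 / s ≤ (⌊v * s⌋₊ : ℝ) / s := by
    rw [le_div_iff₀ hs, sub_mul, div_mul_cancel₀ _ hs.ne']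
    linarith [Nat.lt_floor_add_one (v * s)]
  have k1 : volume.real (Set.Ico ((⌈u * s⌉₊ : ℝ) / s) ((⌊v * s⌋₊ : ℝ) / s) ∩ {β | Q ⌊β * s⌋₊}) ≤
      volume.real (Set.Icc u v ∩ {β | Q ⌊β * s⌋₊}) := by
    refine measureReal_mono ?_ (vol_fin _ _ _)
    rintro x ⟨⟨h5, h6⟩, h7⟩
    exact ⟨⟨h1.trans h5, h6.le.trans h2⟩, h7⟩
  have k2 : volume.real (Set.Icc u v ∩ {β | Q ⌊β * s⌋₊}) ≤
      volume.real (Set.Ico ((⌈u * s⌉₊ : ℝ) / s) ((⌊v * s⌋₊ : ℝ) / s) ∩ {β | Q ⌊β * s⌋₊}) + 2 / s := by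
    have h5 : Set.Icc u v ∩ {β | Q ⌊β * s⌋₊} ⊆
        (Set.Ico ((⌈u * s⌉₊ : ℝ) / s) ((⌊v * s⌋₊ : ℝ) / s) ∩ {β | Q ⌊β * s⌋₊}) ∪
        (Set.Icc u (u + 1 / s) ∪ Set.Icc (v - 1 / s) v) := by
      rintro x ⟨⟨h5, h6⟩, h7⟩
      by_cases h8 : (⌈u * s⌉₊ : ℝ) / s ≤ x
      · by_cases h9 : x < (⌊v * s⌋₊ : ℝ) / s
        · exact Or.inl ⟨⟨h8, h9⟩, h7⟩
        · exact Or.inr (Or.inr ⟨by linarith, h6⟩)
      · exact Or.inr (Or.inl ⟨h5, by linarith⟩)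
    have f1 : volume (Set.Icc u (u + 1 / s)) ≠ ⊤ := by
      rw [Real.volume_Icc]; exact ENNReal.ofReal_ne_top
    have f2 : volume (Set.Icc (v - 1 / s) v) ≠ ⊤ := by
      rw [Real.volume_Icc]; exact ENNReal.ofReal_ne_top
    have f3 : volume (Set.Ico ((⌈u * s⌉₊ : ℝ) / s) ((⌊v * s⌋₊ : ℝ) / s) ∩ {β | Q ⌊β * s⌋₊}) ≠ ⊤ :=
      ne_top_of_le_ne_top (by rw [Real.volume_Ico]; exact ENNReal.ofReal_ne_top)
        (measure_mono Set.inter_subset_left)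
    have h6 := measureReal_mono (μ := volume) h5 (by
      refine ne_top_of_le_ne_top ?_ (measure_union_le _ _)
      refine ENNReal.add_ne_top.2 ⟨f3, ne_top_of_le_ne_top (ENNReal.add_ne_top.2 ⟨f1, f2⟩)
        (measure_union_le _ _)⟩)
    refine h6.trans ((measureReal_union_le _ _).trans ?_)
    have h7 := measureReal_union_le (μ := volume) (Set.Icc u (u + 1 / s)) (Set.Icc (v - 1 / s) v)
    have h8 : volume.real (Set.Icc u (u + 1 / s)) = 1 / s := by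
      rw [measureReal_def, Real.volume_Icc, ENNReal.toReal_ofReal (by
        have : 0 < 1 / s := by positivity
        linarith)]
      ring
    have h9 : volume.real (Set.Icc (v - 1 / s) v) = 1 / s := by
      rw [measureReal_def, Real.volume_Icc, ENNReal.toReal_ofReal (by
        have : 0 < 1 / s := by positivity
        linarith)]
      ring
    have h10 : (2 : ℝ) / s = 1 / s + 1 / s := by ring
    linarith
  rw [abs_le]
  constructor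
  · have : 0 ≤ 2 / s := by positivity
    linarith
  · linarith

/-- the points shortly after a multiple of `1 / s` -/
lemma vol_after {s : ℝ} (hs : 0 < s) {u v ε : ℝ} (huv : u ≤ v) (hε : 0 ≤ ε) :
    volume.real {β : ℝ | u ≤ β ∧ β ≤ v ∧ ∃ k : ℤ, u ≤ (k : ℝ) / s ∧ (k : ℝ) / s ≤ β ∧
      β ≤ (k : ℝ) / s + ε} ≤ ((v - u) * s + 1) * ε := by
  have hsub : {β : ℝ | u ≤ β ∧ β ≤ v ∧ ∃ k : ℤ, u ≤ (k : ℝ) / s ∧ (k : ℝ) / s ≤ β ∧
      β ≤ (k : ℝ) / s + ε} ⊆ ⋃ k ∈ Finset.Icc ⌈u * s⌉ ⌊v * s⌋, Set.Icc ((k : ℝ) / s) ((k : ℝ) / s + ε) := by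
    rintro β ⟨h1, h2, k, h3, h4, h5⟩
    rw [Set.mem_iUnion₂]
    refine ⟨k, ?_, h4, h5⟩
    rw [Finset.mem_Icc]
    constructor
    · rw [Int.ceil_le, ← le_div_iff₀ hs]
      exact h3
    · rw [Int.le_floor, ← div_le_iff₀ hs]
      linarith
  have hfin : volume (⋃ k ∈ Finset.Icc ⌈u * s⌉ ⌊v * s⌋, Set.Icc ((k : ℝ) / s) ((k : ℝ) / s + ε)) ≠ ⊤ := by
    refine (lt_of_le_of_lt (measure_biUnion_finset_le _ _) ?_).ne
    refine ENNReal.sum_lt_top.2 fun k _ => ?_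
    rw [Real.volume_Icc]
    exact ENNReal.ofReal_lt_top
  refine (measureReal_mono hsub hfin).trans ((measureReal_biUnion_finset_le _ _).trans ?_)
  have h1 : ∀ k ∈ Finset.Icc ⌈u * s⌉ ⌊v * s⌋, volume.real (Set.Icc ((k : ℝ) / s) ((k : ℝ) / s + ε)) ≤ ε := by
    intro k _
    rw [measureReal_def, Real.volume_Icc, ENNReal.toReal_ofReal (by linarith)]
    linarith
  refine (sum_le_sum h1).trans ?_
  rw [sum_const, nsmul_eq_mul]
  refine mul_le_mul_of_nonneg_right ?_ hε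
  rw [Int.card_Icc]
  have h2 : (⌊v * s⌋ : ℝ) ≤ v * s := Int.floor_le _
  have h3 : u * s ≤ (⌈u * s⌉ : ℝ) := Int.le_ceil _
  rcases le_or_gt (⌊v * s⌋ + 1 - ⌈u * s⌉) 0 with h4 | h4
  · rw [Int.toNat_of_nonpos h4]
    have : 0 ≤ (v - u) * s := mul_nonneg (by linarith) hs.le
    push_cast
    linarith
  · have h5 : (((⌊v * s⌋ + 1 - ⌈u * s⌉).toNat : ℤ) : ℝ) = (⌊v * s⌋ : ℝ) + 1 - ⌈u * s⌉ := by
      rw [Int.toNat_of_nonneg h4.le]
      push_cast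
      ring
    have h6 : (((⌊v * s⌋ + 1 - ⌈u * s⌉).toNat : ℕ) : ℝ) = (⌊v * s⌋ : ℝ) + 1 - ⌈u * s⌉ := by
      rw [← h5]
      norm_cast
    rw [h6]
    linarith

/-- the interval of the measure `mu` -/
lemma mu_real {b m A0 B0 : ℕ} (S : Set ℝ) (hS : MeasurableSet S) :
    (mu b m A0 B0).real S =
      volume.real (Set.Ioc ((A0 : ℝ) / (b : ℝ) ^ m) ((B0 : ℝ) / (b : ℝ) ^ m) ∩ S) := by
  unfold mu
  rw [measureReal_restrict_apply hS, Set.inter_comm]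

lemma mu_real_le {b m A0 B0 : ℕ} (S : Set ℝ) (hS : MeasurableSet S) :
    (mu b m A0 B0).real S ≤
      volume.real (Set.Icc ((A0 : ℝ) / (b : ℝ) ^ m) ((B0 : ℝ) / (b : ℝ) ^ m) ∩ S) := by
  rw [mu_real S hS]
  exact measureReal_mono (Set.inter_subset_inter_left _ Set.Ioc_subset_Icc_self) (vol_fin _ _ _)

/-- the event changes in few cells -/
lemma loc_real {α : ℝ} (hα : 1 < α) {Λ : ℕ} (hΛ : α ≤ 2 ^ Λ) (m A0 B0 : ℕ) (hAB : A0 < B0)
    (p t : ℕ) (hmt : m ≤ t) :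
    (mu 2 m A0 B0).real (Ch 2 (Er α) p t) ≤ (mu 2 m A0 B0).real Set.univ *
      (1 * (((2 : ℕ) : ℝ) ^ (Λ * p) + ((2 : ℕ) : ℝ) ^ m) / ((2 : ℕ) : ℝ) ^ t) := by
  have hs : 0 < α ^ p := pow_pos (by linarith) p
  have h2t : (0 : ℝ) < ((2 : ℕ) : ℝ) ^ t := by positivity
  have h2m : (0 : ℝ) < ((2 : ℕ) : ℝ) ^ m := by positivity
  set u := (A0 : ℝ) / ((2 : ℕ) : ℝ) ^ m with hu
  set v := (B0 : ℝ) / ((2 : ℕ) : ℝ) ^ m with hv
  have hu0 : 0 ≤ u := by positivity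
  have huv : u ≤ v := by
    rw [hu, hv]
    gcongr
  rw [mu_real _ (Ch_measurable 2 (Er_measurable α) p t)]
  have hsub : Set.Ioc u v ∩ Ch 2 (Er α) p t ⊆ {β : ℝ | u ≤ β ∧ β ≤ v ∧ ∃ k : ℤ, u ≤ (k : ℝ) / α ^ p ∧
      (k : ℝ) / α ^ p ≤ β ∧ β ≤ (k : ℝ) / α ^ p + 1 / ((2 : ℕ) : ℝ) ^ t} := by
    rintro β ⟨⟨h1, h2⟩, h3⟩
    have hβ : 0 < β := lt_of_le_of_lt hu0 h1
    obtain ⟨h4, h5⟩ := NB_spec (b := 2) le_rfl hβ t
    set r := rd 2 t β with hr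
    have hrβ : r < β := by
      rw [hr, rd, div_lt_iff₀ h2t]
      exact h4
    have hβr : β ≤ r + 1 / ((2 : ℕ) : ℝ) ^ t := by
      rw [hr, rd, ← add_div, le_div_iff₀ h2t]
      exact h5
    have hur : u ≤ r := by
      rw [hr, rd, hu, scale (b := 2) le_rfl hmt A0]
      refine div_le_div_of_nonneg_right ?_ h2t.le
      have h6 : ((A0 * 2 ^ (t - m) : ℕ) : ℝ) < ((NB 2 β t + 1 : ℕ) : ℝ) := by
        have h7 := h1
        rw [hu, scale (b := 2) le_rfl hmt A0, div_lt_iff₀ h2t] at h7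
        push_cast at h7 h5 ⊢
        linarith
      have h7 : A0 * 2 ^ (t - m) < NB 2 β t + 1 := by exact_mod_cast h6
      exact_mod_cast Nat.lt_succ_iff.1 h7
    have hr0 : 0 ≤ r := hu0.trans hur
    have hne : ⌊r * α ^ p⌋₊ ≠ ⌊β * α ^ p⌋₊ := by
      intro h6
      apply h3
      show (roughPart p ⌊β * α ^ p⌋₊).Prime ↔ (roughPart p ⌊r * α ^ p⌋₊).Prime
      rw [h6]
    have hle : ⌊r * α ^ p⌋₊ ≤ ⌊β * α ^ p⌋₊ := Nat.floor_le_floor (by gcongr)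
    have hlt : ⌊r * α ^ p⌋₊ < ⌊β * α ^ p⌋₊ := lt_of_le_of_ne hle hne
    have h6 : r * α ^ p < ⌊β * α ^ p⌋₊ := (Nat.floor_lt (by positivity)).1 hlt
    have h7 : (⌊β * α ^ p⌋₊ : ℝ) ≤ β * α ^ p := Nat.floor_le (by positivity)
    refine ⟨h1.le, h2, (⌊β * α ^ p⌋₊ : ℤ), ?_, ?_, ?_⟩
    · push_cast
      rw [le_div_iff₀ hs]
      exact le_trans (by gcongr) h6.le
    · push_cast
      rw [div_le_iff₀ hs]
      exact h7
    · push_cast
      have h8 : r ≤ (⌊β * α ^ p⌋₊ : ℝ) / α ^ p := by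
        rw [le_div_iff₀ hs]
        exact h6.le
      linarith
  have hfin : volume {β : ℝ | u ≤ β ∧ β ≤ v ∧ ∃ k : ℤ, u ≤ (k : ℝ) / α ^ p ∧
      (k : ℝ) / α ^ p ≤ β ∧ β ≤ (k : ℝ) / α ^ p + 1 / ((2 : ℕ) : ℝ) ^ t} ≠ ⊤ :=
    ne_top_of_le_ne_top (b := volume (Set.Icc u v))
      (by rw [Real.volume_Icc]; exact ENNReal.ofReal_ne_top)
      (measure_mono fun β hβ => ⟨hβ.1, hβ.2.1⟩)
  refine (measureReal_mono hsub hfin).trans ((vol_after hs huv (by positivity)).trans ?_)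
  have hmass : (mu 2 m A0 B0).real Set.univ = v - u := by
    rw [mass hAB.le, hu, hv, ← sub_div, Nat.cast_sub hAB.le]
  rw [hmass, one_mul]
  have h1 : 1 ≤ (v - u) * ((2 : ℕ) : ℝ) ^ m := by
    rw [hu, hv, ← sub_div, div_mul_cancel₀ _ h2m.ne']
    have : ((A0 + 1 : ℕ) : ℝ) ≤ B0 := by exact_mod_cast hAB
    push_cast at this
    linarith
  have h2 : α ^ p ≤ ((2 : ℕ) : ℝ) ^ (Λ * p) := by
    rw [pow_mul]
    push_cast
    exact pow_le_pow_left₀ (by linarith) hΛ p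
  have h3 : 0 ≤ v - u := by linarith
  calc ((v - u) * α ^ p + 1) * (1 / ((2 : ℕ) : ℝ) ^ t)
      ≤ ((v - u) * ((2 : ℕ) : ℝ) ^ (Λ * p) + (v - u) * ((2 : ℕ) : ℝ) ^ m) *
        (1 / ((2 : ℕ) : ℝ) ^ t) := by
        refine mul_le_mul_of_nonneg_right ?_ (by positivity)
        have := mul_le_mul_of_nonneg_left h2 h3
        linarith
    _ = _ := by ring

end Pool.Agent.U776.PG
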