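import Mathlib
import Pool.Agent.U776.PG.G1

set_option autoImplicit false

/-!
# Real bases: one event and two distant events
-/

namespace Pool.Agent.U776.PG

open MeasureTheory Finset Filter Topology
open Pool.Agent.H305R2 (roughPart ff)
open Pool.Agent.N176.GP (NB NB_spec NB_div sum_cells)
open Pool.Agent.U776.PL

lemma pow_ge_exp {α : ℝ} (hα : 1 < α) {q k : ℕ} (h : q ≤ 4 * k) :
    Real.exp (Real.log α / 4 * q) ≤ α ^ k := by
  have hl : 0 ≤ Real.log α := Real.log_nonneg hα.le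
  have h1 : α ^ k = Real.exp (Real.log α * k) := by
    rw [mul_comm, Real.exp_nat_mul, Real.exp_log (by linarith)]
  rw [h1, Real.exp_le_exp]
  have h2 : (q : ℝ) ≤ 4 * k := by exact_mod_cast h
  nlinarith

/-- the number of integers with prime rough part -/
lemma count_up {c : ℝ} (hc : 0 < c) : ∃ C : ℝ, 0 < C ∧ ∃ P : ℕ, ∀ q ≥ P, ∀ a b : ℝ, 1 ≤ a →
    Real.exp (c * q) ≤ b - a →
    (((Ico ⌊a⌋₊ (⌊b⌋₊ + 1)).filter (fun n => (roughPart q n).Prime)).card : ℝ) ≤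
      C * wt q * (b - a) := by
  obtain ⟨C0, hC0, P, hP⟩ := interval_up hc
  refine ⟨4 * C0, by positivity, P, fun q hq a b ha hab => ?_⟩
  have h1 : 1 ≤ ⌊a⌋₊ := Nat.le_floor (by exact_mod_cast ha)
  have hexp : 1 ≤ Real.exp (c * q) := Real.one_le_exp (by positivity)
  have hb0 : a ≤ b := by linarith
  have h2 : ⌊a⌋₊ ≤ ⌊b⌋₊ := Nat.floor_le_floor hb0
  set H := ⌊b⌋₊ + 2 - ⌊a⌋₊ with hH
  have hH' : (H : ℝ) = ⌊b⌋₊ + 2 - ⌊a⌋₊ := by
    rw [hH, Nat.cast_sub (by omega)]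
    push_cast
    ring
  have f1 : (⌊a⌋₊ : ℝ) ≤ a := Nat.floor_le (by linarith)
  have f2 : a < ⌊a⌋₊ + 1 := Nat.lt_floor_add_one a
  have f3 : (⌊b⌋₊ : ℝ) ≤ b := Nat.floor_le (by linarith)
  have f4 : b < ⌊b⌋₊ + 1 := Nat.lt_floor_add_one b
  have h3 := hP q hq (⌊a⌋₊ - 1) H (by rw [hH']; linarith)
  have hsub : (Ico ⌊a⌋₊ (⌊b⌋₊ + 1)).filter (fun n => (roughPart q n).Prime) ⊆
      (Ioc (⌊a⌋₊ - 1) (⌊a⌋₊ - 1 + H)).filter (fun n => (roughPart q n).Prime) := by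
    intro n hn
    rw [mem_filter, mem_Ico] at hn
    rw [mem_filter, mem_Ioc]
    refine ⟨?_, hn.2⟩
    omega
  have h4 : (((Ico ⌊a⌋₊ (⌊b⌋₊ + 1)).filter (fun n => (roughPart q n).Prime)).card : ℝ) ≤
      C0 * (Real.log q / q) * H := le_trans (by exact_mod_cast card_le_card hsub) h3
  refine h4.trans ?_
  have h5 : (H : ℝ) ≤ 4 * (b - a) := by rw [hH']; linarith
  have h6 := wt_nonneg q
  unfold wt at h6 ⊢
  calc C0 * (Real.log q / q) * H ≤ C0 * (Real.log q / q) * (4 * (b - a)) :=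
        mul_le_mul_of_nonneg_left h5 (by positivity)
    _ = _ := by ring

/-- the measure of one event in an interval -/
lemma int_up {α : ℝ} (hα : 1 < α) {c : ℝ} (hc : 0 < c) : ∃ C : ℝ, 0 < C ∧ ∃ P : ℕ, ∀ q ≥ P,
    ∀ u v : ℝ, 0 ≤ u → 1 ≤ u * α ^ q → Real.exp (c * q) ≤ (v - u) * α ^ q →
    volume.real (Set.Icc u v ∩ Er α q) ≤ C * wt q * (v - u) := by
  obtain ⟨C, hC, P, hP⟩ := count_up hc
  refine ⟨C, hC, P, fun q hq u v hu h1 h2 => ?_⟩
  have hs : 0 < α ^ q := pow_pos (by linarith) q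
  have huv : u ≤ v := by
    have h3 : 0 < (v - u) * α ^ q := lt_of_lt_of_le (Real.exp_pos _) h2
    have h4 : 0 < v - u := (pos_iff_pos_of_mul_pos h3).2 hs
    linarith
  have h3 := vol_le hs (fun n => (roughPart q n).Prime) hu huv
  have h4 := hP q hq (u * α ^ q) (v * α ^ q) h1 (by rw [← sub_mul]; exact h2)
  rw [← sub_mul] at h4
  have h5 : volume.real (Set.Icc u v ∩ Er α q) ≤ C * wt q * ((v - u) * α ^ q) / α ^ q :=
    h3.trans (div_le_div_of_nonneg_right h4 hs.le)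
  refine h5.trans (le_of_eq ?_)
  field_simp

/-- the conditions on the level -/
lemma level {α : ℝ} (hα : 1 < α) {L : ℕ} (hL1 : 1 ≤ L) (hL : 2 ≤ α ^ L) {m p : ℕ}
    (hp : 2 * L * (m + 1) ≤ p) {A0 B0 : ℕ} (hA0 : 1 ≤ A0) (hAB : A0 < B0) :
    1 ≤ (A0 : ℝ) / ((2 : ℕ) : ℝ) ^ m * α ^ p ∧
    Real.exp (Real.log α / 4 * p) ≤
      ((B0 : ℝ) / ((2 : ℕ) : ℝ) ^ m - (A0 : ℝ) / ((2 : ℕ) : ℝ) ^ m) * α ^ p := by
  have h2m : (0 : ℝ) < ((2 : ℕ) : ℝ) ^ m := by positivity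
  have hmL : L * m ≤ p := by nlinarith
  have h1 : ((2 : ℕ) : ℝ) ^ m * α ^ (p - L * m) ≤ α ^ p := by
    have h2 : ((2 : ℕ) : ℝ) ^ m ≤ α ^ (L * m) := by
      rw [pow_mul]
      push_cast
      exact pow_le_pow_left₀ (by norm_num) hL m
    have h3 : α ^ p = α ^ (L * m) * α ^ (p - L * m) := by
      rw [← pow_add]; congr 1; omega
    rw [h3]
    exact mul_le_mul_of_nonneg_right h2 (by have := pow_pos (show (0:ℝ) < α by linarith) (p - L * m); exact this.le)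
  have h4 : α ^ (p - L * m) ≤ α ^ p / ((2 : ℕ) : ℝ) ^ m := by
    rw [le_div_iff₀ h2m]
    linarith
  have h5 : Real.exp (Real.log α / 4 * p) ≤ α ^ (p - L * m) := by
    refine pow_ge_exp hα ?_
    have h6 : 2 * (L * m) ≤ p := by nlinarith
    omega
  have h7 : 1 ≤ Real.exp (Real.log α / 4 * p) := Real.one_le_exp (by
    have := Real.log_nonneg hα.le
    positivity)
  have hs : 0 < α ^ p := pow_pos (by linarith) p
  have hA : (1 : ℝ) ≤ A0 := by exact_mod_cast hA0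
  have hB : (1 : ℝ) ≤ (B0 : ℝ) - A0 := by
    have : ((A0 + 1 : ℕ) : ℝ) ≤ B0 := by exact_mod_cast hAB
    push_cast at this
    linarith
  constructor
  · calc (1 : ℝ) ≤ α ^ p / ((2 : ℕ) : ℝ) ^ m := by linarith
      _ ≤ A0 * (α ^ p / ((2 : ℕ) : ℝ) ^ m) := le_mul_of_one_le_left (by positivity) hA
      _ = _ := by ring
  · calc _ ≤ α ^ p / ((2 : ℕ) : ℝ) ^ m := h5.trans h4
      _ ≤ ((B0 : ℝ) - A0) * (α ^ p / ((2 : ℕ) : ℝ) ^ m) := le_mul_of_one_le_left (by positivity) hB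
      _ = _ := by ring

lemma mass_real {m A0 B0 : ℕ} (hAB : A0 < B0) : (mu 2 m A0 B0).real Set.univ =
    (B0 : ℝ) / ((2 : ℕ) : ℝ) ^ m - (A0 : ℝ) / ((2 : ℕ) : ℝ) ^ m := by
  rw [mass hAB.le, ← sub_div, Nat.cast_sub hAB.le]

/-- one event -/
lemma one_real {α : ℝ} (hα : 1 < α) {L : ℕ} (hL1 : 1 ≤ L) (hL : 2 ≤ α ^ L) :
    ∃ C : ℝ, 0 < C ∧ ∃ P : ℕ, ∀ m A0 B0 : ℕ, 1 ≤ A0 → A0 < B0 → ∀ p ≥ P, 2 * L * (m + 1) ≤ p →
    (mu 2 m A0 B0).real (Er α p) ≤ (mu 2 m A0 B0).real Set.univ * (C * wt p) := by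
  have hlog : 0 < Real.log α := Real.log_pos hα
  obtain ⟨C, hC, P, hP⟩ := int_up hα (c := Real.log α / 4) (by positivity)
  refine ⟨C, hC, P, fun m A0 B0 hA0 hAB p hp hmp => ?_⟩
  obtain ⟨h1, h2⟩ := level hα hL1 hL hmp hA0 hAB
  rw [mass_real hAB]
  refine (mu_real_le _ (Er_measurable α p)).trans ((hP p hp _ _ (by positivity) h1 h2).trans
    (le_of_eq (by ring)))

/-- two distant events -/
lemma far_real {α : ℝ} (hα : 1 < α) {L : ℕ} (hL1 : 1 ≤ L) (hL : 2 ≤ α ^ L) :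
    ∃ C : ℝ, 0 < C ∧ ∃ P : ℕ, ∀ m A0 B0 : ℕ, 1 ≤ A0 → A0 < B0 → ∀ p ≥ P, 2 * L * (m + 1) ≤ p →
    ∀ q : ℕ, 2 * p - 1 ≤ q → (mu 2 m A0 B0).real (Er α p ∩ Er α q) ≤
      (mu 2 m A0 B0).real Set.univ * (C * (wt p * wt q)) := by
  classical
  have hlog : 0 < Real.log α := Real.log_pos hα
  obtain ⟨C, hC, P, hP⟩ := int_up hα (c := Real.log α / 4) (by positivity)
  obtain ⟨C1, hC1, P1, hP1⟩ := count_up (c := Real.log α / 4) (by positivity)
  refine ⟨C1 * C, by positivity, P + P1 + 2, fun m A0 B0 hA0 hAB p hp hmp q hq => ?_⟩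
  obtain ⟨h1, h2⟩ := level hα hL1 hL hmp hA0 hAB
  rw [mass_real hAB]
  have hs : 0 < α ^ p := pow_pos (by linarith) p
  have hα0 : 0 < α := by linarith
  set u := (A0 : ℝ) / ((2 : ℕ) : ℝ) ^ m with hu
  set v := (B0 : ℝ) / ((2 : ℕ) : ℝ) ^ m with hv
  have hu0 : 0 ≤ u := by positivity
  have huv : u ≤ v := by
    rw [hu, hv]
    gcongr
  refine (mu_real_le _ ((Er_measurable α p).inter (Er_measurable α q))).trans ?_
  set N := (Ico ⌊u * α ^ p⌋₊ (⌊v * α ^ p⌋₊ + 1)).filter (fun n => (roughPart p n).Prime) with hN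
  have hsub : Set.Icc u v ∩ (Er α p ∩ Er α q) ⊆
      ⋃ n ∈ N, Set.Icc ((n : ℝ) / α ^ p) (((n : ℝ) + 1) / α ^ p) ∩ Er α q := by
    rintro x ⟨⟨h3, h4⟩, h5, h6⟩
    have hx : 0 ≤ x := hu0.trans h3
    rw [Set.mem_iUnion₂]
    refine ⟨⌊x * α ^ p⌋₊, ?_, ⟨?_, ?_⟩, h6⟩
    · rw [hN, mem_filter, mem_Ico]
      refine ⟨⟨Nat.floor_le_floor (by gcongr), ?_⟩, h5⟩
      exact Nat.lt_succ_of_le (Nat.floor_le_floor (by gcongr))
    · rw [div_le_iff₀ hs]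
      exact Nat.floor_le (by positivity)
    · rw [le_div_iff₀ hs]
      exact (Nat.lt_floor_add_one _).le
  have hfin : volume (⋃ n ∈ N, Set.Icc ((n : ℝ) / α ^ p) (((n : ℝ) + 1) / α ^ p) ∩ Er α q) ≠ ⊤ := by
    refine (lt_of_le_of_lt (measure_biUnion_finset_le _ _) ?_).ne
    exact ENNReal.sum_lt_top.2 fun n _ => (vol_fin _ _ _).lt_top
  refine (measureReal_mono hsub hfin).trans ((measureReal_biUnion_finset_le _ _).trans ?_)
  have h3 : ∀ n ∈ N, volume.real (Set.Icc ((n : ℝ) / α ^ p) (((n : ℝ) + 1) / α ^ p) ∩ Er α q) ≤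
      C * wt q * (1 / α ^ p) := by
    intro n hn
    rw [hN, mem_filter, mem_Ico] at hn
    have hn1 : 1 ≤ n := le_trans (Nat.le_floor (by exact_mod_cast h1)) hn.1.1
    have hn1' : (1 : ℝ) ≤ n := by exact_mod_cast hn1
    have hqp : α ^ q = α ^ p * α ^ (q - p) := by
      rw [← pow_add]; congr 1; omega
    have hqp1 : 1 ≤ α ^ (q - p) := one_le_pow₀ hα.le
    have h4 := hP q (by omega) ((n : ℝ) / α ^ p) (((n : ℝ) + 1) / α ^ p) (by positivity) (by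
      rw [hqp]
      have : (n : ℝ) / α ^ p * (α ^ p * α ^ (q - p)) = n * α ^ (q - p) := by field_simp
      rw [this]
      nlinarith) (by
      rw [hqp]
      have : (((n : ℝ) + 1) / α ^ p - (n : ℝ) / α ^ p) * (α ^ p * α ^ (q - p)) = α ^ (q - p) := by
        field_simp
        ring
      rw [this]
      exact pow_ge_exp hα (by omega))
    refine h4.trans (le_of_eq ?_)
    congr 1
    field_simp
    ring
  refine (sum_le_sum h3).trans ?_
  rw [sum_const, nsmul_eq_mul]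
  have h4 := hP1 p (by omega) (u * α ^ p) (v * α ^ p) h1 (by rw [← sub_mul]; exact h2)
  rw [← sub_mul] at h4
  have h5 := wt_nonneg q
  calc (N.card : ℝ) * (C * wt q * (1 / α ^ p)) ≤
      (C1 * wt p * ((v - u) * α ^ p)) * (C * wt q * (1 / α ^ p)) :=
        mul_le_mul_of_nonneg_right h4 (by positivity)
    _ = _ := by
        field_simp

end Pool.Agent.U776.PG
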