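import Mathlib
import Pool.Agent.U776.PG.G2

set_option autoImplicit false

/-!
# Real bases: two close events
-/

namespace Pool.Agent.U776.PG

open MeasureTheory Finset Filter Topology
open Pool.Agent.H305R2 (roughPart ff)
open Pool.Agent.N176.GP (NB NB_spec NB_div sum_cells grow)
open Pool.Agent.N176.GW (S_K S_RB hits lv Big cell)
open Pool.Agent.U776.PL

/-- the integer of the lower level -/
lemma lv_or {α : ℝ} (hα : 1 < α) {r t : ℕ} (hrt : r ≤ t) {β : ℝ} (hβ : 0 ≤ β) :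
    ⌊β * α ^ r⌋₊ = lv α (fun _ => 0) t r ⌊β * α ^ t⌋₊ ∨
    ∃ k : ℤ, β - 1 / α ^ t ≤ (k : ℝ) / α ^ r ∧ (k : ℝ) / α ^ r ≤ β ∧
      β ≤ (k : ℝ) / α ^ r + 1 / α ^ t := by
  have hα0 : 0 < α := by linarith
  have hs : 0 < α ^ r := pow_pos hα0 r
  have ht : 0 < α ^ t := pow_pos hα0 t
  have htr : 0 < α ^ (t - r) := pow_pos hα0 _
  have e : α ^ t = α ^ r * α ^ (t - r) := by rw [← pow_add]; congr 1; omega
  set n := ⌊β * α ^ t⌋₊ with hn
  have f1 : (n : ℝ) ≤ β * α ^ t := Nat.floor_le (by positivity)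
  have f2 : β * α ^ t < n + 1 := Nat.lt_floor_add_one _
  have g1 : (n : ℝ) / α ^ (t - r) ≤ β * α ^ r := by
    rw [div_le_iff₀ htr, mul_assoc, ← e]
    exact f1
  have hle : lv α (fun _ => 0) t r n ≤ ⌊β * α ^ r⌋₊ := by
    unfold lv
    rw [add_zero]
    exact Nat.floor_le_floor g1
  rcases hle.eq_or_lt with h | h
  · exact Or.inl h.symm
  · right
    unfold lv at h
    rw [add_zero] at h
    have h1 : (n : ℝ) / α ^ (t - r) < ⌊β * α ^ r⌋₊ := (Nat.floor_lt (by positivity)).1 h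
    have h2 : (⌊β * α ^ r⌋₊ : ℝ) ≤ β * α ^ r := Nat.floor_le (by positivity)
    have h3 : β ≤ (⌊β * α ^ r⌋₊ : ℝ) / α ^ r + 1 / α ^ t := by
      rw [div_lt_iff₀ htr] at h1
      have h4 : (⌊β * α ^ r⌋₊ : ℝ) / α ^ r + 1 / α ^ t =
          ((⌊β * α ^ r⌋₊ : ℝ) * α ^ (t - r) + 1) / α ^ t := by
        rw [e]
        field_simp
      rw [h4, le_div_iff₀ ht]
      linarith
    refine ⟨(⌊β * α ^ r⌋₊ : ℤ), ?_, ?_, ?_⟩
    · push_cast
      linarith
    · push_cast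
      rw [div_le_iff₀ hs]
      exact h2
    · push_cast
      exact h3

/-- two close events in a cell -/
lemma near_cell {α : ℝ} (hα : 1 < α) (hK : S_K α (fun _ => 0)) (hRB : S_RB α (fun _ => 0)) :
    ∃ C : ℝ, 0 < C ∧ ∃ P : ℕ, ∀ p ≥ P, ∀ q > p, q < 2 * p - 1 → ∀ z : ℕ, 64 * z ≤ p - 1 →
    ∀ j : ℕ, 1 ≤ j → (j : ℝ) ≤ α ^ (2 * z) →
    volume.real (Set.Ico ((j : ℝ) / α ^ z) (((j : ℝ) + 1) / α ^ z) ∩ (Er α p ∩ Er α q)) ≤
      C * (wt p * wt q) / α ^ z := by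
  classical
  obtain ⟨C, hC, P1, h1⟩ := hK
  obtain ⟨d, hd, P2, h2⟩ := hRB
  have hα0 : 0 < α := by linarith
  have hlog : 0 < Real.log α := Real.log_pos hα
  obtain ⟨P3, h3⟩ := eventually_atTop.1 ((grow d 1 hd).and (grow (Real.log α) 1 hlog))
  obtain ⟨P4, h4⟩ := eventually_atTop.1 ((Real.tendsto_log_atTop.comp
    (tendsto_natCast_atTop_atTop (R := ℝ))).eventually_ge_atTop 4)
  refine ⟨4 * (4 * C ^ 2 + 7), by positivity, P1 + P2 + P3 + P4 + 5,
    fun p hp q hpq hq z hz j hj1 hj2 => ?_⟩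
  set x := p - 1 with hx
  have hxp : p = x + 1 := by omega
  have hx4 : 4 ≤ x := by omega
  have hx0 : (0 : ℝ) < x := by exact_mod_cast (by omega : 0 < x)
  have hlx : 4 ≤ Real.log x := h4 x (by omega)
  set t := 4 * x with ht
  have hαt : 0 < α ^ t := pow_pos hα0 t
  have hαz : 0 < α ^ z := pow_pos hα0 z
  have hzt : z ≤ t := by omega
  set F : Finset ℕ := {p, q} with hF
  have hFc : F.card = 2 := by
    rw [hF, card_pair (by omega)]
  have hFx : ∀ r ∈ F, x < r ∧ r ≤ 2 * x := by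
    intro r hr
    rw [hF, mem_insert, mem_singleton] at hr
    rcases hr with rfl | rfl <;> omega
  have k1 := h1 x (by omega) F ⟨p, by rw [hF]; simp⟩ hFx (by rw [hFc]; push_cast; linarith) z hz t
    (by omega) j hj1 hj2
  have k2 := h2 x (by omega) F hFx z hz t (by omega) j hj1 hj2
  -- the sets
  set ε : ℝ := 1 / α ^ t with hε
  have hε0 : 0 < ε := by positivity
  set u : ℝ := (j : ℝ) / α ^ z with hu
  set v : ℝ := ((j : ℝ) + 1) / α ^ z with hv
  have hu0 : 0 ≤ u := by positivity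
  have huv : u ≤ v := by
    rw [hu, hv]
    gcongr
    linarith
  set D : Finset ℕ := (cell α z t j).filter (fun m => ¬ Big α (fun _ => 0) F t x m ∧
    F ⊆ hits α (fun _ => 0) F t m) with hD
  set D' : Finset ℕ := (cell α z t j).filter (fun m => Big α (fun _ => 0) F t x m) with hD'
  have hsub : Set.Ico u v ∩ (Er α p ∩ Er α q) ⊆
      (Set.Icc u v ∩ {β | ⌊β * α ^ t⌋₊ ∈ D ∪ D'}) ∪
      ({β : ℝ | u - ε ≤ β ∧ β ≤ v ∧ ∃ k : ℤ, u - ε ≤ (k : ℝ) / α ^ p ∧ (k : ℝ) / α ^ p ≤ β ∧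
        β ≤ (k : ℝ) / α ^ p + ε} ∪
      {β : ℝ | u - ε ≤ β ∧ β ≤ v ∧ ∃ k : ℤ, u - ε ≤ (k : ℝ) / α ^ q ∧ (k : ℝ) / α ^ q ≤ β ∧
        β ≤ (k : ℝ) / α ^ q + ε}) := by
    rintro β ⟨⟨h5, h6⟩, h7, h8⟩
    have hβ : 0 ≤ β := hu0.trans h5
    rcases lv_or hα (show p ≤ t by omega) hβ with h9 | ⟨k, h9, h10, h11⟩
    · rcases lv_or hα (show q ≤ t by omega) hβ with h12 | ⟨k, h12, h13, h14⟩
      · left
        refine ⟨⟨h5, h6.le⟩, ?_⟩
        have hcell : ⌊β * α ^ t⌋₊ ∈ cell α z t j := by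
          unfold cell
          have e : α ^ t = α ^ z * α ^ (t - z) := by rw [← pow_add]; congr 1; omega
          have htz : 0 < α ^ (t - z) := pow_pos hα0 _
          rw [mem_Ico]
          constructor
          · refine Nat.floor_le_floor ?_
            rw [e, ← mul_assoc]
            refine mul_le_mul_of_nonneg_right ?_ htz.le
            rw [← div_le_iff₀ hαz]
            exact h5
          · rw [Nat.lt_ceil]
            refine lt_of_le_of_lt (Nat.floor_le (by positivity)) ?_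
            rw [e, ← mul_assoc]
            refine mul_lt_mul_of_pos_right ?_ htz
            rw [← lt_div_iff₀ hαz]
            exact h6
        have hhits : F ⊆ hits α (fun _ => 0) F t ⌊β * α ^ t⌋₊ := by
          intro r hr
          unfold hits
          rw [mem_filter]
          refine ⟨hr, ?_⟩
          rw [hF, mem_insert, mem_singleton] at hr
          rcases hr with rfl | rfl
          · rw [← h9]; exact h7
          · rw [← h12]; exact h8
        show ⌊β * α ^ t⌋₊ ∈ D ∪ D'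
        rw [mem_union, hD, hD', mem_filter, mem_filter]
        by_cases hB : Big α (fun _ => 0) F t x ⌊β * α ^ t⌋₊
        · exact Or.inr ⟨hcell, hB⟩
        · exact Or.inl ⟨hcell, hB, hhits⟩
      · right; right
        exact ⟨by linarith, h6.le, k, by linarith, h13, h14⟩
    · right; left
      exact ⟨by linarith, h6.le, k, by linarith, h10, h11⟩
  -- measures
  have m1 : volume.real (Set.Icc u v ∩ {β | ⌊β * α ^ t⌋₊ ∈ D ∪ D'}) ≤
      ((D.card : ℝ) + D'.card) / α ^ t := by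
    refine (vol_le hαt (fun n => n ∈ D ∪ D') hu0 huv).trans ?_
    refine div_le_div_of_nonneg_right ?_ hαt.le
    have h5 : (Ico ⌊u * α ^ t⌋₊ (⌊v * α ^ t⌋₊ + 1)).filter (fun n => n ∈ D ∪ D') ⊆ D ∪ D' :=
      fun n hn => (mem_filter.1 hn).2
    have h6 := (card_le_card h5).trans (card_union_le D D')
    exact_mod_cast h6
  have m2 : ∀ r : ℕ, r ≤ 2 * x → volume.real {β : ℝ | u - ε ≤ β ∧ β ≤ v ∧ ∃ k : ℤ,
      u - ε ≤ (k : ℝ) / α ^ r ∧ (k : ℝ) / α ^ r ≤ β ∧ β ≤ (k : ℝ) / α ^ r + ε} ≤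
      3 * (1 / α ^ x) / α ^ z := by
    intro r hr
    have hsr : 0 < α ^ r := pow_pos hα0 r
    refine (vol_after hsr (show u - ε ≤ v by linarith) hε0.le).trans ?_
    have e1 : v - (u - ε) = 1 / α ^ z + ε := by
      rw [hu, hv]
      field_simp
      ring
    rw [e1]
    have h5 : α ^ r ≤ α ^ (2 * x) := pow_le_pow_right₀ hα.le hr
    have h6 : 1 / α ^ z ≤ 1 := by
      rw [div_le_one hαz]
      exact one_le_pow₀ hα.le
    have h7 : ε ≤ 1 := by
      rw [hε, div_le_one hαt]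
      exact one_le_pow₀ hα.le
    have h8 : 1 ≤ α ^ (2 * x) := one_le_pow₀ hα.le
    have h9 : (1 / α ^ z + ε) * α ^ r + 1 ≤ 3 * α ^ (2 * x) := by
      have : (1 / α ^ z + ε) * α ^ r ≤ 2 * α ^ (2 * x) :=
        mul_le_mul (by linarith) h5 hsr.le (by norm_num)
      linarith
    calc ((1 / α ^ z + ε) * α ^ r + 1) * ε ≤ 3 * α ^ (2 * x) * ε :=
          mul_le_mul_of_nonneg_right h9 hε0.le
      _ = 3 / α ^ (2 * x) := by
          have e2 : α ^ t = α ^ (2 * x) * α ^ (2 * x) := by rw [← pow_add]; congr 1; omega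
          rw [hε, e2]
          field_simp
      _ ≤ 3 / (α ^ x * α ^ z) := by
          refine div_le_div_of_nonneg_left (by norm_num) (by positivity) ?_
          rw [← pow_add]
          exact pow_le_pow_right₀ hα.le (by omega)
      _ = _ := by
          field_simp
  have finA : ∀ r : ℕ, volume {β : ℝ | u - ε ≤ β ∧ β ≤ v ∧ ∃ k : ℤ,
      u - ε ≤ (k : ℝ) / α ^ r ∧ (k : ℝ) / α ^ r ≤ β ∧ β ≤ (k : ℝ) / α ^ r + ε} ≠ ⊤ := fun r =>
    ne_top_of_le_ne_top (b := volume (Set.Icc (u - ε) v))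
      (by rw [Real.volume_Icc]; exact ENNReal.ofReal_ne_top)
      (measure_mono fun β hβ => ⟨hβ.1, hβ.2.1⟩)
  have hmain := measureReal_mono (μ := volume) hsub (by
    refine ne_top_of_le_ne_top ?_ (measure_union_le _ _)
    refine ENNReal.add_ne_top.2 ⟨vol_fin _ _ _, ne_top_of_le_ne_top ?_ (measure_union_le _ _)⟩
    exact ENNReal.add_ne_top.2 ⟨finA p, finA q⟩)
  have hu1 := measureReal_union_le (μ := volume) (Set.Icc u v ∩ {β | ⌊β * α ^ t⌋₊ ∈ D ∪ D'})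
      ({β : ℝ | u - ε ≤ β ∧ β ≤ v ∧ ∃ k : ℤ, u - ε ≤ (k : ℝ) / α ^ p ∧ (k : ℝ) / α ^ p ≤ β ∧
        β ≤ (k : ℝ) / α ^ p + ε} ∪
      {β : ℝ | u - ε ≤ β ∧ β ≤ v ∧ ∃ k : ℤ, u - ε ≤ (k : ℝ) / α ^ q ∧ (k : ℝ) / α ^ q ≤ β ∧
        β ≤ (k : ℝ) / α ^ q + ε})
  have hu2 := measureReal_union_le (μ := volume)
      {β : ℝ | u - ε ≤ β ∧ β ≤ v ∧ ∃ k : ℤ, u - ε ≤ (k : ℝ) / α ^ p ∧ (k : ℝ) / α ^ p ≤ β ∧
        β ≤ (k : ℝ) / α ^ p + ε}
      {β : ℝ | u - ε ≤ β ∧ β ≤ v ∧ ∃ k : ℤ, u - ε ≤ (k : ℝ) / α ^ q ∧ (k : ℝ) / α ^ q ≤ β ∧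
        β ≤ (k : ℝ) / α ^ q + ε}
  have hm2p := m2 p (by omega)
  have hm2q := m2 q (by omega)
  -- sizes
  obtain ⟨g1, g2⟩ := h3 x (by omega)
  rw [one_mul] at g1 g2
  have hx2 : (0 : ℝ) < (x : ℝ) ^ 2 := by positivity
  have hl2 : 1 ≤ Real.log x ^ 2 := one_le_pow₀ (by linarith)
  have s1 : Real.exp (-(d * x)) ≤ (Real.log x / x) ^ 2 := by
    rw [Real.exp_neg, div_pow, inv_eq_one_div, div_le_div_iff₀ (Real.exp_pos _) hx2]
    nlinarith [Real.exp_pos (d * x)]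
  have s2 : 1 / α ^ x ≤ (Real.log x / x) ^ 2 := by
    have e3 : α ^ x = Real.exp (Real.log α * x) := by
      rw [mul_comm, Real.exp_nat_mul, Real.exp_log hα0]
    rw [e3, div_pow, div_le_div_iff₀ (Real.exp_pos _) hx2]
    nlinarith [Real.exp_pos (Real.log α * x)]
  have s3 : (Real.log x / x) ^ 2 ≤ 4 * (wt p * wt q) := by
    have hlx1 : 0 ≤ Real.log x := by linarith
    have k1 : ∀ r : ℕ, x ≤ r → r ≤ 2 * x → Real.log x / x ≤ 2 * wt r := by
      intro r h5 h6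
      have hr0 : (0 : ℝ) < r := by exact_mod_cast (by omega : 0 < r)
      unfold wt
      rw [mul_div_assoc', div_le_div_iff₀ hx0 hr0]
      have h7 : (r : ℝ) ≤ 2 * x := by exact_mod_cast h6
      have h8 : Real.log x ≤ Real.log r := Real.log_le_log hx0 (by exact_mod_cast h5)
      calc Real.log x * r ≤ Real.log x * (2 * x) :=
            mul_le_mul_of_nonneg_left h7 hlx1
        _ ≤ Real.log r * (2 * x) := mul_le_mul_of_nonneg_right h8 (by positivity)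
        _ = 2 * Real.log r * x := by ring
    have h5 := k1 p (by omega) (by omega)
    have h6 := k1 q (by omega) (by omega)
    have h7 : 0 ≤ Real.log x / x := by positivity
    have h8 := wt_nonneg p
    calc (Real.log x / x) ^ 2 = (Real.log x / x) * (Real.log x / x) := by ring
      _ ≤ (2 * wt p) * (2 * wt q) := mul_le_mul h5 h6 h7 (by positivity)
      _ = _ := by ring
  have e4 : α ^ (t - z) / α ^ t = 1 / α ^ z := by
    have : α ^ t = α ^ z * α ^ (t - z) := by rw [← pow_add]; congr 1; omega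
    rw [this]
    have := pow_pos hα0 (t - z)
    field_simp
  have m3 : ((D.card : ℝ) + D'.card) / α ^ t ≤
      ((2 * C * (Real.log x / x)) ^ 2 + Real.exp (-(d * x))) / α ^ z := by
    have h5 : ((D.card : ℝ) + D'.card) ≤
        ((2 * C * (Real.log x / x)) ^ 2 + Real.exp (-(d * x))) * α ^ (t - z) := by
      rw [add_mul]
      refine add_le_add ?_ k2
      refine k1.trans (le_of_eq ?_)
      rw [hFc]
      push_cast
      ring
    calc _ ≤ (((2 * C * (Real.log x / x)) ^ 2 + Real.exp (-(d * x))) * α ^ (t - z)) / α ^ t :=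
          div_le_div_of_nonneg_right h5 hαt.le
      _ = ((2 * C * (Real.log x / x)) ^ 2 + Real.exp (-(d * x))) * (α ^ (t - z) / α ^ t) := by ring
      _ = _ := by rw [e4]; ring
  have hfin : ((2 * C * (Real.log x / x)) ^ 2 + Real.exp (-(d * x))) / α ^ z +
      2 * (3 * (1 / α ^ x) / α ^ z) ≤ 4 * (4 * C ^ 2 + 7) * (wt p * wt q) / α ^ z := by
    have e5 : ((2 * C * (Real.log x / x)) ^ 2 + Real.exp (-(d * x))) / α ^ z +
      2 * (3 * (1 / α ^ x) / α ^ z) =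
      (4 * C ^ 2 * (Real.log x / x) ^ 2 + Real.exp (-(d * x)) + 6 * (1 / α ^ x)) / α ^ z := by ring
    rw [e5]
    refine div_le_div_of_nonneg_right ?_ hαz.le
    have h5 : 4 * C ^ 2 * (Real.log x / x) ^ 2 + Real.exp (-(d * x)) + 6 * (1 / α ^ x) ≤
        (4 * C ^ 2 + 7) * (Real.log x / x) ^ 2 := by linarith
    refine h5.trans ?_
    have h6 : 0 ≤ 4 * C ^ 2 + 7 := by positivity
    calc (4 * C ^ 2 + 7) * (Real.log x / x) ^ 2 ≤ (4 * C ^ 2 + 7) * (4 * (wt p * wt q)) :=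
          mul_le_mul_of_nonneg_left s3 h6
      _ = _ := by ring
  linarith

/-- two close events -/
lemma near_real {α : ℝ} (hα : 1 < α) (hK : S_K α (fun _ => 0)) (hRB : S_RB α (fun _ => 0))
    {L : ℕ} (hL1 : 1 ≤ L) (hL : 2 ≤ α ^ L) :
    ∃ C : ℝ, 0 < C ∧ ∃ P : ℕ, ∀ m A0 B0 : ℕ, 1 ≤ A0 → A0 < B0 → B0 ≤ 2 ^ (2 * m) → ∀ p ≥ P,
    (64 * L + 1) * (m + 1) ≤ p →
    ∀ q > p, q < 2 * p - 1 → (mu 2 m A0 B0).real (Er α p ∩ Er α q) ≤
      (mu 2 m A0 B0).real Set.univ * (C * (wt p * wt q)) := by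
  classical
  obtain ⟨C, hC, P, hP⟩ := near_cell hα hK hRB
  refine ⟨3 * C, by positivity, P, fun m A0 B0 hA0 hAB hB0 p hp hmp q hpq hq => ?_⟩
  have hα0 : 0 < α := by linarith
  rw [mass_real hAB]
  set z := L * m with hz
  have hαz : 0 < α ^ z := pow_pos hα0 z
  have h2m : (0 : ℝ) < ((2 : ℕ) : ℝ) ^ m := by positivity
  have h2z : ((2 : ℕ) : ℝ) ^ m ≤ α ^ z := by
    rw [hz, pow_mul]
    push_cast
    exact pow_le_pow_left₀ (by norm_num) hL m
  set u := (A0 : ℝ) / ((2 : ℕ) : ℝ) ^ m with hu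
  set v := (B0 : ℝ) / ((2 : ℕ) : ℝ) ^ m with hv
  have hu0 : 0 ≤ u := by positivity
  have huv : u ≤ v := by
    rw [hu, hv]
    gcongr
  have hv0 : 0 ≤ v := hu0.trans huv
  have hA0' : (1 : ℝ) ≤ A0 := by exact_mod_cast hA0
  have hu1 : 1 ≤ u * α ^ z := by
    rw [hu, div_mul_eq_mul_div, le_div_iff₀ h2m, one_mul]
    nlinarith
  have hdiff : 1 ≤ (v - u) * α ^ z := by
    have h1 : (1 : ℝ) ≤ (v - u) * ((2 : ℕ) : ℝ) ^ m := by
      rw [hu, hv, ← sub_div, div_mul_cancel₀ _ h2m.ne']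
      have : ((A0 + 1 : ℕ) : ℝ) ≤ B0 := by exact_mod_cast hAB
      push_cast at this
      linarith
    have h2 : 0 ≤ v - u := by linarith
    nlinarith
  have hvz : v * α ^ z ≤ α ^ (2 * z) := by
    have h1 : v ≤ ((2 : ℕ) : ℝ) ^ m := by
      rw [hv, div_le_iff₀ h2m, ← pow_add]
      have : (B0 : ℝ) ≤ ((2 : ℕ) : ℝ) ^ (2 * m) := by exact_mod_cast hB0
      rwa [two_mul] at this
    rw [two_mul, pow_add]
    exact mul_le_mul_of_nonneg_right (h1.trans h2z) hαz.le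
  refine (mu_real_le _ ((Er_measurable α p).inter (Er_measurable α q))).trans ?_
  set J := Icc ⌊u * α ^ z⌋₊ ⌊v * α ^ z⌋₊ with hJ
  have hsub : Set.Icc u v ∩ (Er α p ∩ Er α q) ⊆
      ⋃ j ∈ J, Set.Ico ((j : ℝ) / α ^ z) (((j : ℝ) + 1) / α ^ z) ∩ (Er α p ∩ Er α q) := by
    rintro x ⟨⟨h3, h4⟩, h5⟩
    have hx : 0 ≤ x := hu0.trans h3
    rw [Set.mem_iUnion₂]
    refine ⟨⌊x * α ^ z⌋₊, ?_, ⟨?_, ?_⟩, h5⟩
    · rw [hJ, mem_Icc]
      exact ⟨Nat.floor_le_floor (by gcongr), Nat.floor_le_floor (by gcongr)⟩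
    · rw [div_le_iff₀ hαz]
      exact Nat.floor_le (by positivity)
    · rw [lt_div_iff₀ hαz]
      exact Nat.lt_floor_add_one _
  have hfin : volume (⋃ j ∈ J, Set.Ico ((j : ℝ) / α ^ z) (((j : ℝ) + 1) / α ^ z) ∩
      (Er α p ∩ Er α q)) ≠ ⊤ := by
    refine (lt_of_le_of_lt (measure_biUnion_finset_le _ _) ?_).ne
    refine ENNReal.sum_lt_top.2 fun n _ => ?_
    refine lt_of_le_of_lt (measure_mono Set.inter_subset_left) ?_
    rw [Real.volume_Ico]
    exact ENNReal.ofReal_lt_top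
  refine (measureReal_mono hsub hfin).trans ((measureReal_biUnion_finset_le _ _).trans ?_)
  have h64 : 64 * z ≤ p - 1 := by
    have h1 : 64 * (L * m) + 1 ≤ (64 * L + 1) * (m + 1) := by nlinarith
    omega
  have h3 : ∀ j ∈ J, volume.real (Set.Ico ((j : ℝ) / α ^ z) (((j : ℝ) + 1) / α ^ z) ∩
      (Er α p ∩ Er α q)) ≤ C * (wt p * wt q) / α ^ z := by
    intro j hj
    rw [hJ, mem_Icc] at hj
    have hj1 : 1 ≤ j := le_trans (Nat.le_floor (by exact_mod_cast hu1)) hj.1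
    have hj2 : (j : ℝ) ≤ α ^ (2 * z) := by
      have h4 : (j : ℝ) ≤ v * α ^ z := by
        have h5 : (j : ℝ) ≤ ⌊v * α ^ z⌋₊ := by exact_mod_cast hj.2
        exact h5.trans (Nat.floor_le (by positivity))
      exact h4.trans hvz
    exact hP p hp q hpq hq z h64 j hj1 hj2
  refine (sum_le_sum h3).trans ?_
  rw [sum_const, nsmul_eq_mul]
  have hcard : (J.card : ℝ) ≤ 3 * ((v - u) * α ^ z) := by
    rw [hJ, Nat.card_Icc]
    have h4 : ⌊u * α ^ z⌋₊ ≤ ⌊v * α ^ z⌋₊ + 1 := by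
      have : ⌊u * α ^ z⌋₊ ≤ ⌊v * α ^ z⌋₊ := Nat.floor_le_floor (by gcongr)
      omega
    rw [Nat.cast_sub h4]
    push_cast
    have h5 : (⌊v * α ^ z⌋₊ : ℝ) ≤ v * α ^ z := Nat.floor_le (by positivity)
    have h6 : u * α ^ z < ⌊u * α ^ z⌋₊ + 1 := Nat.lt_floor_add_one _
    nlinarith
  have h7 : 0 ≤ C * (wt p * wt q) / α ^ z := by
    have := wt_nonneg p
    have := wt_nonneg q
    positivity
  calc (J.card : ℝ) * (C * (wt p * wt q) / α ^ z) ≤
      (3 * ((v - u) * α ^ z)) * (C * (wt p * wt q) / α ^ z) := mul_le_mul_of_nonneg_right hcard h7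
    _ = _ := by
        field_simp

end Pool.Agent.U776.PG
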