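import Mathlib
import Pool.Agent.U776.PG.G2
import Pool.Agent.N222.GW.CL

set_option autoImplicit false

/-!
# Real bases: the means over the dyadic cells
-/

namespace Pool.Agent.U776.PG

open MeasureTheory Finset Filter Topology
open Pool.Agent.H305R2 (roughPart ff)
open Pool.Agent.N176.GP (NB NB_spec NB_div sum_cells grow)
open Pool.Agent.N176.GW (S_FM kr)
open Pool.Agent.U776.PL

/-- trimming an interval to full cells -/
lemma vol_trim {s : ℝ} (hs : 0 < s) (E : Set ℝ) {u v : ℝ} (hu : 0 ≤ u) (huv : u ≤ v) :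
    |volume.real (Set.Icc u v ∩ E) -
      volume.real (Set.Ico ((⌈u * s⌉₊ : ℝ) / s) ((⌊v * s⌋₊ : ℝ) / s) ∩ E)| ≤ 2 / s := by
  have hv : 0 ≤ v := hu.trans huv
  have h1 : u ≤ (⌈u * s⌉₊ : ℝ) / s := by
    rw [le_div_iff₀ hs]
    exact Nat.le_ceil _
  have h2 : (⌊v * s⌋₊ : ℝ) / s ≤ v := by
    rw [div_le_iff₀ hs]
    exact Nat.floor_le (by positivity)
  have h3 : (⌈u * s⌉₊ : ℝ) / s ≤ u + 1 / s := by
    rw [div_le_iff₀ hs, add_mul, div_mul_cancel₀ _ hs.ne']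
    exact (Nat.ceil_lt_add_one (by positivity)).le
  have h4 : v - 1 / s ≤ (⌊v * s⌋₊ : ℝ) / s := by
    rw [le_div_iff₀ hs, sub_mul, div_mul_cancel₀ _ hs.ne']
    linarith [Nat.lt_floor_add_one (v * s)]
  have k1 : volume.real (Set.Ico ((⌈u * s⌉₊ : ℝ) / s) ((⌊v * s⌋₊ : ℝ) / s) ∩ E) ≤
      volume.real (Set.Icc u v ∩ E) := by
    refine measureReal_mono ?_ (vol_fin _ _ _)
    rintro x ⟨⟨h5, h6⟩, h7⟩
    exact ⟨⟨h1.trans h5, h6.le.trans h2⟩, h7⟩
  have k2 : volume.real (Set.Icc u v ∩ E) ≤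
      volume.real (Set.Ico ((⌈u * s⌉₊ : ℝ) / s) ((⌊v * s⌋₊ : ℝ) / s) ∩ E) + 2 / s := by
    have h5 : Set.Icc u v ∩ E ⊆
        (Set.Ico ((⌈u * s⌉₊ : ℝ) / s) ((⌊v * s⌋₊ : ℝ) / s) ∩ E) ∪
        (Set.Icc u (u + 1 / s) ∪ Set.Icc (v - 1 / s) v) := by
      rintro x ⟨⟨h5, h6⟩, h7⟩
      by_cases h8 : (⌈u * s⌉₊ : ℝ) / s ≤ x
      · by_cases h9 : x < (⌊v * s⌋₊ : ℝ) / s
        · exact Or.inl ⟨⟨h8, h9⟩, h7⟩
        · exact Or.inr (Or.inr ⟨by linarith, h6⟩)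
      · exact Or.inr (Or.inl ⟨h5, by linarith⟩)
    have f1 : volume (Set.Icc u (u + 1 / s)) ≠ ⊤ := by
      rw [Real.volume_Icc]; exact ENNReal.ofReal_ne_top
    have f2 : volume (Set.Icc (v - 1 / s) v) ≠ ⊤ := by
      rw [Real.volume_Icc]; exact ENNReal.ofReal_ne_top
    have f3 : volume (Set.Ico ((⌈u * s⌉₊ : ℝ) / s) ((⌊v * s⌋₊ : ℝ) / s) ∩ E) ≠ ⊤ :=
      ne_top_of_le_ne_top (by rw [Real.volume_Ico]; exact ENNReal.ofReal_ne_top)
        (measure_mono Set.inter_subset_left)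
    have h6 := measureReal_mono (μ := volume) h5 (by
      refine ne_top_of_le_ne_top ?_ (measure_union_le _ _)
      refine ENNReal.add_ne_top.2 ⟨f3, ne_top_of_le_ne_top (ENNReal.add_ne_top.2 ⟨f1, f2⟩)
        (measure_union_le _ _)⟩)
    refine h6.trans ((measureReal_union_le _ _).trans ?_)
    have h7 := measureReal_union_le (μ := volume) (Set.Icc u (u + 1 / s)) (Set.Icc (v - 1 / s) v)
    have h8 : volume.real (Set.Icc u (u + 1 / s)) = 1 / s := by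
      rw [measureReal_def, Real.volume_Icc, ENNReal.toReal_ofReal (by
        have : 0 < 1 / s := by positivity
        linarith)]
      ring
    have h9 : volume.real (Set.Icc (v - 1 / s) v) = 1 / s := by
      rw [measureReal_def, Real.volume_Icc, ENNReal.toReal_ofReal (by
        have : 0 < 1 / s := by positivity
        linarith)]
      ring
    have h10 : (2 : ℝ) / s = 1 / s + 1 / s := by ring
    linarith
  rw [abs_le]
  constructor
  · have : 0 ≤ 2 / s := by positivity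
    linarith
  · linarith

/-- the measure in an interval is the sum over the cells -/
lemma vol_cells {s : ℝ} (hs : 0 < s) {E : Set ℝ} (hE : MeasurableSet E) {V0 V1 : ℕ} (h : V0 ≤ V1) :
    volume.real (Set.Ico ((V0 : ℝ) / s) ((V1 : ℝ) / s) ∩ E) =
      ∑ j ∈ Ico V0 V1, volume.real (Set.Ico ((j : ℝ) / s) (((j : ℝ) + 1) / s) ∩ E) := by
  induction V1, h using Nat.le_induction with
  | base => simp
  | succ V h ih =>
    have hle : (V0 : ℝ) / s ≤ (V : ℝ) / s := by gcongr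
    have hle2 : (V : ℝ) / s ≤ ((V + 1 : ℕ) : ℝ) / s := by gcongr; omega
    have h1 : Set.Ico ((V0 : ℝ) / s) (((V + 1 : ℕ) : ℝ) / s) ∩ E =
        (Set.Ico ((V0 : ℝ) / s) ((V : ℝ) / s) ∩ E) ∪
        (Set.Ico ((V : ℝ) / s) (((V + 1 : ℕ) : ℝ) / s) ∩ E) := by
      rw [← Set.union_inter_distrib_right, Set.Ico_union_Ico_eq_Ico hle hle2]
    have hd : Disjoint (Set.Ico ((V0 : ℝ) / s) ((V : ℝ) / s) ∩ E)
        (Set.Ico ((V : ℝ) / s) (((V + 1 : ℕ) : ℝ) / s) ∩ E) := by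
      rw [Set.disjoint_left]
      rintro x ⟨⟨_, h3⟩, _⟩ ⟨⟨h4, _⟩, _⟩
      linarith
    have f1 : volume (Set.Ico ((V0 : ℝ) / s) ((V : ℝ) / s) ∩ E) ≠ ⊤ :=
      ne_top_of_le_ne_top (by rw [Real.volume_Ico]; exact ENNReal.ofReal_ne_top)
        (measure_mono Set.inter_subset_left)
    have f2 : volume (Set.Ico ((V : ℝ) / s) (((V + 1 : ℕ) : ℝ) / s) ∩ E) ≠ ⊤ :=
      ne_top_of_le_ne_top (by rw [Real.volume_Ico]; exact ENNReal.ofReal_ne_top)
        (measure_mono Set.inter_subset_left)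
    rw [h1, measureReal_union hd (measurableSet_Ico.inter hE) f1 f2, ih, Finset.sum_Ico_succ_top h]
    push_cast
    rfl

lemma sum_steps (e : ℕ → ℕ) (he : Monotone e) (f : ℕ → ℝ) {a b : ℕ} (hab : a ≤ b) :
    ∑ n ∈ Ico a b, ∑ j ∈ Ico (e n) (e (n + 1)), f j = ∑ j ∈ Ico (e a) (e b), f j := by
  induction b, hab using Nat.le_induction with
  | base => simp
  | succ b hab ih =>
    rw [Finset.sum_Ico_succ_top hab, ih, Finset.sum_Ico_consecutive _ (he hab) (he (Nat.le_succ b))]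

lemma mu_Icc {b m A0 B0 : ℕ} {E : Set ℝ} (hE : MeasurableSet E) : (mu b m A0 B0).real E =
    volume.real (Set.Icc ((A0 : ℝ) / (b : ℝ) ^ m) ((B0 : ℝ) / (b : ℝ) ^ m) ∩ E) := by
  rw [mu_real E hE]
  exact measureReal_congr (Ioc_ae_eq_Icc.inter (ae_eq_refl E))

/-- one dyadic cell -/
lemma dyadic_cell {a : ℝ} (ha : 0 < a) {s n : ℕ} (has : ((2 : ℕ) : ℝ) ^ s ≤ a) {E : Set ℝ}
    (hE : MeasurableSet E) {w : ℝ} (hw0 : 0 ≤ w) (hw1 : w ≤ 1) :
    |(mu 2 s n (n + 1)).real E - w / ((2 : ℕ) : ℝ) ^ s| ≤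
      ∑ j ∈ Ico ⌈(n : ℝ) / ((2 : ℕ) : ℝ) ^ s * a⌉₊ ⌊((n + 1 : ℕ) : ℝ) / ((2 : ℕ) : ℝ) ^ s * a⌋₊,
        |volume.real (Set.Ico ((j : ℝ) / a) (((j : ℝ) + 1) / a) ∩ E) - w / a| + 4 / a := by
  have h2s : (0 : ℝ) < ((2 : ℕ) : ℝ) ^ s := by positivity
  set u := (n : ℝ) / ((2 : ℕ) : ℝ) ^ s with hu
  set v := ((n + 1 : ℕ) : ℝ) / ((2 : ℕ) : ℝ) ^ s with hv
  have hu0 : 0 ≤ u := by positivity
  have hvu : v - u = 1 / ((2 : ℕ) : ℝ) ^ s := by
    rw [hu, hv, ← sub_div]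
    push_cast
    ring
  have huv : u ≤ v := by
    have : 0 < 1 / ((2 : ℕ) : ℝ) ^ s := by positivity
    linarith
  have hlen : 1 ≤ (v - u) * a := by
    rw [hvu, one_div_mul_eq_div, le_div_iff₀ h2s]
    linarith
  have f1 : u * a ≤ ⌈u * a⌉₊ := Nat.le_ceil _
  have f2 : (⌈u * a⌉₊ : ℝ) < u * a + 1 := Nat.ceil_lt_add_one (by positivity)
  have hv0 : 0 ≤ v := hu0.trans huv
  have f3 : (⌊v * a⌋₊ : ℝ) ≤ v * a := Nat.floor_le (by positivity)
  have f4 : v * a < ⌊v * a⌋₊ + 1 := Nat.lt_floor_add_one _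
  have h0 : ⌈u * a⌉₊ ≤ ⌊v * a⌋₊ := by
    refine Nat.le_floor ?_
    have h1 : ((⌈u * a⌉₊ : ℕ) : ℝ) < ((⌊v * a⌋₊ + 1 + 1 : ℕ) : ℝ) := by
      push_cast
      nlinarith
    have h2 : ⌈u * a⌉₊ < ⌊v * a⌋₊ + 1 + 1 := by exact_mod_cast h1
    by_contra hcon
    push Not at hcon
    have h3 : ⌊v * a⌋₊ < ⌈u * a⌉₊ := by
      have : (⌊v * a⌋₊ : ℝ) < ⌈u * a⌉₊ := by linarith
      exact_mod_cast this
    have h4 : ⌈u * a⌉₊ = ⌊v * a⌋₊ + 1 := by omega
    rw [Nat.ceil_eq_iff (by omega)] at h4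
    obtain ⟨h5, h6⟩ := h4
    have h7 : ((⌊v * a⌋₊ + 1 - 1 : ℕ) : ℝ) = ⌊v * a⌋₊ := by
      congr 1
    rw [h7] at h5
    nlinarith
  have h1 := vol_trim ha E hu0 huv
  rw [vol_cells ha hE h0] at h1
  rw [mu_Icc hE]
  set f : ℕ → ℝ := fun j => volume.real (Set.Ico ((j : ℝ) / a) (((j : ℝ) + 1) / a) ∩ E) with hf
  set J := Ico ⌈u * a⌉₊ ⌊v * a⌋₊ with hJ
  have hc : (J.card : ℝ) = ⌊v * a⌋₊ - ⌈u * a⌉₊ := by
    rw [hJ, Nat.card_Ico, Nat.cast_sub h0]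
  have h2 : |∑ j ∈ J, w / a - w / ((2 : ℕ) : ℝ) ^ s| ≤ 2 / a := by
    rw [sum_const, nsmul_eq_mul, hc]
    have e1 : ((⌊v * a⌋₊ : ℝ) - ⌈u * a⌉₊) * (w / a) - w / ((2 : ℕ) : ℝ) ^ s =
        w * ((((⌊v * a⌋₊ : ℝ) - ⌈u * a⌉₊) - (v - u) * a) / a) := by
      have e2 : w / ((2 : ℕ) : ℝ) ^ s = w * (v - u) := by rw [hvu]; ring
      rw [e2]
      field_simp
    rw [e1, abs_mul, abs_of_nonneg hw0, abs_div, abs_of_pos ha]
    have h3 : |((⌊v * a⌋₊ : ℝ) - ⌈u * a⌉₊) - (v - u) * a| ≤ 2 := by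
      rw [abs_le]
      constructor <;> nlinarith
    calc w * (|((⌊v * a⌋₊ : ℝ) - ⌈u * a⌉₊) - (v - u) * a| / a) ≤ 1 * (2 / a) :=
          mul_le_mul hw1 (div_le_div_of_nonneg_right h3 ha.le) (by positivity) zero_le_one
      _ = _ := one_mul _
  have h3 : |∑ j ∈ J, f j - ∑ j ∈ J, w / a| ≤ ∑ j ∈ J, |f j - w / a| := by
    rw [← sum_sub_distrib]
    exact abs_sum_le_sum_abs _ _
  have e : volume.real (Set.Icc u v ∩ E) - w / ((2 : ℕ) : ℝ) ^ s =
      (volume.real (Set.Icc u v ∩ E) - ∑ j ∈ J, f j) + (∑ j ∈ J, f j - ∑ j ∈ J, w / a) +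
      (∑ j ∈ J, w / a - w / ((2 : ℕ) : ℝ) ^ s) := by ring
  rw [e]
  refine (abs_add_three _ _ _).trans ?_
  have e4 : (4 : ℝ) / a = 2 / a + 2 / a := by ring
  rw [e4]
  linarith

/-- one cell in the real base -/
lemma real_cell {α : ℝ} (hα : 1 < α) {q z j : ℕ} (hzq : z ≤ q) (hj : 1 ≤ j)
    (hlen : 1 ≤ α ^ (q - z)) (κ w : ℝ) :
    |volume.real (Set.Ico ((j : ℝ) / α ^ z) (((j : ℝ) + 1) / α ^ z) ∩ Er α q) - κ * w / α ^ z| ≤
      |(∫ u in (Real.log (j * α ^ (q - z)))..(Real.log (((j : ℝ) + 1) * α ^ (q - z))),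
        Real.exp u * ff q u) / α ^ (q - z) - κ * w| / α ^ z + 4 / α ^ q := by
  classical
  have hα0 : 0 < α := by linarith
  have hz : 0 < α ^ z := pow_pos hα0 z
  have hq : 0 < α ^ q := pow_pos hα0 q
  have hqz : 0 < α ^ (q - z) := pow_pos hα0 _
  have e0 : α ^ q = α ^ z * α ^ (q - z) := by rw [← pow_add]; congr 1; omega
  have hj0 : (1 : ℝ) ≤ j := by exact_mod_cast hj
  set u := (j : ℝ) / α ^ z with hu
  set v := ((j : ℝ) + 1) / α ^ z with hv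
  have hu0 : 0 ≤ u := by positivity
  have huv : u ≤ v := by
    rw [hu, hv]
    gcongr
    linarith
  have eu : u * α ^ q = j * α ^ (q - z) := by
    rw [hu, e0]
    field_simp
  have ev : v * α ^ q = ((j : ℝ) + 1) * α ^ (q - z) := by
    rw [hv, e0]
    field_simp
  have hle : ⌈u * α ^ q⌉₊ ≤ ⌊v * α ^ q⌋₊ := by
    rw [eu, ev]
    refine Nat.ceil_le.2 ?_
    have h1 : ((j : ℝ) + 1) * α ^ (q - z) < ⌊((j : ℝ) + 1) * α ^ (q - z)⌋₊ + 1 :=
      Nat.lt_floor_add_one _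
    nlinarith
  have h1 := vol_near hq (fun n => (roughPart q n).Prime) hu0 huv hle
  have hIco : volume.real (Set.Ico u v ∩ Er α q) = volume.real (Set.Icc u v ∩ Er α q) :=
    measureReal_congr (Ico_ae_eq_Icc.inter (ae_eq_refl _))
  rw [hIco]
  set V0 := ⌈u * α ^ q⌉₊ with hV0
  set V1 := ⌊v * α ^ q⌋₊ with hV1
  have hV01 : 1 ≤ V0 := by
    refine Nat.one_le_ceil_iff.2 ?_
    rw [eu]
    positivity
  have h2 := Pool.Agent.N222.GW.int_near q V0 V1 (j * α ^ (q - z)) (((j : ℝ) + 1) * α ^ (q - z))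
    (by positivity) hV01 (by rw [← eu]; exact Nat.le_ceil _) hle
    (by rw [← ev]; exact Nat.floor_le (by positivity))
  have f1 : (V0 : ℝ) - j * α ^ (q - z) ≤ 1 := by
    rw [← eu]
    have := Nat.ceil_lt_add_one (show 0 ≤ u * α ^ q by positivity)
    linarith
  have f2 : ((j : ℝ) + 1) * α ^ (q - z) - V1 ≤ 1 := by
    rw [← ev]
    have := Nat.lt_floor_add_one (v * α ^ q)
    linarith
  set I := ∫ u in (Real.log (j * α ^ (q - z)))..(Real.log (((j : ℝ) + 1) * α ^ (q - z))),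
        Real.exp u * ff q u with hI
  set N : ℝ := (((Ico V0 V1).filter (fun n => (roughPart q n).Prime)).card : ℝ) with hN
  have h3 : |I - N| ≤ 2 := by
    have e1 : N = ∑ v ∈ Ico V0 V1, (if (roughPart q v).Prime then (1 : ℝ) else 0) := by
      rw [hN, Finset.card_filter]
      push_cast
      rfl
    rw [e1]
    linarith
  have h1' : |volume.real (Set.Icc u v ∩ Er α q) - N / α ^ q| ≤ 2 / α ^ q := h1
  have h4 : |I / α ^ q - N / α ^ q| ≤ 2 / α ^ q := by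
    rw [← sub_div, abs_div, abs_of_pos hq]
    exact div_le_div_of_nonneg_right h3 hq.le
  have h5 : I / α ^ q - κ * w / α ^ z = (I / α ^ (q - z) - κ * w) / α ^ z := by
    rw [e0]
    field_simp
  have e : volume.real (Set.Icc u v ∩ Er α q) - κ * w / α ^ z =
      (volume.real (Set.Icc u v ∩ Er α q) - N / α ^ q) + -(I / α ^ q - N / α ^ q) +
      (I / α ^ q - κ * w / α ^ z) := by ring
  rw [e]
  refine (abs_add_three _ _ _).trans ?_
  rw [abs_neg, h5, abs_div, abs_of_pos hz]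
  have e4 : (4 : ℝ) / α ^ q = 2 / α ^ q + 2 / α ^ q := by ring
  rw [e4]
  linarith

/-- the mean deviation over the dyadic cells -/
theorem mix_real {α : ℝ} (hα : 1 < α) (hFM : S_FM α) {L : ℕ} (hL : 2 ≤ α ^ L) (A : ℕ)
    (hA : 1 ≤ A) :
    ∃ c0 : ℝ, 0 < c0 ∧ c0 * A ≤ 1 ∧ ∀ m A0 B0 : ℕ, 1 ≤ A0 → A0 < B0 → B0 ≤ 2 ^ (2 * m) →
      ∃ K : ℝ, 0 < K ∧ ∃ Q : ℕ, ∀ q ≥ Q, dv 2 (Er α) (kr α) c0 q m A0 B0 ≤ K / q := by
  classical
  have hα0 : 0 < α := by linarith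
  have hlog : 0 < Real.log α := Real.log_pos hα
  have hlog2 : 0 < Real.log 2 := Real.log_pos (by norm_num)
  have hA' : (1 : ℝ) ≤ A := by exact_mod_cast hA
  obtain ⟨κ0, K1, hκ0, hK1, hfm⟩ := hFM
  have hkr : 0 < kr α := by
    unfold kr
    positivity
  set κ1 : ℝ := min κ0 (1 / 2) with hκ1
  have hκ1pos : 0 < κ1 := lt_min hκ0 (by norm_num)
  have hκ12 : κ1 ≤ 1 / 2 := min_le_right _ _
  set c0 : ℝ := min (κ1 * Real.log α / (4 * Real.log 2)) (1 / A) with hc0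
  have hc0pos : 0 < c0 := lt_min (by positivity) (by positivity)
  have hc0le : c0 * Real.log 2 ≤ κ1 * Real.log α / 4 := by
    calc c0 * Real.log 2 ≤ κ1 * Real.log α / (4 * Real.log 2) * Real.log 2 :=
          mul_le_mul_of_nonneg_right (min_le_left _ _) hlog2.le
      _ = _ := by field_simp
  refine ⟨c0, hc0pos, ?_, fun m A0 B0 hA0 hAB hB0 => ?_⟩
  · calc c0 * A ≤ 1 / A * A := mul_le_mul_of_nonneg_right (min_le_right _ _) (by linarith)
      _ = 1 := by field_simp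
  set m0 := L * m with hm0
  obtain ⟨P, hP⟩ := hfm m0
  have h2m : (0 : ℝ) < ((2 : ℕ) : ℝ) ^ m := by positivity
  have hαm : ((2 : ℕ) : ℝ) ^ m ≤ α ^ m0 := by
    rw [hm0, pow_mul]
    push_cast
    exact pow_le_pow_left₀ (by norm_num) hL m
  have hαm0 : 0 < α ^ m0 := pow_pos hα0 _
  have hB0' : (0 : ℝ) ≤ B0 := Nat.cast_nonneg _
  refine ⟨1 + 2 * α ^ m0 * K1 + 8 * α ^ m0 + 4 * B0, by positivity, ?_⟩
  have ev1 := grow (κ1 * Real.log α / 2) α (by positivity)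
  have ev2 : ∀ᶠ q : ℕ in atTop, ((m0 : ℝ) + 1 + m) / κ1 + ((m : ℝ) + 1) / c0 ≤ q :=
    tendsto_natCast_atTop_atTop.eventually_ge_atTop _
  have ev3 : ∀ᶠ q : ℕ in atTop, (Real.log q) ^ 2 ≤ q := by
    have h1 := (Real.isLittleO_pow_log_id_atTop (n := 2)).tendsto_div_nhds_zero.comp
      (tendsto_natCast_atTop_atTop (R := ℝ))
    filter_upwards [h1.eventually (ge_mem_nhds (show (0 : ℝ) < 1 by norm_num)),
      eventually_ge_atTop 1] with q hq hq1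
    have hq0 : (0 : ℝ) < q := by exact_mod_cast (by omega : 0 < q)
    simp only [Function.comp, id] at hq
    rw [div_le_one hq0] at hq
    exact hq
  have ev4 : ∀ᶠ q : ℕ in atTop, kr α * wt q < 1 := by
    have h1 : Tendsto (fun p => kr α * wt p) atTop (𝓝 0) := by
      simpa using wt_tendsto.const_mul (kr α)
    exact h1.eventually_lt_const one_pos
  obtain ⟨Q, hQ⟩ := eventually_atTop.1 (ev1.and (ev2.and (ev3.and ev4)))
  refine ⟨Q + P + 1, fun q hq => ?_⟩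
  obtain ⟨d1, d2, d3, d4⟩ := hQ q (by omega)
  have hq1 : (1 : ℝ) ≤ q := by exact_mod_cast (by omega : 1 ≤ q)
  have hq0 : (0 : ℝ) < q := by linarith
  set z := ⌊κ1 * q⌋₊ with hz
  set s := zl c0 q with hs
  have hz1 : (z : ℝ) ≤ κ1 * q := Nat.floor_le (by positivity)
  have hz2 : κ1 * q < z + 1 := Nat.lt_floor_add_one _
  have hs1 : (s : ℝ) ≤ c0 * q := Nat.floor_le (by positivity)
  have hs2 : c0 * q < s + 1 := Nat.lt_floor_add_one _
  have hm0z : m0 ≤ z := by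
    have h1 : ((m0 : ℝ) + 1 + m) / κ1 ≤ q := by
      have : 0 ≤ ((m : ℝ) + 1) / c0 := by positivity
      linarith
    rw [div_le_iff₀ hκ1pos] at h1
    have h2 : (m0 : ℝ) < z + 1 := by
      have : (0 : ℝ) ≤ m := Nat.cast_nonneg _
      linarith
    have h3 : m0 < z + 1 := by exact_mod_cast h2
    omega
  have hms : m ≤ s := by
    have h1 : ((m : ℝ) + 1) / c0 ≤ q := by
      have : 0 ≤ ((m0 : ℝ) + 1 + m) / κ1 := by positivity
      linarith
    rw [div_le_iff₀ hc0pos] at h1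
    have h2 : (m : ℝ) < s + 1 := by linarith
    have h3 : m < s + 1 := by exact_mod_cast h2
    omega
  have hzq : z ≤ q := by
    have : (z : ℝ) ≤ q := by nlinarith
    exact_mod_cast this
  have hz2q : 2 * z ≤ q := by
    have : (2 : ℝ) * z ≤ q := by nlinarith
    exact_mod_cast this
  have hαz : 0 < α ^ z := pow_pos hα0 _
  have hαq : 0 < α ^ q := pow_pos hα0 _
  have hqq : (q : ℝ) ≤ (q : ℝ) ^ 2 := by nlinarith
  -- sizes
  have epow : ∀ k : ℕ, α ^ k = Real.exp (k * Real.log α) := fun k => by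
    rw [Real.exp_nat_mul, Real.exp_log hα0]
  have hzbig : q * ((2 : ℕ) : ℝ) ^ s ≤ α ^ z := by
    have h1 : α * (q : ℝ) ≤ Real.exp (κ1 * Real.log α / 2 * q) :=
      le_trans (mul_le_mul_of_nonneg_left hqq hα0.le) d1
    have h2 : ((2 : ℕ) : ℝ) ^ s ≤ Real.exp (κ1 * Real.log α / 4 * q) := by
      have : ((2 : ℕ) : ℝ) ^ s = Real.exp (s * Real.log 2) := by
        rw [Real.exp_nat_mul, Real.exp_log (by norm_num)]
        norm_num
      rw [this, Real.exp_le_exp]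
      calc (s : ℝ) * Real.log 2 ≤ c0 * q * Real.log 2 := by gcongr
        _ = (c0 * Real.log 2) * q := by ring
        _ ≤ (κ1 * Real.log α / 4) * q := by gcongr
        _ = _ := by ring
    have h3 : Real.exp (κ1 * Real.log α * q) ≤ α * α ^ z := by
      have : α * α ^ z = Real.exp ((z + 1 : ℝ) * Real.log α) := by
        have h4 := epow (z + 1)
        push_cast at h4
        rw [← h4, pow_succ]
        ring
      rw [this, Real.exp_le_exp]
      nlinarith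
    have h4 : α * (q * ((2 : ℕ) : ℝ) ^ s) ≤ α * α ^ z := by
      refine le_trans ?_ h3
      calc α * (q * ((2 : ℕ) : ℝ) ^ s) = (α * q) * ((2 : ℕ) : ℝ) ^ s := by ring
        _ ≤ Real.exp (κ1 * Real.log α / 2 * q) * Real.exp (κ1 * Real.log α / 4 * q) :=
          mul_le_mul h1 h2 (by positivity) (Real.exp_pos _).le
        _ = Real.exp (κ1 * Real.log α / 2 * q + κ1 * Real.log α / 4 * q) := (Real.exp_add _ _).symm
        _ ≤ _ := by
          rw [Real.exp_le_exp]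
          have : 0 ≤ κ1 * Real.log α * q := by positivity
          linarith
    exact le_of_mul_le_mul_left h4 hα0
  have hzq2 : q * α ^ z ≤ α ^ q := by
    have h1 : (q : ℝ) ≤ α ^ (q - z) := by
      have h2 : (q : ℝ) ≤ Real.exp (κ1 * Real.log α / 2 * q) := by
        refine le_trans ?_ d1
        calc (q : ℝ) ≤ (q : ℝ) ^ 2 := hqq
          _ ≤ α * (q : ℝ) ^ 2 := le_mul_of_one_le_left (by positivity) hα.le
      refine h2.trans ?_
      rw [epow, Real.exp_le_exp, Nat.cast_sub hzq]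
      have h3 : (z : ℝ) ≤ q / 2 := by
        have : (2 : ℝ) * z ≤ q := by exact_mod_cast hz2q
        linarith
      calc κ1 * Real.log α / 2 * q = (κ1 / 2 * q) * Real.log α := by ring
        _ ≤ ((q : ℝ) - z) * Real.log α := by
          refine mul_le_mul_of_nonneg_right ?_ hlog.le
          nlinarith
    have h2 : α ^ q = α ^ (q - z) * α ^ z := by rw [← pow_add]; congr 1; omega
    rw [h2]
    exact mul_le_mul_of_nonneg_right h1 hαz.le
  have h2sz : ((2 : ℕ) : ℝ) ^ s ≤ α ^ z := by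
    have : (0 : ℝ) < ((2 : ℕ) : ℝ) ^ s := by positivity
    nlinarith
  have h2s : (0 : ℝ) < ((2 : ℕ) : ℝ) ^ s := by positivity
  -- the sum over the dyadic cells
  set w := kr α * wt q with hw
  have hw0 : 0 ≤ w := mul_nonneg hkr.le (wt_nonneg q)
  set f : ℕ → ℝ := fun j => |volume.real (Set.Ico ((j : ℝ) / α ^ z) (((j : ℝ) + 1) / α ^ z) ∩ Er α q) -
    w / α ^ z| with hf
  have hf0 : ∀ j, 0 ≤ f j := fun j => abs_nonneg _
  set e : ℕ → ℕ := fun n => ⌈(n : ℝ) / ((2 : ℕ) : ℝ) ^ s * α ^ z⌉₊ with he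
  have hemono : Monotone e := by
    intro a b hab
    refine Nat.ceil_le_ceil ?_
    gcongr
  have k1 : dv 2 (Er α) (kr α) c0 q m A0 B0 ≤
      ∑ n ∈ Ico (A0 * 2 ^ (s - m)) (B0 * 2 ^ (s - m)),
        (∑ j ∈ Ico (e n) (e (n + 1)), f j + 4 / α ^ z) := by
    unfold dv
    refine sum_le_sum fun n _ => ?_
    refine (dyadic_cell hαz h2sz (Er_measurable α q) hw0 d4.le).trans ?_
    refine add_le_add ?_ le_rfl
    refine sum_le_sum_of_subset_of_nonneg ?_ fun j _ _ => hf0 j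
    intro j hj
    rw [mem_Ico] at hj ⊢
    refine ⟨hj.1, lt_of_lt_of_le hj.2 ?_⟩
    exact Nat.floor_le_ceil _
  have hAB' : A0 * 2 ^ (s - m) ≤ B0 * 2 ^ (s - m) := Nat.mul_le_mul_right _ hAB.le
  rw [sum_add_distrib, sum_steps e hemono f hAB', sum_const, Nat.card_Ico, nsmul_eq_mul] at k1
  have esc : ∀ D : ℕ, e (D * 2 ^ (s - m)) = ⌈(D : ℝ) / ((2 : ℕ) : ℝ) ^ m * α ^ z⌉₊ := by
    intro D
    simp only [he]
    rw [← scale (b := 2) le_rfl hms D]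
  rw [esc, esc] at k1
  -- the range of the cells
  set X := ⌊α ^ (z - m0)⌋₊ with hX
  set Y := ⌈α ^ (z + m0)⌉₊ with hY
  have ezm : α ^ z = α ^ (z - m0) * α ^ m0 := by rw [← pow_add]; congr 1; omega
  have hzm1 : 1 ≤ α ^ (z - m0) := one_le_pow₀ hα.le
  have hX1 : 1 ≤ X := Nat.le_floor (by exact_mod_cast hzm1)
  have hsubset : Ico ⌈(A0 : ℝ) / ((2 : ℕ) : ℝ) ^ m * α ^ z⌉₊ ⌈(B0 : ℝ) / ((2 : ℕ) : ℝ) ^ m * α ^ z⌉₊ ⊆
      Ico X Y := by
    refine Ico_subset_Ico ?_ ?_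
    · refine (Nat.floor_le_ceil _).trans (Nat.ceil_le_ceil ?_)
      have hA0' : (1 : ℝ) ≤ A0 := by exact_mod_cast hA0
      rw [div_mul_eq_mul_div, le_div_iff₀ h2m, ezm]
      have h1 : α ^ (z - m0) * ((2 : ℕ) : ℝ) ^ m ≤ α ^ (z - m0) * α ^ m0 :=
        mul_le_mul_of_nonneg_left hαm (by linarith)
      have h2 : 0 ≤ α ^ (z - m0) * α ^ m0 := by positivity
      nlinarith
    · refine Nat.ceil_le_ceil ?_
      rw [div_mul_eq_mul_div, div_le_iff₀ h2m, pow_add]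
      have h1 : (B0 : ℝ) ≤ ((2 : ℕ) : ℝ) ^ m * ((2 : ℕ) : ℝ) ^ m := by
        rw [← pow_add, ← two_mul]
        exact_mod_cast hB0
      calc (B0 : ℝ) * α ^ z ≤ (((2 : ℕ) : ℝ) ^ m * ((2 : ℕ) : ℝ) ^ m) * α ^ z :=
            mul_le_mul_of_nonneg_right h1 hαz.le
        _ ≤ (α ^ m0 * ((2 : ℕ) : ℝ) ^ m) * α ^ z := by gcongr
        _ = _ := by ring
  have k2 : ∑ j ∈ Ico ⌈(A0 : ℝ) / ((2 : ℕ) : ℝ) ^ m * α ^ z⌉₊ ⌈(B0 : ℝ) / ((2 : ℕ) : ℝ) ^ m * α ^ z⌉₊,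
      f j ≤ ∑ j ∈ Ico X Y, f j := sum_le_sum_of_subset_of_nonneg hsubset fun j _ _ => hf0 j
  set g : ℕ → ℝ := fun j => |(∫ u in (Real.log (j * α ^ (q - z)))..(Real.log (((j : ℝ) + 1) *
    α ^ (q - z))), Real.exp u * ff q u) / α ^ (q - z) - kr α * wt q| with hg
  have k3 : ∀ j ∈ Ico X Y, f j ≤ (max 0 (g j - K1 / q) + K1 / q) / α ^ z + 4 / α ^ q := by
    intro j hj
    rw [mem_Ico] at hj
    have h1 := real_cell hα hzq (hX1.trans hj.1) (one_le_pow₀ hα.le) (kr α) (wt q)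
    refine h1.trans ?_
    refine add_le_add (div_le_div_of_nonneg_right ?_ hαz.le) le_rfl
    have h2 := le_max_right (0 : ℝ) (g j - K1 / q)
    have h3 : g j = |(∫ u in (Real.log (j * α ^ (q - z)))..(Real.log (((j : ℝ) + 1) *
      α ^ (q - z))), Real.exp u * ff q u) / α ^ (q - z) - kr α * wt q| := rfl
    rw [← h3]
    linarith
  have k4 : ∑ j ∈ Ico X Y, max 0 (g j - K1 / q) ≤ α ^ z * ((Real.log q) ^ 2 / q ^ 2) := by
    refine hP q (by omega) z hm0z ?_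
    exact hz1.trans (mul_le_mul_of_nonneg_right (min_le_left _ _) hq0.le)
  have hcard : (((Ico X Y).card : ℕ) : ℝ) ≤ 2 * (α ^ z * α ^ m0) := by
    rw [Nat.card_Ico]
    have h1 : ((Y - X : ℕ) : ℝ) ≤ Y := by exact_mod_cast Nat.sub_le _ _
    have h2 : (Y : ℝ) < α ^ (z + m0) + 1 := Nat.ceil_lt_add_one (by positivity)
    have h3 : 1 ≤ α ^ (z + m0) := one_le_pow₀ hα.le
    rw [pow_add] at h2 h3
    linarith
  have k5 : ∑ j ∈ Ico X Y, f j ≤ (Real.log q) ^ 2 / q ^ 2 + 2 * α ^ m0 * K1 / q + 8 * α ^ m0 / q := by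
    refine (sum_le_sum k3).trans ?_
    rw [sum_add_distrib, ← sum_div, sum_add_distrib, sum_const, sum_const, nsmul_eq_mul, nsmul_eq_mul]
    have h1 : (∑ j ∈ Ico X Y, max 0 (g j - K1 / q) + ((Ico X Y).card : ℝ) * (K1 / q)) / α ^ z ≤
        (α ^ z * ((Real.log q) ^ 2 / q ^ 2) + 2 * (α ^ z * α ^ m0) * (K1 / q)) / α ^ z := by
      refine div_le_div_of_nonneg_right ?_ hαz.le
      exact add_le_add k4 (mul_le_mul_of_nonneg_right hcard (by positivity))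
    have h2 : (α ^ z * ((Real.log q) ^ 2 / q ^ 2) + 2 * (α ^ z * α ^ m0) * (K1 / q)) / α ^ z =
        (Real.log q) ^ 2 / q ^ 2 + 2 * α ^ m0 * K1 / q := by
      field_simp
    have h3 : ((Ico X Y).card : ℝ) * (4 / α ^ q) ≤ 8 * α ^ m0 / q := by
      calc ((Ico X Y).card : ℝ) * (4 / α ^ q) ≤ 2 * (α ^ z * α ^ m0) * (4 / α ^ q) :=
            mul_le_mul_of_nonneg_right hcard (by positivity)
        _ = 8 * α ^ m0 * (α ^ z / α ^ q) := by ring
        _ ≤ 8 * α ^ m0 * (1 / q) := by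
            refine mul_le_mul_of_nonneg_left ?_ (by positivity)
            rw [div_le_div_iff₀ hαq hq0, one_mul]
            linarith
        _ = _ := by ring
    linarith
  have k6 : ((B0 * 2 ^ (s - m) - A0 * 2 ^ (s - m) : ℕ) : ℝ) * (4 / α ^ z) ≤ 4 * B0 / q := by
    have h1 : ((B0 * 2 ^ (s - m) - A0 * 2 ^ (s - m) : ℕ) : ℝ) ≤ B0 * ((2 : ℕ) : ℝ) ^ s := by
      have h2 : B0 * 2 ^ (s - m) - A0 * 2 ^ (s - m) ≤ B0 * 2 ^ s :=
        (Nat.sub_le _ _).trans (Nat.mul_le_mul_left _ (Nat.pow_le_pow_right (by norm_num) (by omega)))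
      exact_mod_cast h2
    calc _ ≤ B0 * ((2 : ℕ) : ℝ) ^ s * (4 / α ^ z) := mul_le_mul_of_nonneg_right h1 (by positivity)
      _ = 4 * B0 * (((2 : ℕ) : ℝ) ^ s / α ^ z) := by ring
      _ ≤ 4 * B0 * (1 / q) := by
          refine mul_le_mul_of_nonneg_left ?_ (by positivity)
          rw [div_le_div_iff₀ hαz hq0, one_mul]
          linarith
      _ = _ := by ring
  have k7 : (Real.log q) ^ 2 / (q : ℝ) ^ 2 ≤ 1 / q := by
    rw [div_le_div_iff₀ (by positivity) hq0]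
    nlinarith
  refine k1.trans ?_
  have e9 : (1 + 2 * α ^ m0 * K1 + 8 * α ^ m0 + 4 * B0) / (q : ℝ) =
      1 / q + 2 * α ^ m0 * K1 / q + 8 * α ^ m0 / q + 4 * B0 / q := by ring
  rw [e9]
  linarith

end Pool.Agent.U776.PG
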