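import Mathlib
import Pool.Agent.U776.PG.G3
import Pool.Agent.U776.PG.G4
import Pool.Agent.U776.PG.A4
import Pool.Agent.N176.GW.Fin
import Pool.Agent.N176.GW.All

set_option autoImplicit false

/-!
# Real bases: the laws
-/

namespace Pool.Agent.U776.PG

open MeasureTheory Finset Filter Topology
open Pool.Agent.H305R2 (roughPart ff)
open Pool.Agent.N176.GW (S_FM S_K S_RB kr)
open Pool.Agent.U776.PL

/-- the model in a real base -/
theorem qm_real {α : ℝ} (hα : 1 < α) (hK : S_K α (fun _ => 0)) (hRB : S_RB α (fun _ => 0))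
    (hFM : S_FM α) : ∃ (Λ A P : ℕ) (C c0 : ℝ), QM 2 (Er α) (kr α) Λ A P C c0 := by
  have hα0 : 0 < α := by linarith
  obtain ⟨L0, hL0⟩ := (tendsto_pow_atTop_atTop_of_one_lt hα).eventually_ge_atTop 2 |>.exists
  obtain ⟨L, hL1, hL⟩ : ∃ L : ℕ, 1 ≤ L ∧ 2 ≤ α ^ L :=
    ⟨L0 + 1, by omega, hL0.trans (pow_le_pow_right₀ hα.le (by omega))⟩
  obtain ⟨M0, hM0⟩ := (tendsto_pow_atTop_atTop_of_one_lt (show (1 : ℝ) < 2 by norm_num)).eventually_ge_atTop
    α |>.exists
  obtain ⟨Λ, hΛ1, hΛ⟩ : ∃ Λ : ℕ, 1 ≤ Λ ∧ α ≤ 2 ^ Λ :=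
    ⟨M0 + 1, by omega, hM0.trans (pow_le_pow_right₀ (by norm_num) (by omega))⟩
  obtain ⟨C1, hC1, P1, h1⟩ := one_real hα hL1 hL
  obtain ⟨C2, hC2, P2, h2⟩ := far_real hα hL1 hL
  obtain ⟨C3, hC3, P3, h3⟩ := near_real hα hK hRB hL1 hL
  obtain ⟨c0, hc0, hc0A, h4⟩ := mix_real hα hFM hL (66 * L + 1) (by omega)
  have hkr : 0 < kr α := by
    unfold kr
    have := Real.log_pos hα
    positivity
  refine ⟨Λ, 66 * L + 1, P1 + P2 + P3, C1 + C2 + C3 + 1, c0, ?_⟩
  have hmono : ∀ m p : ℕ, (66 * L + 1) * (m + 1) ≤ p → 2 * L * (m + 1) ≤ p ∧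
      (64 * L + 1) * (m + 1) ≤ p := by
    intro m p h
    constructor <;> nlinarith
  exact
    { hb := le_rfl
      hκ := hkr
      hΛ := hΛ1
      hA := by omega
      hC := by positivity
      hc0 := hc0
      hcA := hc0A
      meas := Er_measurable α
      one := fun m A0 B0 hA0 hAB hB0 p hp hmp => by
        refine (h1 m A0 B0 hA0 hAB p (by omega) (hmono m p hmp).1).trans ?_
        refine mul_le_mul_of_nonneg_left ?_ measureReal_nonneg
        have := wt_nonneg p
        nlinarith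
      pair := fun m A0 B0 hA0 hAB hB0 p hp hmp q hq => by
        have hw := mul_nonneg (wt_nonneg p) (wt_nonneg q)
        by_cases h : 2 * p - 1 ≤ q
        · refine (h2 m A0 B0 hA0 hAB p (by omega) (hmono m p hmp).1 q h).trans ?_
          refine mul_le_mul_of_nonneg_left ?_ measureReal_nonneg
          nlinarith
        · refine (h3 m A0 B0 hA0 hAB hB0 p (by omega) (hmono m p hmp).2 q hq (by omega)).trans ?_
          refine mul_le_mul_of_nonneg_left ?_ measureReal_nonneg
          nlinarith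
      loc := fun m A0 B0 hAB p t hmt => by
        refine (loc_real hα hΛ m A0 B0 hAB p t hmt).trans ?_
        refine mul_le_mul_of_nonneg_left ?_ measureReal_nonneg
        refine div_le_div_of_nonneg_right ?_ (by positivity)
        refine mul_le_mul_of_nonneg_right (by linarith) (by positivity)
      mix := h4 }

/-- the golden base -/
theorem qm_gold : ∃ (Λ A P : ℕ) (C c0 : ℝ),
    QM 2 (Er Real.goldenRatio) (kr Real.goldenRatio) Λ A P C c0 :=
  qm_real Real.one_lt_goldenRatio Pool.Agent.N176.GW.All.kt Pool.Agent.N176.GW.All.rb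
    Pool.Agent.N176.GW.All.fm

/-- averages of sequences which are eventually equal -/
lemma avg_congr {a a' : ℕ → ℝ} {L : ℝ} (ha : ∀ n, |a n| ≤ 1) (ha' : ∀ n, |a' n| ≤ 1)
    (h : ∀ᶠ n in atTop, a n = a' n)
    (hL : Tendsto (fun J : ℕ => (∑ j ∈ range J, a' j) / (J : ℝ)) atTop (𝓝 L)) :
    Tendsto (fun J : ℕ => (∑ j ∈ range J, a j) / (J : ℝ)) atTop (𝓝 L) := by
  obtain ⟨N, hN⟩ := eventually_atTop.1 h
  have h1 : Tendsto (fun J : ℕ => (∑ j ∈ range J, a j) / (J : ℝ) -
      (∑ j ∈ range J, a' j) / (J : ℝ)) atTop (𝓝 0) := by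
    refine squeeze_zero_norm' ?_ (tendsto_const_div_atTop_nhds_zero_nat (2 * N : ℝ))
    filter_upwards [eventually_ge_atTop N] with J hJ
    rw [← sub_div, ← sum_sub_distrib, norm_div, Real.norm_eq_abs, Real.norm_eq_abs, Nat.abs_cast]
    refine div_le_div_of_nonneg_right ?_ (Nat.cast_nonneg J)
    have h2 : ∑ j ∈ range J, (a j - a' j) = ∑ j ∈ range N, (a j - a' j) := by
      rw [← Finset.sum_range_add_sum_Ico _ hJ]
      have h3 : ∑ j ∈ Ico N J, (a j - a' j) = 0 := by
        refine sum_eq_zero fun j hj => ?_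
        rw [hN j (mem_Ico.1 hj).1, sub_self]
      rw [h3, add_zero]
    rw [h2]
    refine (abs_sum_le_sum_abs _ _).trans ?_
    refine (sum_le_sum (g := fun _ => (2 : ℝ)) fun j _ => ?_).trans ?_
    · refine (abs_sub _ _).trans ?_
      linarith [ha j, ha' j]
    · rw [sum_const, card_range, nsmul_eq_mul, mul_comm]
  have h2 := h1.add hL
  rw [zero_add] at h2
  refine h2.congr fun J => ?_
  ring

/-- probabilities of events which eventually agree -/
lemma real_congr {Ω : Type*} [MeasurableSpace Ω] {μ : Measure Ω} [IsProbabilityMeasure μ]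
    {A B : ℕ → Set Ω} (hA : ∀ n, MeasurableSet (A n)) (hB : ∀ n, MeasurableSet (B n))
    (h : ∀ᵐ x ∂μ, ∀ᶠ n in atTop, (x ∈ A n ↔ x ∈ B n)) {L : ℝ}
    (hL : Tendsto (fun n => μ.real (B n)) atTop (𝓝 L)) :
    Tendsto (fun n => μ.real (A n)) atTop (𝓝 L) := by
  classical
  have h1 : Tendsto (fun n => ∫ x, ((A n).indicator (fun _ => (1 : ℝ)) x -
      (B n).indicator (fun _ => (1 : ℝ)) x) ∂μ) atTop (𝓝 (∫ _, (0 : ℝ) ∂μ)) := by
    refine tendsto_integral_of_dominated_convergence (fun _ => (2 : ℝ)) (fun n => ?_)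
      (integrable_const _) (fun n => ?_) ?_
    · exact ((measurable_const.indicator (hA n)).sub (measurable_const.indicator (hB n))).aestronglyMeasurable
    · filter_upwards with x
      rw [Real.norm_eq_abs]
      refine (abs_sub _ _).trans ?_
      have h2 : ∀ S : Set Ω, |S.indicator (fun _ => (1 : ℝ)) x| ≤ 1 := by
        intro S
        by_cases hx : x ∈ S
        · rw [Set.indicator_of_mem hx]; simp
        · rw [Set.indicator_of_notMem hx]; simp
      linarith [h2 (A n), h2 (B n)]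
    · filter_upwards [h] with x hx
      refine tendsto_const_nhds.congr' ?_
      filter_upwards [hx] with n hn
      by_cases h3 : x ∈ A n
      · rw [Set.indicator_of_mem h3, Set.indicator_of_mem (hn.1 h3), sub_self]
      · rw [Set.indicator_of_notMem h3, Set.indicator_of_notMem fun h4 => h3 (hn.2 h4), sub_self]
  rw [integral_zero] at h1
  have h2 : ∀ n, ∫ x, ((A n).indicator (fun _ => (1 : ℝ)) x -
      (B n).indicator (fun _ => (1 : ℝ)) x) ∂μ = μ.real (A n) - μ.real (B n) := by
    intro n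
    rw [integral_sub ((integrable_const _).indicator (hA n)) ((integrable_const _).indicator (hB n)),
      integral_indicator (hA n), integral_indicator (hB n), setIntegral_const, setIntegral_const,
      smul_eq_mul, smul_eq_mul, mul_one, mul_one]
  simp only [h2] at h1
  have h3 := h1.add hL
  rw [zero_add] at h3
  refine h3.congr fun n => ?_
  ring

end Pool.Agent.U776.PG
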